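import Pool.Agent.H70.KP.LO

/-!
# [H70 KP TR] recursion for the tuple sums

TS_succ. Write a far (m+1)-tuple as (A, f) (Fin.cons or Fin.snoc). TS (m+1) is the sum over the far
m-tuples f of (prod y (f i)) times the sum of y A over the A in F with all distances to the f i at least j
(both (A \ f i).card >= j and (f i \ A).card >= j, equal for k-sets: sd_symm). The inner sum is at least
X(F) - sum over i of (sum of y A over the A in F with (A \ f i).card < j) >= X(F) - m nu (union bound,
weights >= 0, F in KS). As prod y (f i) >= 0 the claim follows.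
TS_ge. Put b = X(F) - m nu >= 0. Then X(F) - l nu >= b for l <= m (nu >= 0), so TS (l+1) >= b * TS l and
TS 0 = 1: induction gives b^l <= TS l for all l <= m.
TS_one_le: at most (F.card)^m tuples (Fintype.card_piFinset).
-/

namespace Pool.Agent.H70.KP

open Finset
open Pool.Agent.H70.KG (KS DD S gf up0 up pr pr0)

variable {n k : ℕ} {y : Finset (Fin n) → ℝ} {F : Finset (Finset (Fin n))} {j : ℕ} {nu : ℝ}

theorem TS_nonneg (hF : F ⊆ KS n k) (hy : ∀ A ∈ KS n k, 0 ≤ y A) (m : ℕ) : 0 ≤ TS j m y F := by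
  unfold TS
  exact sum_nonneg fun f hf => prod_nonneg fun i _ =>
    hy _ (hF (Fintype.mem_piFinset.mp (mem_filter.mp hf).1 i))

theorem TS_zero : TS j 0 y F = 1 := by
  unfold TS
  simp

private theorem far_sum (hF : F ⊆ KS n k) (hy : ∀ A ∈ KS n k, 0 ≤ y A)
    (hnu : ∀ T ∈ KS n k, ∑ A ∈ (KS n k).filter (fun A => (A \ T).card < j), y A ≤ nu) {m : ℕ}
    (f : Fin m → Finset (Fin n)) (hf : ∀ i, f i ∈ KS n k) :
    ∑ A ∈ F, y A - m * nu ≤ ∑ A ∈ F.filter (fun A => ∀ i, j ≤ (A \ f i).card), y A := by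
  have h1 : ∑ A ∈ F.filter (fun A => ¬ ∀ i, j ≤ (A \ f i).card), y A ≤
      ∑ A ∈ KS n k, ∑ i, (if (A \ f i).card < j then y A else 0) := by
    have h2 : ∀ A ∈ KS n k, 0 ≤ ∑ i, (if (A \ f i).card < j then y A else 0) := by
      intro A hA
      refine sum_nonneg fun i _ => ?_
      split_ifs
      · exact hy A hA
      · exact le_rfl
    refine le_trans (sum_le_sum fun A hA => ?_) (sum_le_sum_of_subset_of_nonneg
      (fun A hA => hF (mem_filter.mp hA).1) fun A hA _ => h2 A hA)
    obtain ⟨hAF, hA2⟩ := mem_filter.mp hA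
    push Not at hA2
    obtain ⟨i, hi⟩ := hA2
    have h3 : y A = if (A \ f i).card < j then y A else 0 := (if_pos hi).symm
    calc y A = if (A \ f i).card < j then y A else 0 := h3
      _ ≤ ∑ i, (if (A \ f i).card < j then y A else 0) :=
        single_le_sum (f := fun i => if (A \ f i).card < j then y A else 0)
          (fun i _ => by
            split_ifs
            · exact hy A (hF hAF)
            · exact le_rfl) (mem_univ i)
  have h2 : ∑ A ∈ KS n k, ∑ i, (if (A \ f i).card < j then y A else 0) ≤ m * nu := by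
    rw [sum_comm]
    calc ∑ i, ∑ A ∈ KS n k, (if (A \ f i).card < j then y A else 0) ≤ ∑ _i : Fin m, nu := by
          refine sum_le_sum fun i _ => ?_
          rw [← sum_filter]
          exact hnu _ (hf i)
      _ = m * nu := by rw [sum_const, card_univ, Fintype.card_fin, nsmul_eq_mul]
  have h3 := sum_filter_add_sum_filter_not F (fun A => ∀ i, j ≤ (A \ f i).card) y
  linarith

theorem TS_succ (hF : F ⊆ KS n k) (hy : ∀ A ∈ KS n k, 0 ≤ y A)
    (hnu : ∀ T ∈ KS n k, ∑ A ∈ (KS n k).filter (fun A => (A \ T).card < j), y A ≤ nu) (m : ℕ) :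
    (∑ A ∈ F, y A - m * nu) * TS j m y F ≤ TS j (m + 1) y F := by
  have h1 : TS j (m + 1) y F = ∑ f ∈ (Fintype.piFinset (fun _ : Fin m => F)).filter
      (fun f => ∀ i l, i ≠ l → j ≤ (f l \ f i).card),
      (∑ A ∈ F.filter (fun A => ∀ i, j ≤ (A \ f i).card), y A) * ∏ i, y (f i) := by
    simp only [sum_mul]
    rw [sum_sigma']
    unfold TS
    refine sum_nbij' (fun g => ⟨Fin.tail g, g 0⟩) (fun p => Fin.cons p.2 p.1) ?_ ?_ ?_ ?_ ?_
    · intro g hg
      obtain ⟨hg1, hg2⟩ := mem_filter.mp hg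
      rw [Fintype.mem_piFinset] at hg1
      refine mem_sigma.mpr ⟨mem_filter.mpr ⟨Fintype.mem_piFinset.mpr fun i => hg1 i.succ, ?_⟩,
        mem_filter.mpr ⟨hg1 0, fun i => ?_⟩⟩
      · intro i l hil
        exact hg2 i.succ l.succ (fun h => hil (Fin.succ_injective _ h))
      · exact hg2 i.succ 0 (Fin.succ_ne_zero i)
    · intro p hp
      obtain ⟨hp1, hp2⟩ := mem_sigma.mp hp
      obtain ⟨hf1, hf2⟩ := mem_filter.mp hp1
      obtain ⟨hA1, hA2⟩ := mem_filter.mp hp2
      rw [Fintype.mem_piFinset] at hf1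
      refine mem_filter.mpr ⟨Fintype.mem_piFinset.mpr fun i => ?_, fun i l => ?_⟩
      · refine Fin.cases ?_ (fun i => ?_) i
        · exact hA1
        · exact hf1 i
      · refine Fin.cases ?_ (fun i => ?_) i
        · refine Fin.cases ?_ (fun l => ?_) l
          · intro h
            exact absurd rfl h
          · intro _
            simp only [Fin.cons_succ, Fin.cons_zero]
            rw [sd_symm (hF (hf1 l)) (hF hA1)]
            exact hA2 l
        · refine Fin.cases ?_ (fun l => ?_) l
          · intro _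
            simp only [Fin.cons_succ, Fin.cons_zero]
            exact hA2 i
          · intro h
            simp only [Fin.cons_succ]
            exact hf2 i l (fun h' => h (by rw [h']))
    · intro g _
      exact Fin.cons_self_tail g
    · intro p _
      simp only [Fin.tail_cons, Fin.cons_zero]
    · intro g _
      rw [Fin.prod_univ_succ]
      rfl
  rw [h1]
  unfold TS
  rw [mul_sum]
  refine sum_le_sum fun f hf => ?_
  have hfF : ∀ i, f i ∈ KS n k := fun i => hF (Fintype.mem_piFinset.mp (mem_filter.mp hf).1 i)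
  exact mul_le_mul_of_nonneg_right (far_sum hF hy hnu f hfF)
    (prod_nonneg fun i _ => hy _ (hfF i))

theorem TS_ge (hF : F ⊆ KS n k) (hy : ∀ A ∈ KS n k, 0 ≤ y A) (h0 : 0 ≤ nu)
    (hnu : ∀ T ∈ KS n k, ∑ A ∈ (KS n k).filter (fun A => (A \ T).card < j), y A ≤ nu) (m : ℕ)
    (hX : m * nu ≤ ∑ A ∈ F, y A) : (∑ A ∈ F, y A - m * nu) ^ m ≤ TS j m y F := by
  have hb : 0 ≤ ∑ A ∈ F, y A - m * nu := by linarith
  have key : ∀ l : ℕ, l ≤ m → (∑ A ∈ F, y A - m * nu) ^ l ≤ TS j l y F := by
    intro l
    induction l with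
    | zero =>
      intro _
      rw [TS_zero, pow_zero]
    | succ l ih =>
      intro hl
      have h1 := ih (by omega)
      have h2 := TS_succ hF hy hnu l
      have h3 : (l : ℝ) ≤ m := by exact_mod_cast (by omega : l ≤ m)
      have h4 : (l : ℝ) * nu ≤ m * nu := mul_le_mul_of_nonneg_right h3 h0
      have h5 := TS_nonneg (j := j) hF hy l
      calc (∑ A ∈ F, y A - m * nu) ^ (l + 1)
          = (∑ A ∈ F, y A - m * nu) * (∑ A ∈ F, y A - m * nu) ^ l := by ring
        _ ≤ (∑ A ∈ F, y A - m * nu) * TS j l y F := mul_le_mul_of_nonneg_left h1 hb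
        _ ≤ (∑ A ∈ F, y A - l * nu) * TS j l y F :=
          mul_le_mul_of_nonneg_right (by linarith) h5
        _ ≤ TS j (l + 1) y F := h2
  exact key m le_rfl

theorem TS_one_le (F : Finset (Finset (Fin n))) (j m : ℕ) :
    TS j m (fun _ => 1) F ≤ (F.card : ℝ) ^ m := by
  unfold TS
  simp only [prod_const_one, sum_const, nsmul_eq_mul, mul_one]
  have h1 := card_filter_le (Fintype.piFinset (fun _ : Fin m => F))
    (fun f => ∀ i l, i ≠ l → j ≤ (f l \ f i).card)
  rw [Fintype.card_piFinset, prod_const, card_univ, Fintype.card_fin] at h1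
  exact_mod_cast h1

end Pool.Agent.H70.KP
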