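import Pool.Agent.H70.KP.PM
import Pool.Agent.H70.KP.TR

/-!
# [H70 KP TE] expectation of the tuple sums

TS with m = n. E1 of the sum is the sum of the E1 (E1_sum). For a far tuple f (all members in F, hence in
KS) tuple_moment gives the factor 1 + 2 * (sum over i < l of e S (f i u f l) / DD); every S is <= rho DD by
hfar (A = f i, B = f l), there are n (n-1)/2 <= n^2/2 pairs, so the factor is <= 1 + n^2 rho e <=
exp (n^2 rho e). The product of the y (f i) is >= 0.
-/

namespace Pool.Agent.H70.KP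

open Finset
open Pool.Agent.H70.KG (KS DD S gf up0 up pr pr0)

variable {n k : ℕ}

private theorem count_lt (m : ℕ) (c : ℝ) (hc : 0 ≤ c) :
    2 * ∑ i : Fin m, ∑ l : Fin m, (if i < l then c else 0) ≤ (m : ℝ) ^ 2 * c := by
  have h1 : ∑ i : Fin m, ∑ l : Fin m, (if i < l then c else 0) =
      ∑ i : Fin m, ∑ l : Fin m, (if l < i then c else 0) := by
    rw [sum_comm]
  have h2 : ∑ i : Fin m, ∑ l : Fin m, (if i < l then c else 0) +
      ∑ i : Fin m, ∑ l : Fin m, (if l < i then c else 0) ≤ ∑ _i : Fin m, ∑ _l : Fin m, c := by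
    rw [← sum_add_distrib]
    refine sum_le_sum fun i _ => ?_
    rw [← sum_add_distrib]
    refine sum_le_sum fun l _ => ?_
    by_cases h3 : i < l
    · rw [if_pos h3, if_neg (not_lt.mpr h3.le), add_zero]
    · rw [if_neg h3, zero_add]
      split_ifs
      · exact le_rfl
      · exact hc
  have h3 : ∑ _i : Fin m, ∑ _l : Fin m, c = (m : ℝ) ^ 2 * c := by
    rw [sum_const, sum_const, card_univ, Fintype.card_fin, nsmul_eq_mul, nsmul_eq_mul]
    ring
  linarith

theorem TS_step {e rho : ℝ} {y : Finset (Fin n) → ℝ} (h : Mild n k e y) {j : ℕ} (hrho : 0 ≤ rho)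
    (hfar : ∀ A ∈ KS n k, ∀ B ∈ KS n k, j ≤ (B \ A).card → S n k y (A ∪ B) ≤ rho * DD n k)
    {F : Finset (Finset (Fin n))} (hF : F ⊆ KS n k) :
    E1 n k e y (fun y' => TS j n y' F) ≤ Real.exp ((n : ℝ) ^ 2 * rho * e) * TS j n y F := by
  have hD := h.D_pos
  have he := h.e_pos
  unfold TS
  rw [E1_sum, mul_sum]
  refine sum_le_sum fun f hf => ?_
  obtain ⟨hf1, hf2⟩ := mem_filter.mp hf
  have hfK : ∀ i, f i ∈ KS n k := fun i => hF (Fintype.mem_piFinset.mp hf1 i)
  have hY : 0 ≤ ∏ i, y (f i) := prod_nonneg fun i _ => h.nonneg _ (hfK i)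
  refine (tuple_moment h le_rfl f hfK).trans ?_
  rw [mul_comm]
  refine mul_le_mul_of_nonneg_right ?_ hY
  have h1 : ∑ i, ∑ l, (if i < l then e * S n k y (f i ∪ f l) / DD n k else 0) ≤
      ∑ i : Fin n, ∑ l : Fin n, (if i < l then e * rho else 0) := by
    refine sum_le_sum fun i _ => sum_le_sum fun l _ => ?_
    by_cases hil : i < l
    · rw [if_pos hil, if_pos hil, div_le_iff₀ hD]
      have h2 := hfar (f i) (hfK i) (f l) (hfK l) (hf2 i l hil.ne)
      have h3 := mul_le_mul_of_nonneg_left h2 he.le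
      linarith
    · rw [if_neg hil, if_neg hil]
  have h2 := count_lt n (e * rho) (by positivity)
  have h3 := Real.add_one_le_exp ((n : ℝ) ^ 2 * rho * e)
  have h4 : (n : ℝ) ^ 2 * (e * rho) = (n : ℝ) ^ 2 * rho * e := by ring
  linarith

end Pool.Agent.H70.KP
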