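import Pool.Agent.H70.KP.EO
import Pool.Agent.H70.KG.SC
import Pool.Agent.H70.KG.SB

/-!
# [H70 KP MA] one weight is a martingale

x A = e S A / D lies in [0, 2 e], 2 e <= 1/8, for A in KS. gf A = 1 / (1 - x A), so 1 <= gf A <= 2.
mart: up y B A = 0 if A is disjoint from B and y A gf A otherwise, so the expectation is
y A gf A (1 - sum of pr B over the B disjoint from A) = y A gf A (1 - x A) = y A (sum_pr, pr_dis).
up_nonneg, up_le: clear.
-/

namespace Pool.Agent.H70.KP

open Finset
open Pool.Agent.H70.KG (KS DD S gf up0 up pr pr0)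

variable {n k : ℕ} {e : ℝ} {y : Finset (Fin n) → ℝ}

theorem x_nonneg (h : Mild n k e y) (A : Finset (Fin n)) : 0 ≤ e * S n k y A / DD n k :=
  div_nonneg (mul_nonneg h.e_pos.le (sum_nonneg fun B hB => h.nonneg B (mem_filter.mp hB).1))
    h.D_pos.le

theorem x_le (h : Mild n k e y) {A : Finset (Fin n)} (hA : A ∈ KS n k) :
    e * S n k y A / DD n k ≤ 2 * e := by
  rw [div_le_iff₀ h.D_pos]
  have h1 := mul_le_mul_of_nonneg_left (h.S_le A hA) h.e_pos.le
  linarith

theorem one_le_gf (h : Mild n k e y) {A : Finset (Fin n)} (hA : A ∈ KS n k) :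
    1 ≤ gf n k e y A := by
  have h0 := x_nonneg h A
  have h1 := x_le h hA
  have h2 := h.e_le8
  unfold Pool.Agent.H70.KG.gf
  rw [le_div_iff₀ (by linarith)]
  linarith

theorem gf_le_two (h : Mild n k e y) {A : Finset (Fin n)} (hA : A ∈ KS n k) :
    gf n k e y A ≤ 2 := by
  have h0 := x_nonneg h A
  have h1 := x_le h hA
  have h2 := h.e_le8
  unfold Pool.Agent.H70.KG.gf
  rw [div_le_iff₀ (by linarith)]
  linarith

theorem gf_mul (h : Mild n k e y) {A : Finset (Fin n)} (hA : A ∈ KS n k) :
    gf n k e y A * (1 - e * S n k y A / DD n k) = 1 := by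
  have h1 := x_le h hA
  have h2 := h.e_le8
  unfold Pool.Agent.H70.KG.gf
  exact one_div_mul_cancel (by linarith)

theorem mart (h : Mild n k e y) {A : Finset (Fin n)} (hA : A ∈ KS n k) :
    E1 n k e y (fun y' => y' A) = y A := by
  unfold E1
  have h1 : ∑ B ∈ KS n k, pr n k e y B * up n k e y B A =
      (∑ B ∈ KS n k, pr n k e y B - e * S n k y A / DD n k) * (y A * gf n k e y A) := by
    rw [← pr_dis, ← sum_filter_add_sum_filter_not (KS n k) (fun B => Disjoint B A)
      (fun B => pr n k e y B * up n k e y B A),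
      ← sum_filter_add_sum_filter_not (KS n k) (fun B => Disjoint B A) (fun B => pr n k e y B)]
    have h2 : ∑ B ∈ (KS n k).filter (fun B => Disjoint B A), pr n k e y B * up n k e y B A = 0 := by
      refine sum_eq_zero fun B hB => ?_
      unfold Pool.Agent.H70.KG.up
      rw [if_pos (mem_filter.mp hB).2.symm, mul_zero]
    have h3 : ∑ B ∈ (KS n k).filter (fun B => ¬ Disjoint B A), pr n k e y B * up n k e y B A =
        (∑ B ∈ (KS n k).filter (fun B => ¬ Disjoint B A), pr n k e y B) *
          (y A * gf n k e y A) := by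
      rw [sum_mul]
      refine sum_congr rfl fun B hB => ?_
      unfold Pool.Agent.H70.KG.up
      rw [if_neg (fun hd => (mem_filter.mp hB).2 hd.symm)]
    rw [h2, h3]
    ring
  rw [h1]
  have h4 := sum_pr n k e y
  have h5 := gf_mul h hA
  have h6 : pr0 n k e y * up0 n k e y A = pr0 n k e y * (y A * gf n k e y A) := rfl
  rw [h6]
  calc (∑ B ∈ KS n k, pr n k e y B - e * S n k y A / DD n k) * (y A * gf n k e y A) +
        pr0 n k e y * (y A * gf n k e y A)
      = ((∑ B ∈ KS n k, pr n k e y B + pr0 n k e y) - e * S n k y A / DD n k) *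
          (y A * gf n k e y A) := by ring
    _ = y A * (gf n k e y A * (1 - e * S n k y A / DD n k)) := by rw [h4]; ring
    _ = y A := by rw [h5, mul_one]

theorem up_nonneg (h : Mild n k e y) {A : Finset (Fin n)} (hA : A ∈ KS n k) (B : Finset (Fin n)) :
    0 ≤ up n k e y B A := by
  unfold Pool.Agent.H70.KG.up
  split_ifs
  · exact le_rfl
  · exact mul_nonneg (h.nonneg A hA) (zero_le_one.trans (one_le_gf h hA))

theorem up0_nonneg (h : Mild n k e y) {A : Finset (Fin n)} (hA : A ∈ KS n k) :
    0 ≤ up0 n k e y A :=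
  mul_nonneg (h.nonneg A hA) (zero_le_one.trans (one_le_gf h hA))

theorem up_le (h : Mild n k e y) {A : Finset (Fin n)} (hA : A ∈ KS n k) (B : Finset (Fin n)) :
    up n k e y B A ≤ 2 * y A := by
  have h1 := h.nonneg A hA
  have h2 := mul_le_mul_of_nonneg_left (gf_le_two h hA) h1
  unfold Pool.Agent.H70.KG.up
  split_ifs
  · linarith
  · linarith

theorem up_le_up0 (h : Mild n k e y) {A : Finset (Fin n)} (hA : A ∈ KS n k)
    (B : Finset (Fin n)) : up n k e y B A ≤ up0 n k e y A := by
  unfold Pool.Agent.H70.KG.up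
  split_ifs
  · exact up0_nonneg h hA
  · exact le_rfl

end Pool.Agent.H70.KP
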