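import Pool.Agent.H70.KP.EO
import Pool.Agent.H70.KG.UM
import Pool.Agent.H70.KG.LM

/-!
# [H70 KP TV] the exponential terms, one step

term_V: apply KG.upper_moment with U = V, L = 2 sV, L' = rho sV, nu = rho, lam = a1 / sV:
4 lam e L = 8 a1 e <= 1 and the exponent is lam^2 e (16 e L^2 + 2 L' L + nu L^2) =
a1^2 e (64 e + 4 rho + 4 rho). Multiply by exp (a1 / sV * (S y V - sV)) (compare H70/KG/TU.lean, the
proof of term_up there is the pattern).
term_T: KG.lower_moment with mu = a / DD, L0 = 2 DD, L1 = rho DD, nu = rho: mu L1 = a rho <= 1 and the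
exponent is e (4 mu e nu L0 + mu^2 (16 e L0^2 + 2 L1 L0)) = e (8 a e rho + a^2 (64 e + 4 rho)).
-/

namespace Pool.Agent.H70.KP

open Finset
open Pool.Agent.H70.KG (KS DD S gf up0 up pr pr0)

variable {n k j : ℕ} {e : ℝ} {y : Finset (Fin n) → ℝ}

theorem term_V (h : Mild n k e y) (V : Finset (Fin n)) {sV a1 rho : ℝ} (hsV : 0 < sV)
    (hS : S n k y V ≤ 2 * sV) (hrho : 0 ≤ rho)
    (hfar : ∀ B ∈ KS n k, j ≤ (B \ V).card → S n k y (V ∪ B) ≤ rho * sV)
    (hnear : ∑ B ∈ (KS n k).filter (fun B => (B \ V).card < j), y B ≤ rho * DD n k)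
    (ha : 0 ≤ a1) (h8 : 8 * a1 * e ≤ 1) :
    E1 n k e y (fun y' => Real.exp (a1 / sV * (S n k y' V - sV))) ≤
      Real.exp (a1 / sV * (S n k y V - sV) + e * (a1 ^ 2 * (64 * e + 8 * rho))) := by
  have key := Pool.Agent.H70.KG.upper_moment (n := n) (k := k) (j := j) h.D_pos h.nonneg
    h.e_pos.le (by linarith [h.e_le8]) h.S_le h.p0 V (L := 2 * sV) (L' := rho * sV) (nu := rho)
    (lam := a1 / sV) hS (by positivity) hfar hnear (by positivity)
    (by
      have : 4 * (a1 / sV) * e * (2 * sV) = 8 * a1 * e := by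
        field_simp
        ring
      rw [this]
      exact h8)
  have hexp : (a1 / sV) ^ 2 * e * (16 * e * (2 * sV) ^ 2 + 2 * (rho * sV) * (2 * sV) +
        rho * (2 * sV) ^ 2) = e * (a1 ^ 2 * (64 * e + 8 * rho)) := by
    field_simp
    ring
  rw [hexp] at key
  have hsplit : ∀ X : ℝ, Real.exp (a1 / sV * (X - sV)) =
      Real.exp (a1 / sV * (X - S n k y V)) * Real.exp (a1 / sV * (S n k y V - sV)) := by
    intro X
    rw [← Real.exp_add]
    congr 1
    ring
  rw [add_comm (a1 / sV * (S n k y V - sV)), Real.exp_add]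
  refine le_trans (le_of_eq ?_) (mul_le_mul_of_nonneg_right key (Real.exp_pos _).le)
  unfold E1
  rw [add_mul, sum_mul]
  congr 1
  · refine sum_congr rfl fun B _ => ?_
    beta_reduce
    rw [hsplit (S n k (up n k e y B) V)]
    ring
  · beta_reduce
    rw [hsplit (S n k (up0 n k e y) V)]
    ring

theorem term_T (h : Mild n k e y) (T : Finset (Fin n)) {a rho th : ℝ}
    (hS : S n k y T ≤ 2 * DD n k) (hrho : 0 ≤ rho)
    (hfar : ∀ B ∈ KS n k, j ≤ (B \ T).card → S n k y (T ∪ B) ≤ rho * DD n k)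
    (hnear : ∑ B ∈ (KS n k).filter (fun B => (B \ T).card < j), y B ≤ rho * DD n k)
    (ha : 0 ≤ a) (h1 : a * rho ≤ 1) :
    ∑ B ∈ (KS n k).filter (fun B => j ≤ (B \ T).card), pr n k e y B *
        Real.exp (-(a / DD n k) * (S n k (up n k e y B) T - th)) +
      pr0 n k e y * Real.exp (-(a / DD n k) * (S n k (up0 n k e y) T - th)) ≤
    Real.exp (-(a / DD n k) * (S n k y T - th) +
      e * (8 * a * e * rho + a ^ 2 * (64 * e + 4 * rho))) := by
  have hD := h.D_pos
  have key := Pool.Agent.H70.KG.lower_moment (n := n) (k := k) (j := j) h.D_pos h.nonneg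
    h.e_pos.le (by linarith [h.e_le8]) h.S_le h.p0 T (L0 := 2 * DD n k) (L1 := rho * DD n k)
    (nu := rho) (mu := a / DD n k) hS (by positivity) hfar hnear (by positivity)
    (by
      have : a / DD n k * (rho * DD n k) = a * rho := by field_simp
      rw [this]
      exact h1)
  have hexp : e * (4 * (a / DD n k) * e * rho * (2 * DD n k) +
      (a / DD n k) ^ 2 * (16 * e * (2 * DD n k) ^ 2 + 2 * (rho * DD n k) * (2 * DD n k))) =
      e * (8 * a * e * rho + a ^ 2 * (64 * e + 4 * rho)) := by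
    field_simp
    ring
  rw [hexp] at key
  have hsplit : ∀ X : ℝ, Real.exp (-(a / DD n k) * (X - th)) =
      Real.exp (-(a / DD n k) * (X - S n k y T)) *
        Real.exp (-(a / DD n k) * (S n k y T - th)) := by
    intro X
    rw [← Real.exp_add]
    congr 1
    ring
  rw [add_comm (-(a / DD n k) * (S n k y T - th)), Real.exp_add]
  refine le_trans (le_of_eq ?_) (mul_le_mul_of_nonneg_right key (Real.exp_pos _).le)
  rw [add_mul, sum_mul]
  congr 1
  · refine sum_congr rfl fun B _ => ?_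
    rw [hsplit (S n k (up n k e y B) T)]
    ring
  · rw [hsplit (S n k (up0 n k e y) T)]
    ring

end Pool.Agent.H70.KP
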