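import Pool.Agent.H70.KP.CB
import Pool.Agent.H70.KG.NC

/-!
# [H70 KP NV] few k-sets are near V

B is determined by (B \ V, V \ B): B = (V \ (V \ B)) u (B \ V). For B in nea n k j V:
(B \ V).card < j and (V \ B).card = V.card - (V inter B).card = V.card - k + (B \ V).card < 3 j.
KG.small_card: at most n^j resp. n^(3 j) possibilities (j + 3 j = 4 j, pow_add).
-/

namespace Pool.Agent.H70.KP

open Finset
open Pool.Agent.H70.KG (KS DD S gf up0 up pr pr0)

theorem nea_card {n k : ℕ} (hn : 2 ≤ n) {j : ℕ} {V : Finset (Fin n)} (h1 : k ≤ V.card)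
    (h2 : V.card < k + 2 * j) : (nea n k j V).card ≤ n ^ (4 * j) := by
  set F := (univ : Finset (Finset (Fin n))).filter (fun X => X.card < j) with hF
  set G := (univ : Finset (Finset (Fin n))).filter (fun X => X.card < 3 * j) with hG
  have h3 : (nea n k j V).card ≤ (F ×ˢ G).card := by
    refine card_le_card_of_injOn (fun B => (B \ V, V \ B)) ?_ ?_
    · intro B hB
      obtain ⟨hB1, hB2⟩ := mem_filter.1 (mem_coe.1 hB)
      have hBk : B.card = k := mem_KS.mp hB1
      have h4 := card_sdiff_add_card_inter B V
      have h5 := card_sdiff_add_card_inter V B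
      rw [inter_comm] at h5
      refine mem_coe.2 (mem_product.2 ⟨?_, ?_⟩)
      · exact mem_filter.2 ⟨mem_univ _, hB2⟩
      · refine mem_filter.2 ⟨mem_univ _, ?_⟩
        show (V \ B).card < 3 * j
        omega
    · intro T _ T' _ h
      have h4 : T \ V = T' \ V := congrArg Prod.fst h
      have h5 : V \ T = V \ T' := congrArg Prod.snd h
      ext x
      have h6 := Finset.ext_iff.1 h4 x
      have h7 := Finset.ext_iff.1 h5 x
      simp only [mem_sdiff] at h6 h7
      tauto
  refine h3.trans ?_
  rw [card_product]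
  calc F.card * G.card ≤ n ^ j * n ^ (3 * j) :=
        Nat.mul_le_mul (Pool.Agent.H70.KG.small_card hn j)
          (Pool.Agent.H70.KG.small_card hn (3 * j))
    _ = n ^ (4 * j) := by rw [← pow_add]; congr 1; ring

end Pool.Agent.H70.KP
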