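import Mathlib

/-!
# [H70 KP EN] binomial coefficients and the binary entropy

Real.binEntropy p = p log (1/p) + (1-p) log (1/(1-p)). Let p = k / n, 0 < p < 1, q = 1 - p = (n-k)/n.
log (p^k q^(n-k)) = - n * binEntropy p.
log_choose_le: the binomial theorem (add_pow) gives 1 = (p + q)^n >= C(n,k) p^k q^(n-k).
le_log_choose: the largest of the n + 1 terms t_i = C(n,i) p^i q^(n-i) is t_k: t_(i+1)/t_i =
(n-i) p / ((i+1) q) = ((n-i) k) / ((i+1)(n-k)), which is >= 1 iff (n-i) k >= (i+1)(n-k) iff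
i n <= n k + k - n, true if i <= k - 1 ... precisely (n - i) k - (i+1)(n-k) = n k + k - n - i n =
n (k - 1 - i) + k, which is > 0 for i <= k - 1 and < 0 for i >= k (k < n). So 1 = sum <= (n+1) t_k.
-/

namespace Pool.Agent.H70.KP

private theorem ent_eq {n k : ℕ} (hk : 1 ≤ k) (hkn : k < n) :
    n * Real.binEntropy ((k : ℝ) / n) =
      -Real.log (((k : ℝ) / n) ^ k * (1 - (k : ℝ) / n) ^ (n - k)) := by
  have hn : (0 : ℝ) < n := by exact_mod_cast (by omega : 0 < n)
  have hk0 : (0 : ℝ) < k := by exact_mod_cast (by omega : 0 < k)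
  have hkn' : (k : ℝ) < n := by exact_mod_cast hkn
  have hp : 0 < (k : ℝ) / n := by positivity
  have hq : 0 < 1 - (k : ℝ) / n := by
    have : (k : ℝ) / n < 1 := (div_lt_one hn).mpr hkn'
    linarith
  rw [Real.log_mul (by positivity) (by positivity), Real.log_pow, Real.log_pow,
    Nat.cast_sub hkn.le]
  unfold Real.binEntropy
  rw [Real.log_inv, Real.log_inv]
  have h1 : (n : ℝ) * ((k : ℝ) / n) = k := by field_simp
  have h2 : (n : ℝ) * (1 - (k : ℝ) / n) = n - k := by field_simp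
  calc (n : ℝ) * ((k : ℝ) / n * -Real.log ((k : ℝ) / n) +
        (1 - (k : ℝ) / n) * -Real.log (1 - (k : ℝ) / n))
      = -((n : ℝ) * ((k : ℝ) / n) * Real.log ((k : ℝ) / n) +
        (n : ℝ) * (1 - (k : ℝ) / n) * Real.log (1 - (k : ℝ) / n)) := by ring
    _ = _ := by rw [h1, h2]

private theorem sum_one {n k : ℕ} :
    ∑ i ∈ Finset.range (n + 1), ((n.choose i : ℝ) * ((k : ℝ) / n) ^ i *
      (1 - (k : ℝ) / n) ^ (n - i)) = 1 := by
  have h := add_pow ((k : ℝ) / n) (1 - (k : ℝ) / n) n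
  rw [add_sub_cancel, one_pow] at h
  refine Eq.trans ?_ h.symm
  exact Finset.sum_congr rfl fun i _ => by ring

theorem log_choose_le {n k : ℕ} (hk : 1 ≤ k) (hkn : k < n) :
    Real.log (n.choose k : ℝ) ≤ n * Real.binEntropy ((k : ℝ) / n) := by
  have hn : (0 : ℝ) < n := by exact_mod_cast (by omega : 0 < n)
  have hk0 : (0 : ℝ) < k := by exact_mod_cast (by omega : 0 < k)
  have hkn' : (k : ℝ) < n := by exact_mod_cast hkn
  have hp : 0 < (k : ℝ) / n := by positivity
  have hq : 0 < 1 - (k : ℝ) / n := by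
    have : (k : ℝ) / n < 1 := (div_lt_one hn).mpr hkn'
    linarith
  have hC : (0 : ℝ) < n.choose k := by exact_mod_cast Nat.choose_pos hkn.le
  rw [ent_eq hk hkn]
  have h1 : (n.choose k : ℝ) * ((k : ℝ) / n) ^ k * (1 - (k : ℝ) / n) ^ (n - k) ≤ 1 := by
    have h5 := Finset.single_le_sum (s := Finset.range (n + 1))
      (f := fun i => (n.choose i : ℝ) * ((k : ℝ) / n) ^ i *
      (1 - (k : ℝ) / n) ^ (n - i)) (fun i _ => by positivity)
      (Finset.mem_range.mpr (by omega : k < n + 1))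
    exact h5.trans_eq sum_one
  have h2 : 0 < ((k : ℝ) / n) ^ k * (1 - (k : ℝ) / n) ^ (n - k) := by positivity
  have h3 : Real.log ((n.choose k : ℝ) * (((k : ℝ) / n) ^ k * (1 - (k : ℝ) / n) ^ (n - k))) ≤
      0 := by
    refine Real.log_nonpos (by positivity) ?_
    rw [← mul_assoc]
    exact h1
  rw [Real.log_mul hC.ne' h2.ne'] at h3
  linarith

theorem le_log_choose {n k : ℕ} (hk : 1 ≤ k) (hkn : k < n) :
    n * Real.binEntropy ((k : ℝ) / n) - Real.log (n + 1) ≤ Real.log (n.choose k : ℝ) := by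
  have hn : (0 : ℝ) < n := by exact_mod_cast (by omega : 0 < n)
  have hk0 : (0 : ℝ) < k := by exact_mod_cast (by omega : 0 < k)
  have hkn' : (k : ℝ) < n := by exact_mod_cast hkn
  have hp : 0 < (k : ℝ) / n := by positivity
  have hq : 0 < 1 - (k : ℝ) / n := by
    have : (k : ℝ) / n < 1 := (div_lt_one hn).mpr hkn'
    linarith
  have hC : (0 : ℝ) < n.choose k := by exact_mod_cast Nat.choose_pos hkn.le
  set t : ℕ → ℝ := fun i => (n.choose i : ℝ) * ((k : ℝ) / n) ^ i *
    (1 - (k : ℝ) / n) ^ (n - i) with ht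
  have ht0 : ∀ i, 0 ≤ t i := fun i => by
    rw [ht]
    positivity
  have hstep : ∀ i, i < n → t (i + 1) * ((i + 1) * ((n : ℝ) - k)) = t i * (((n : ℝ) - i) * k) := by
    intro i hi
    obtain ⟨m, hm⟩ : ∃ m, n - i = m + 1 := ⟨n - i - 1, by omega⟩
    have hm2 : n - (i + 1) = m := by omega
    have h1 := Nat.choose_succ_right_eq n i
    have h2 : (n.choose (i + 1) : ℝ) * (i + 1) = (n.choose i : ℝ) * ((n : ℝ) - i) := by
      have h3 : ((n.choose (i + 1) * (i + 1) : ℕ) : ℝ) = ((n.choose i * (n - i) : ℕ) : ℝ) := by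
        rw [h1]
      rw [Nat.cast_mul, Nat.cast_mul, Nat.cast_sub hi.le] at h3
      push_cast at h3
      exact h3
    have h4 : (n : ℝ) - k = n * (1 - (k : ℝ) / n) := by field_simp
    have h5 : (k : ℝ) = n * ((k : ℝ) / n) := by field_simp
    rw [ht]
    beta_reduce
    rw [hm2, hm, h4]
    calc (n.choose (i + 1) : ℝ) * ((k : ℝ) / n) ^ (i + 1) * (1 - (k : ℝ) / n) ^ m *
          ((i + 1) * (n * (1 - (k : ℝ) / n)))
        = ((n.choose (i + 1) : ℝ) * (i + 1)) * ((k : ℝ) / n) ^ i *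
          (1 - (k : ℝ) / n) ^ (m + 1) * (n * ((k : ℝ) / n)) := by ring
      _ = ((n.choose i : ℝ) * ((n : ℝ) - i)) * ((k : ℝ) / n) ^ i *
          (1 - (k : ℝ) / n) ^ (m + 1) * k := by rw [h2, ← h5]
      _ = _ := by ring
  have hup : ∀ i, i + 1 ≤ k → t i ≤ t (i + 1) := by
    intro i hi
    have h1 := hstep i (by omega)
    have hi' : (i : ℝ) + 1 ≤ k := by exact_mod_cast hi
    have h2 : 0 < ((i : ℝ) + 1) * ((n : ℝ) - k) := by
      have : 0 < (n : ℝ) - k := by linarith
      positivity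
    have h3 : ((i : ℝ) + 1) * ((n : ℝ) - k) ≤ ((n : ℝ) - i) * k := by nlinarith
    have h4 := mul_le_mul_of_nonneg_left h3 (ht0 i)
    rw [← h1] at h4
    exact le_of_mul_le_mul_right h4 h2
  have hdown : ∀ i, k ≤ i → i < n → t (i + 1) ≤ t i := by
    intro i hi hin
    have h1 := hstep i hin
    have hi' : (k : ℝ) ≤ i := by exact_mod_cast hi
    have h2 : 0 < ((i : ℝ) + 1) * ((n : ℝ) - k) := by
      have : 0 < (n : ℝ) - k := by linarith
      positivity
    have h3 : ((n : ℝ) - i) * k ≤ ((i : ℝ) + 1) * ((n : ℝ) - k) := by nlinarith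
    have h4 := mul_le_mul_of_nonneg_left h3 (ht0 i)
    rw [← h1] at h4
    exact le_of_mul_le_mul_right h4 h2
  have hle1 : ∀ m, m ≤ k → t (k - m) ≤ t k := by
    intro m
    induction m with
    | zero => intro _; exact le_rfl
    | succ m ih =>
      intro hm
      have h1 := hup (k - (m + 1)) (by omega)
      have h2 : k - (m + 1) + 1 = k - m := by omega
      rw [h2] at h1
      exact h1.trans (ih (by omega))
  have hle2 : ∀ m, k + m ≤ n → t (k + m) ≤ t k := by
    intro m
    induction m with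
    | zero => intro _; exact le_rfl
    | succ m ih =>
      intro hm
      have h1 := hdown (k + m) (by omega) (by omega)
      exact h1.trans (ih (by omega))
  have hall : ∀ i ∈ Finset.range (n + 1), t i ≤ t k := by
    intro i hi
    rw [Finset.mem_range] at hi
    rcases Nat.le_total i k with h | h
    · have h1 := hle1 (k - i) (by omega)
      have h2 : k - (k - i) = i := by omega
      rwa [h2] at h1
    · have h1 := hle2 (i - k) (by omega)
      have h2 : k + (i - k) = i := by omega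
      rwa [h2] at h1
  have hsum : (1 : ℝ) ≤ (n + 1) * t k := by
    have h1 := Finset.sum_le_sum hall
    rw [Finset.sum_const, Finset.card_range, nsmul_eq_mul] at h1
    have h2 : ∑ i ∈ Finset.range (n + 1), t i = 1 := sum_one
    rw [h2] at h1
    exact_mod_cast h1
  rw [ent_eq hk hkn]
  have h2 : 0 < ((k : ℝ) / n) ^ k * (1 - (k : ℝ) / n) ^ (n - k) := by positivity
  have hn1 : (0 : ℝ) < (n : ℝ) + 1 := by positivity
  have h3 : 0 ≤ Real.log (((n : ℝ) + 1) * ((n.choose k : ℝ) *
      (((k : ℝ) / n) ^ k * (1 - (k : ℝ) / n) ^ (n - k)))) := by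
    refine Real.log_nonneg ?_
    rw [← mul_assoc (n.choose k : ℝ)]
    exact hsum
  rw [Real.log_mul hn1.ne' (by positivity), Real.log_mul hC.ne' h2.ne'] at h3
  linarith

end Pool.Agent.H70.KP
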