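import Pool.Agent.H70.KP.Defs

/-!
# [H70 KP CB] elementary combinatorics of k-sets, the numbers s_u and r_d

* sd_symm: both equal k - (A inter B).card.
* union_card: A u B is the disjoint union of A and B \ A.
* tri: A \ B is contained in (A \ T) u (T \ B).
* eq_of_sd: B is contained in A and both have k elements.
* sz_pos: k <= n - u; sz_anti: Nat.choose_le_choose; rr_le_one: sz_anti.
-/

namespace Pool.Agent.H70.KP

open Finset
open Pool.Agent.H70.KG (KS DD S gf up0 up pr pr0)

variable {n k : ℕ}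

theorem mem_KS {A : Finset (Fin n)} : A ∈ KS n k ↔ A.card = k := by
  unfold Pool.Agent.H70.KG.KS
  rw [mem_powersetCard]
  exact ⟨fun h => h.2, fun h => ⟨subset_univ _, h⟩⟩

theorem card_KS : (KS n k).card = n.choose k := by
  unfold Pool.Agent.H70.KG.KS
  rw [card_powersetCard, card_univ, Fintype.card_fin]

theorem sd_symm {A B : Finset (Fin n)} (hA : A ∈ KS n k) (hB : B ∈ KS n k) :
    (A \ B).card = (B \ A).card := by
  have h1 := card_sdiff_add_card_inter A B
  have h2 := card_sdiff_add_card_inter B A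
  rw [inter_comm B A] at h2
  rw [mem_KS] at hA hB
  omega

theorem union_card (A B : Finset (Fin n)) : (A ∪ B).card = A.card + (B \ A).card := by
  rw [← union_sdiff_self_eq_union, card_union_of_disjoint disjoint_sdiff]

theorem tri (A B T : Finset (Fin n)) : (A \ B).card ≤ (A \ T).card + (T \ B).card := by
  refine (card_le_card ?_).trans (card_union_le _ _)
  intro x hx
  rw [mem_sdiff] at hx
  rw [mem_union, mem_sdiff, mem_sdiff]
  by_cases h : x ∈ T
  · exact Or.inr ⟨h, hx.2⟩
  · exact Or.inl ⟨hx.1, h⟩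

theorem eq_of_sd {A B : Finset (Fin n)} (hA : A ∈ KS n k) (hB : B ∈ KS n k)
    (h : (B \ A).card = 0) : A = B := by
  rw [card_eq_zero, sdiff_eq_empty_iff_subset] at h
  rw [mem_KS] at hA hB
  exact (eq_of_subset_of_card_le h (by omega)).symm

theorem sz_nonneg (n k u : ℕ) : 0 ≤ sz n k u := Nat.cast_nonneg _

theorem sz_pos {u : ℕ} (h : u + k ≤ n) : 0 < sz n k u := by
  unfold sz
  exact_mod_cast Nat.choose_pos (by omega)

theorem sz_anti {u v : ℕ} (h : u ≤ v) : sz n k v ≤ sz n k u := by
  unfold sz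
  exact_mod_cast Nat.choose_le_choose k (by omega)

theorem sz_k (n k : ℕ) : sz n k k = DD n k := rfl

theorem rr_nonneg (n k d : ℕ) : 0 ≤ rr n k d :=
  div_nonneg (sz_nonneg _ _ _) (Nat.cast_nonneg _)

theorem rr_zero (h : 0 < DD n k) : rr n k 0 = 1 := by
  unfold rr
  rw [add_zero, sz_k]
  exact div_self h.ne'

theorem rr_le_one (n k d : ℕ) : rr n k d ≤ 1 := by
  unfold rr
  refine div_le_one_of_le₀ ?_ (Nat.cast_nonneg _)
  rw [← sz_k]
  exact sz_anti (Nat.le_add_right _ _)

theorem rr_mul (h : 0 < DD n k) (d : ℕ) : rr n k d * DD n k = sz n k (k + d) := by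
  unfold rr
  exact div_mul_cancel₀ _ h.ne'

end Pool.Agent.H70.KP
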