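import Mathlib

/-!
# [H70 KP BF] Bonferroni inequality and a product inequality

* bonf: let r be the number of i with p i. The left side is r - r (r-1) / 2, which is <= 0 for r = 0
  (equality) and <= 1 for r >= 1 ((r-1)(r-2) >= 0). Alternatively by induction on m
  (Fin.sum_univ_castSucc): adding one index with p true changes the left side by 1 - (number of
  earlier true ones).
* one_sub_sum_le: induction on m, (1 - x)(1 - s) >= 1 - x - s for x, s >= 0 (x <= 1).
-/

namespace Pool.Agent.H70.KP

open Finset

private theorem ex_succ {m : ℕ} (p : Fin (m + 1) → Prop) :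
    (∃ i, p i) ↔ (∃ i : Fin m, p i.castSucc) ∨ p (Fin.last m) := by
  constructor
  · rintro ⟨i, hi⟩
    induction i using Fin.lastCases with
    | last => exact Or.inr hi
    | cast i => exact Or.inl ⟨i, hi⟩
  · rintro (⟨i, hi⟩ | h)
    · exact ⟨_, hi⟩
    · exact ⟨_, h⟩

theorem bonf {m : ℕ} (p : Fin m → Prop) [DecidablePred p] :
    (∑ i, (if p i then (1 : ℝ) else 0)) -
      ∑ i, ∑ l, (if i < l then (if p i ∧ p l then (1 : ℝ) else 0) else 0) ≤
    if ∃ i, p i then 1 else 0 := by
  induction m with
  | zero => simp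
  | succ m ih =>
    have h1 := ih (fun i => p i.castSucc)
    have e1 : ∑ i : Fin (m + 1), (if p i then (1 : ℝ) else 0) =
        ∑ i : Fin m, (if p i.castSucc then (1 : ℝ) else 0) +
          (if p (Fin.last m) then 1 else 0) := by
      rw [Fin.sum_univ_castSucc]
    have e2 : ∑ i : Fin (m + 1), ∑ l : Fin (m + 1),
        (if i < l then (if p i ∧ p l then (1 : ℝ) else 0) else 0) =
        ∑ i : Fin m, ∑ l : Fin m,
          (if i < l then (if p i.castSucc ∧ p l.castSucc then (1 : ℝ) else 0) else 0) +
        ∑ i : Fin m, (if p i.castSucc ∧ p (Fin.last m) then (1 : ℝ) else 0) := by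
      rw [Fin.sum_univ_castSucc]
      have e3 : ∑ l : Fin (m + 1), (if Fin.last m < l then
          (if p (Fin.last m) ∧ p l then (1 : ℝ) else 0) else 0) = 0 := by
        refine sum_eq_zero fun l _ => ?_
        rw [if_neg (not_lt.mpr (Fin.le_last l))]
      rw [e3, add_zero, ← sum_add_distrib]
      refine sum_congr rfl fun i _ => ?_
      rw [Fin.sum_univ_castSucc, if_pos (Fin.castSucc_lt_last i)]
      congr 1
    rw [e1, e2]
    by_cases hl : p (Fin.last m)
    · have h2 : ∑ i : Fin m, (if p i.castSucc ∧ p (Fin.last m) then (1 : ℝ) else 0) =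
          ∑ i : Fin m, (if p i.castSucc then (1 : ℝ) else 0) := by
        refine sum_congr rfl fun i _ => ?_
        simp only [hl, and_true]
      have h3 : (if ∃ i, p i then (1 : ℝ) else 0) = 1 := if_pos ⟨_, hl⟩
      rw [h2, h3, if_pos hl]
      by_cases hex : ∃ i : Fin m, p i.castSucc
      · have h4 : (0 : ℝ) ≤ ∑ i : Fin m, ∑ l : Fin m,
            (if i < l then (if p i.castSucc ∧ p l.castSucc then (1 : ℝ) else 0) else 0) := by
          refine sum_nonneg fun i _ => sum_nonneg fun l _ => ?_
          split_ifs <;> norm_num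
        linarith
      · have h4 : (0 : ℝ) ≤ ∑ i : Fin m, ∑ l : Fin m,
            (if i < l then (if p i.castSucc ∧ p l.castSucc then (1 : ℝ) else 0) else 0) := by
          refine sum_nonneg fun i _ => sum_nonneg fun l _ => ?_
          split_ifs <;> norm_num
        linarith
    · have h2 : ∑ i : Fin m, (if p i.castSucc ∧ p (Fin.last m) then (1 : ℝ) else 0) = 0 := by
        refine sum_eq_zero fun i _ => if_neg fun h => hl h.2
      have h3 : (if ∃ i, p i then (1 : ℝ) else 0) =
          if ∃ i : Fin m, p i.castSucc then 1 else 0 := by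
        by_cases hex : ∃ i : Fin m, p i.castSucc
        · rw [if_pos hex, if_pos ((ex_succ p).mpr (Or.inl hex))]
        · rw [if_neg hex, if_neg]
          intro h
          rcases (ex_succ p).mp h with h | h
          · exact hex h
          · exact hl h
      rw [h2, h3, if_neg hl, add_zero, add_zero]
      exact h1

theorem one_sub_sum_le {m : ℕ} (x : Fin m → ℝ) (h0 : ∀ i, 0 ≤ x i) (h1 : ∀ i, x i ≤ 1) :
    1 - ∑ i, x i ≤ ∏ i, (1 - x i) := by
  induction m with
  | zero => simp
  | succ m ih =>
    rw [Fin.sum_univ_castSucc, Fin.prod_univ_castSucc]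
    have h2 := ih (fun i => x i.castSucc) (fun i => h0 _) (fun i => h1 _)
    have h3 : 0 ≤ ∑ i : Fin m, x i.castSucc := sum_nonneg fun i _ => h0 _
    have h4 := h0 (Fin.last m)
    have h5 : 0 ≤ 1 - x (Fin.last m) := by linarith [h1 (Fin.last m)]
    have h6 := mul_le_mul_of_nonneg_right h2 h5
    nlinarith [mul_nonneg h3 h4]

end Pool.Agent.H70.KP
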