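import Pool.Agent.H70.KP.CB

/-!
# [H70 KP EO] the expectation operators

* pr_nonneg, sum_pr: definitions (pr = e y B / D, pr0 = 1 - sum).
* E1 is linear and monotone (all probabilities are >= 0, pr0 >= 0 by Mild.p0), E1 of a constant is the
  constant. Same for Ex.
* pr_dis: sum over B disjoint from A of e y B / D = e S A / D (S A sums over Disjoint B A).
* up_of_mem: if B is in C and A in KS is disjoint from B, then y A = 0 (dead), so both sides are 0;
  otherwise up and up0 agree by definition.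
* Ex_y: for B in C, F (up B) = F (up0) by up_of_mem and locality, so the sum over B in C joins the term
  of up0: Ex = sum over B in KS, B not in C + sum over B in KS, B in C + pr0.
-/

namespace Pool.Agent.H70.KP

open Finset
open Pool.Agent.H70.KG (KS DD S gf up0 up pr pr0)

variable {n k : ℕ} {e t : ℝ} {y : Finset (Fin n) → ℝ}

theorem pr_nonneg (h : Mild n k e y) {B : Finset (Fin n)} (hB : B ∈ KS n k) :
    0 ≤ pr n k e y B :=
  div_nonneg (mul_nonneg h.e_pos.le (h.nonneg B hB)) h.D_pos.le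

theorem sum_pr (n k : ℕ) (e : ℝ) (y : Finset (Fin n) → ℝ) :
    ∑ B ∈ KS n k, pr n k e y B + pr0 n k e y = 1 := by
  unfold Pool.Agent.H70.KG.pr0
  ring

theorem pr_dis (n k : ℕ) (e : ℝ) (y : Finset (Fin n) → ℝ) (A : Finset (Fin n)) :
    ∑ B ∈ (KS n k).filter (fun B => Disjoint B A), pr n k e y B = e * S n k y A / DD n k := by
  unfold Pool.Agent.H70.KG.S Pool.Agent.H70.KG.pr
  rw [mul_sum, sum_div]

theorem E1_mono (h : Mild n k e y) {F G : (Finset (Fin n) → ℝ) → ℝ}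
    (hB : ∀ B ∈ KS n k, F (up n k e y B) ≤ G (up n k e y B))
    (h0 : F (up0 n k e y) ≤ G (up0 n k e y)) : E1 n k e y F ≤ E1 n k e y G := by
  unfold E1
  refine add_le_add (sum_le_sum fun B hBK => ?_) ?_
  · exact mul_le_mul_of_nonneg_left (hB B hBK) (pr_nonneg h hBK)
  · exact mul_le_mul_of_nonneg_left h0 h.p0

theorem E1_const (n k : ℕ) (e : ℝ) (y : Finset (Fin n) → ℝ) (c : ℝ) :
    E1 n k e y (fun _ => c) = c := by
  unfold E1
  rw [← sum_mul, ← add_mul, sum_pr, one_mul]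

theorem E1_add (F G : (Finset (Fin n) → ℝ) → ℝ) :
    E1 n k e y (fun y' => F y' + G y') = E1 n k e y F + E1 n k e y G := by
  unfold E1
  simp only [mul_add, sum_add_distrib]
  ring

theorem E1_mul (c : ℝ) (F : (Finset (Fin n) → ℝ) → ℝ) :
    E1 n k e y (fun y' => c * F y') = c * E1 n k e y F := by
  unfold E1
  rw [mul_add, mul_sum]
  congr 1
  · exact sum_congr rfl fun B _ => by ring
  · ring

theorem E1_sum {ι : Type} (s : Finset ι) (F : ι → (Finset (Fin n) → ℝ) → ℝ) :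
    E1 n k e y (fun y' => ∑ i ∈ s, F i y') = ∑ i ∈ s, E1 n k e y (F i) := by
  unfold E1
  rw [sum_add_distrib]
  congr 1
  · rw [sum_comm]
    exact sum_congr rfl fun B _ => by rw [mul_sum]
  · rw [mul_sum]

theorem Ex_mono {σ : Sta n} (h : Mild n k e σ.y) {F G : Sta n → ℝ}
    (hB : ∀ B ∈ KS n k, B ∉ σ.C → F (σ.pick k e t B) ≤ G (σ.pick k e t B))
    (h0 : F (σ.stay k e) ≤ G (σ.stay k e)) : Ex k e t σ F ≤ Ex k e t σ G := by
  unfold Ex
  refine add_le_add (sum_le_sum fun B hBK => ?_) ?_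
  · obtain ⟨h1, h2⟩ := mem_filter.mp hBK
    exact mul_le_mul_of_nonneg_left (hB B h1 h2) (pr_nonneg h h1)
  · exact mul_le_mul_of_nonneg_left h0 (add_nonneg h.p0
      (sum_nonneg fun B hBK => pr_nonneg h (mem_filter.mp hBK).1))

theorem Ex_add {σ : Sta n} (F G : Sta n → ℝ) :
    Ex k e t σ (fun σ' => F σ' + G σ') = Ex k e t σ F + Ex k e t σ G := by
  unfold Ex
  simp only [mul_add, sum_add_distrib]
  ring

theorem Ex_mul {σ : Sta n} (c : ℝ) (F : Sta n → ℝ) :
    Ex k e t σ (fun σ' => c * F σ') = c * Ex k e t σ F := by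
  unfold Ex
  rw [mul_add, mul_sum]
  congr 1
  · exact sum_congr rfl fun B _ => by ring
  · ring

theorem Ex_sum {σ : Sta n} {ι : Type} (s : Finset ι) (F : ι → Sta n → ℝ) :
    Ex k e t σ (fun σ' => ∑ i ∈ s, F i σ') = ∑ i ∈ s, Ex k e t σ (F i) := by
  unfold Ex
  rw [sum_add_distrib]
  congr 1
  · rw [sum_comm]
    exact sum_congr rfl fun B _ => by rw [mul_sum]
  · rw [mul_sum]

theorem Ex_const (σ : Sta n) (c : ℝ) : Ex k e t σ (fun _ => c) = c := by
  unfold Ex
  rw [← sum_mul, ← add_mul]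
  have h1 := sum_pr n k e σ.y
  have h2 := sum_filter_add_sum_filter_not (KS n k) (fun B => B ∈ σ.C) (fun B => pr n k e σ.y B)
  have h3 : ∑ B ∈ (KS n k).filter (fun B => B ∉ σ.C), pr n k e σ.y B +
      (pr0 n k e σ.y + ∑ B ∈ (KS n k).filter (fun B => B ∈ σ.C), pr n k e σ.y B) = 1 := by
    linarith
  rw [h3, one_mul]

theorem up_of_mem {σ : Sta n} (hd : ∀ A ∈ KS n k, (∃ B ∈ σ.C, Disjoint A B) → σ.y A = 0)
    {B : Finset (Fin n)} (hB : B ∈ σ.C) {A : Finset (Fin n)} (hA : A ∈ KS n k) :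
    up n k e σ.y B A = up0 n k e σ.y A := by
  unfold Pool.Agent.H70.KG.up Pool.Agent.H70.KG.up0
  by_cases h : Disjoint A B
  · rw [if_pos h, hd A hA ⟨B, hB, h⟩, zero_mul]
  · rw [if_neg h]

theorem Ex_y {σ : Sta n} (hd : ∀ A ∈ KS n k, (∃ B ∈ σ.C, Disjoint A B) → σ.y A = 0)
    {F : (Finset (Fin n) → ℝ) → ℝ}
    (hF : ∀ y y' : Finset (Fin n) → ℝ, (∀ A ∈ KS n k, y A = y' A) → F y = F y') :
    Ex k e t σ (fun σ' => F σ'.y) = E1 n k e σ.y F := by
  unfold Ex E1
  rw [← sum_filter_add_sum_filter_not (KS n k) (fun B => B ∈ σ.C)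
    (fun B => pr n k e σ.y B * F (up n k e σ.y B))]
  have h1 : ∑ B ∈ (KS n k).filter (fun B => B ∈ σ.C), pr n k e σ.y B * F (up n k e σ.y B) =
      (∑ B ∈ (KS n k).filter (fun B => B ∈ σ.C), pr n k e σ.y B) * F (up0 n k e σ.y) := by
    rw [sum_mul]
    refine sum_congr rfl fun B hB => ?_
    rw [hF (up n k e σ.y B) (up0 n k e σ.y)
      (fun A hA => up_of_mem hd (mem_filter.mp hB).2 hA)]
  rw [h1]
  unfold Sta.pick Sta.stay
  ring

end Pool.Agent.H70.KP
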