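import Pool.Agent.H70.KP.AH

/-!
# [H70 KP AG] average of GG

near_step with q m = (m = d), v x = exp (-(r_d x)), t = e s: the first part of GG increases in
expectation by at most (2 e / DD) exp (- r_d (e s)) * (sum over B, A with (A \ B).card = d of y B y A),
and that double sum is PS n k d y (definition, names exchanged) = exp ((1 + 3 del) r_d (e s)) PP s d.
exp (- r_d e s) exp ((1 + 3 del) r_d e s) = exp (3 del r_d e s) <= exp (1/2) <= 2 (dtau, r_d <= 1, s <= tau).
So the increase is <= (4 e / DD) PP s d; and Ex (PP (s+1) d) <= PP s d (Ex_y, avg_PP, d < j <= 2 j).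
-/

namespace Pool.Agent.H70.KP

open Finset
open Pool.Agent.H70.KG (KS DD S gf up0 up pr pr0)

variable {n k : ℕ}

theorem avg_GG (P : Par n k) (s d : ℕ) (hs : s < P.tau) (hd : d < P.j) {σ : Sta n}
    (g : Good P σ) : Ex k P.e (P.e * s) σ (fun σ' => P.GG (s + 1) d σ') ≤ P.GG s d σ := by
  have hD := P.D_pos
  have he := P.e0
  have hs1 : ((s + 1 : ℕ) : ℝ) ≤ P.tau := by exact_mod_cast hs
  push_cast at hs1
  have hr0 := rr_nonneg n k d
  have hr1 := rr_le_one n k d
  have h1 : (fun σ' => P.GG (s + 1) d σ') = fun σ' : Sta n =>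
      (fun σ' : Sta n => ∑ B ∈ σ'.C, (fun x : ℝ => Real.exp (-(rr n k d * x))) (σ'.st B) *
        ∑ A ∈ (KS n k).filter (fun A => (fun m : ℕ => m = d) (A \ B).card), σ'.y A) σ' +
      (fun σ' : Sta n => 4 * P.e * ((P.tau : ℝ) - ((s + 1 : ℕ) : ℝ)) / DD n k *
        (fun σ' : Sta n => P.PP (s + 1) d σ'.y) σ') σ' := rfl
  have h2 := near_step (e := P.e) (t := P.e * s) g.mild g.dead g.sub
    (fun m : ℕ => m = d) (fun x : ℝ => Real.exp (-(rr n k d * x))) (fun _ => (Real.exp_pos _).le)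
  have h3 : Ex k P.e (P.e * s) σ (fun σ' : Sta n => P.PP (s + 1) d σ'.y) ≤ P.PP s d σ.y := by
    rw [Ex_y g.dead (fun y y' hy => PP_congr P (s + 1) d hy)]
    exact avg_PP P s d (by omega) g
  rw [h1, Ex_add, Ex_mul]
  have h5 : 0 ≤ 4 * P.e * ((P.tau : ℝ) - ((s + 1 : ℕ) : ℝ)) / DD n k := by
    push_cast
    have : 0 ≤ (P.tau : ℝ) - (s + 1) := by linarith
    positivity
  have h6 := mul_le_mul_of_nonneg_left h3 h5
  have hPP : 0 ≤ P.PP s d σ.y := mul_nonneg (Real.exp_pos _).le (PS_nonneg g.mild.nonneg d)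
  have h7 : Real.exp (-(rr n k d * (P.e * s))) *
      ∑ B ∈ KS n k, ∑ A ∈ (KS n k).filter (fun A => (fun m : ℕ => m = d) (A \ B).card),
        σ.y B * σ.y A ≤ 2 * P.PP s d σ.y := by
    have e1 : ∑ B ∈ KS n k, ∑ A ∈ (KS n k).filter (fun A => (fun m : ℕ => m = d) (A \ B).card),
        σ.y B * σ.y A = PS n k d σ.y := rfl
    rw [e1]
    have e2 : PS n k d σ.y = Real.exp ((1 + 3 * P.del) * rr n k d * (P.e * s)) *
        P.PP s d σ.y := by
      unfold Par.PP
      rw [← mul_assoc, ← Real.exp_add, add_neg_cancel, Real.exp_zero, one_mul]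
    rw [e2, ← mul_assoc, ← Real.exp_add]
    refine mul_le_mul_of_nonneg_right ?_ hPP
    have e3 : -(rr n k d * (P.e * s)) + (1 + 3 * P.del) * rr n k d * (P.e * s) ≤ 1 / 2 := by
      have e4 : -(rr n k d * (P.e * s)) + (1 + 3 * P.del) * rr n k d * (P.e * s) =
          3 * P.del * (P.e * s) * rr n k d := by ring
      rw [e4]
      have e5 : (s : ℝ) ≤ P.tau := by linarith
      have e6 : 3 * P.del * (P.e * s) ≤ 3 * P.del * (P.e * P.tau) :=
        mul_le_mul_of_nonneg_left (mul_le_mul_of_nonneg_left e5 he.le) (by linarith [P.del0])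
      have e7 : 0 ≤ 3 * P.del * (P.e * s) := by
        have := P.del0
        positivity
      calc 3 * P.del * (P.e * s) * rr n k d ≤ 3 * P.del * (P.e * s) * 1 :=
            mul_le_mul_of_nonneg_left hr1 e7
        _ ≤ 1 / 2 := by linarith [P.dtau]
    have e8 : Real.exp (1 / 2) ≤ 2 := by
      have h9 : Real.exp (1 / 2) ^ 2 ≤ 2 ^ 2 := by
        rw [← Real.exp_nat_mul]
        have : ((2 : ℕ) : ℝ) * (1 / 2) = 1 := by norm_num
        rw [this]
        have := Real.exp_one_lt_d9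
        linarith
      exact le_of_sq_le_sq h9 (by norm_num)
    exact (Real.exp_le_exp.mpr e3).trans e8
  have h8 : 2 * P.e / DD n k * (Real.exp (-(rr n k d * (P.e * s))) *
      ∑ B ∈ KS n k, ∑ A ∈ (KS n k).filter (fun A => (fun m : ℕ => m = d) (A \ B).card),
        σ.y B * σ.y A) ≤ 4 * P.e / DD n k * P.PP s d σ.y := by
    refine (mul_le_mul_of_nonneg_left h7 (by positivity)).trans (le_of_eq ?_)
    ring
  have h9 : P.GG s d σ = ∑ B ∈ σ.C, Real.exp (-(rr n k d * σ.st B)) *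
        ∑ A ∈ (KS n k).filter (fun A => (A \ B).card = d), σ.y A +
      (4 * P.e / DD n k * P.PP s d σ.y +
        4 * P.e * ((P.tau : ℝ) - ((s + 1 : ℕ) : ℝ)) / DD n k * P.PP s d σ.y) := by
    unfold Par.GG
    push_cast
    ring
  rw [h9]
  beta_reduce at h2 h8 ⊢
  linarith

end Pool.Agent.H70.KP
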