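import Pool.Agent.H70.KP.AH

/-!
# [H70 KP AK] average of KK

bad_step: for B in KS, B not in C: bad (pick B) = bad + 2 * (number of B0 in C with
1 <= (B \ B0).card < 2 j): the new ordered pairs are (B0, B) and (B, B0), B0 in C (distances are
symmetric on KS: sd_symm, C is contained in KS), the pair (B, B) has distance 0. bad (stay) = bad.
So Ex bad = bad + 2 * sum over B not in C of pr B * number <= bad + (2 e / DD) RR (pr B = e y B / DD,
exchange the sums, weights >= 0).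
avg_KK: Ex (KK (s+1)) <= bad + (2 e/DD) RR + (2 e (tau - s - 1)/DD) HH s <= bad + (2 e (tau - s)/DD) HH s,
using RR <= HH s (the second part of HH is >= 0).
-/

namespace Pool.Agent.H70.KP

open Finset
open Pool.Agent.H70.KG (KS DD S gf up0 up pr pr0)

variable {n k : ℕ}

/-- near in the sense of `bad`. -/
private def nb (j : ℕ) (A B : Finset (Fin n)) : Prop :=
  1 ≤ (A \ B).card ∧ (A \ B).card < 2 * j

private instance (j : ℕ) (A B : Finset (Fin n)) : Decidable (nb j A B) := by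
  unfold nb
  infer_instance

private theorem bad_eq (P : Par n k) (σ : Sta n) :
    P.bad σ = ∑ B ∈ σ.C, ((σ.C.filter (fun A => nb P.j A B)).card : ℝ) := rfl

private theorem RR_eq (P : Par n k) (σ : Sta n) :
    P.RR σ = ∑ B ∈ σ.C, ∑ A ∈ (KS n k).filter (fun A => nb P.j A B), σ.y A := rfl

private theorem bad_pick {P : Par n k} {t : ℝ} {σ : Sta n} (g : Good P σ) {B : Finset (Fin n)}
    (hB : B ∈ KS n k) (hBC : B ∉ σ.C) :
    P.bad (σ.pick k P.e t B) = P.bad σ + 2 * ((σ.C.filter (fun A => nb P.j B A)).card : ℝ) := by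
  rw [bad_eq, bad_eq]
  have e0 : (σ.pick k P.e t B).C = insert B σ.C := rfl
  rw [e0, sum_insert hBC]
  have e1 : ((insert B σ.C).filter (fun A => nb P.j A B)).card =
      (σ.C.filter (fun A => nb P.j B A)).card := by
    rw [filter_insert, if_neg]
    · congr 1
      refine filter_congr fun A hA => ?_
      unfold nb
      rw [sd_symm (g.sub hA) hB]
    · unfold nb
      rw [sdiff_self]
      simp
  have e2 : ∀ B₀ ∈ σ.C, (((insert B σ.C).filter (fun A => nb P.j A B₀)).card : ℝ) =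
      ((σ.C.filter (fun A => nb P.j A B₀)).card : ℝ) + (if nb P.j B B₀ then 1 else 0) := by
    intro B₀ _
    rw [filter_insert]
    split_ifs with h
    · rw [card_insert_of_notMem (fun h' => hBC (mem_filter.mp h').1)]
      push_cast
      ring
    · ring
  rw [sum_congr rfl e2, sum_add_distrib, e1]
  have e3 : ∑ B₀ ∈ σ.C, (if nb P.j B B₀ then (1 : ℝ) else 0) =
      ((σ.C.filter (fun A => nb P.j B A)).card : ℝ) := by
    rw [← sum_filter, sum_const, nsmul_eq_mul, mul_one]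
  rw [e3]
  ring

theorem bad_step {P : Par n k} {t : ℝ} {σ : Sta n} (g : Good P σ) :
    Ex k P.e t σ P.bad ≤ P.bad σ + 2 * P.e / DD n k * P.RR σ := by
  have hD := P.D_pos
  have he := P.e0
  have hy := g.mild.nonneg
  have h1 : Ex k P.e t σ P.bad = Ex k P.e t σ (fun _ => P.bad σ) +
      2 * ∑ B ∈ (KS n k).filter (fun B => B ∉ σ.C), pr n k P.e σ.y B *
        ((σ.C.filter (fun A => nb P.j B A)).card : ℝ) := by
    unfold Ex
    have e1 : ∀ B ∈ (KS n k).filter (fun B => B ∉ σ.C),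
        pr n k P.e σ.y B * P.bad (σ.pick k P.e t B) = pr n k P.e σ.y B * P.bad σ +
          2 * (pr n k P.e σ.y B * ((σ.C.filter (fun A => nb P.j B A)).card : ℝ)) := by
      intro B hB
      obtain ⟨hB1, hB2⟩ := mem_filter.mp hB
      rw [bad_pick g hB1 hB2]
      ring
    rw [sum_congr rfl e1, sum_add_distrib, ← mul_sum]
    have e2 : P.bad (σ.stay k P.e) = P.bad σ := rfl
    rw [e2]
    ring
  rw [h1, Ex_const]
  have h2 : ∑ B ∈ (KS n k).filter (fun B => B ∉ σ.C), pr n k P.e σ.y B *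
        ((σ.C.filter (fun A => nb P.j B A)).card : ℝ) ≤ P.e / DD n k * P.RR σ := by
    have e1 : ∑ B ∈ (KS n k).filter (fun B => B ∉ σ.C), pr n k P.e σ.y B *
        ((σ.C.filter (fun A => nb P.j B A)).card : ℝ) ≤ ∑ B ∈ KS n k, pr n k P.e σ.y B *
        ((σ.C.filter (fun A => nb P.j B A)).card : ℝ) :=
      sum_le_sum_of_subset_of_nonneg (filter_subset _ _) fun B hB _ =>
        mul_nonneg (pr_nonneg g.mild hB) (Nat.cast_nonneg _)
    refine e1.trans (le_of_eq ?_)
    have e2 : ∀ B ∈ KS n k, pr n k P.e σ.y B *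
        ((σ.C.filter (fun A => nb P.j B A)).card : ℝ) =
        ∑ B₀ ∈ σ.C, (if nb P.j B B₀ then P.e / DD n k * σ.y B else 0) := by
      intro B _
      rw [← sum_filter, sum_const, nsmul_eq_mul]
      unfold Pool.Agent.H70.KG.pr
      ring
    rw [sum_congr rfl e2, sum_comm, RR_eq, mul_sum]
    refine sum_congr rfl fun B₀ _ => ?_
    rw [← sum_filter, mul_sum]
  have h3 : 2 * P.e / DD n k * P.RR σ = 2 * (P.e / DD n k * P.RR σ) := by ring
  rw [h3]
  linarith

private theorem PP_nn (P : Par n k) (s d : ℕ) {y : Finset (Fin n) → ℝ}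
    (hy : ∀ A ∈ KS n k, 0 ≤ y A) : 0 ≤ P.PP s d y :=
  mul_nonneg (Real.exp_pos _).le (PS_nonneg hy d)

theorem RR_le_HH (P : Par n k) {s : ℕ} (hs : s ≤ P.tau) {σ : Sta n}
    (hy : ∀ A ∈ KS n k, 0 ≤ σ.y A) : P.RR σ ≤ P.HH s σ := by
  have hD := P.D_pos
  have he := P.e0
  have h1 : (s : ℝ) ≤ P.tau := by exact_mod_cast hs
  have h2 : 0 ≤ (P.tau : ℝ) - s := by linarith
  unfold Par.HH
  have h3 : 0 ≤ ∑ d ∈ Ico 1 (2 * P.j),
      Real.exp ((1 + 3 * P.del) * rr n k d * (P.e * P.tau)) * P.PP s d σ.y :=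
    sum_nonneg fun d _ => mul_nonneg (Real.exp_pos _).le (PP_nn P s d hy)
  have h4 : 0 ≤ 2 * P.e * ((P.tau : ℝ) - s) / DD n k := by positivity
  linarith [mul_nonneg h4 h3]

theorem avg_KK (P : Par n k) (s : ℕ) (hs : s < P.tau) (t : ℝ) {σ : Sta n} (g : Good P σ) :
    Ex k P.e t σ (P.KK (s + 1)) ≤ P.KK s σ := by
  have hD := P.D_pos
  have he := P.e0
  have hs1 : ((s + 1 : ℕ) : ℝ) ≤ P.tau := by exact_mod_cast hs
  push_cast at hs1
  have h1 : P.KK (s + 1) = fun σ' : Sta n => P.bad σ' +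
      (fun σ' : Sta n => 2 * P.e * ((P.tau : ℝ) - ((s + 1 : ℕ) : ℝ)) / DD n k *
        P.HH (s + 1) σ') σ' := rfl
  rw [h1, Ex_add, Ex_mul]
  have h2 := bad_step (t := t) g
  have h3 := avg_HH P s hs t g
  have h4 := RR_le_HH P hs.le g.mild.nonneg
  have h5 : 0 ≤ 2 * P.e * ((P.tau : ℝ) - ((s + 1 : ℕ) : ℝ)) / DD n k := by
    push_cast
    have : 0 ≤ (P.tau : ℝ) - (s + 1) := by linarith
    positivity
  have h6 := mul_le_mul_of_nonneg_left h3 h5
  have h7 := mul_le_mul_of_nonneg_left h4 (by positivity : 0 ≤ 2 * P.e / DD n k)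
  unfold Par.KK
  have h8 : 2 * P.e * ((P.tau : ℝ) - s) / DD n k =
      2 * P.e / DD n k + 2 * P.e * ((P.tau : ℝ) - ((s + 1 : ℕ) : ℝ)) / DD n k := by
    push_cast
    ring
  rw [h8, add_mul]
  have h9 : Ex k P.e t σ (fun σ' => P.bad σ') = Ex k P.e t σ P.bad := rfl
  have h10 : Ex k P.e t σ (fun σ' => P.HH (s + 1) σ') = Ex k P.e t σ (P.HH (s + 1)) := rfl
  rw [h9, h10]
  linarith

end Pool.Agent.H70.KP
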