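import Pool.Agent.H70.KP.PC

/-!
# [H70 KP PB] consequences of the numerical hypotheses

* D_pos: k <= n - k (hsz). s_u > 0 for u < k + 2 j: u + k <= n.
* a = 3 n / del > 0, a1 = 3 n / d1 > 0, a <= a1 (d1 <= del), 1 <= a (a del = 3 n >= 12, del <= 1/2).
* c_nonneg; c (e s) <= n for s <= tau (cc).
* cT: e (8 a e rho + a^2 (64 e + 4 rho)) + 3 rho e <= c e: 8 a e rho <= a^2 rho (8 e <= 1 <= a),
  3 rho <= 3 a^2 rho, so the left side is <= e a^2 (64 e + 8 rho) <= e a1^2 (64 e + 8 rho).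
* nu <= rho DD: H2, n >= 1. e tau rho <= 1/(2 n^2) (c4).
* K0_pos, G0_pos: all factors positive (tau >= 1; the interval Ico 1 (2 j) contains 1).
* K0_lt: 8 n K0 = (2 e tau / DD)^2 * (sum of H4) <= (2 e tau)^2 (nu / DD)^2 / 2 <= 2 (e tau rho)^2 <= 1/2.
* WW_pos, e_small.
-/

namespace Pool.Agent.H70.KP

open Finset
open Pool.Agent.H70.KG (KS DD S gf up0 up pr pr0)

variable {n k : ℕ}

theorem Par.D_pos (P : Par n k) : 0 < DD n k := by
  have h := P.hsz
  unfold Pool.Agent.H70.KG.DD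
  exact_mod_cast Nat.choose_pos (by omega)

theorem Par.n_pos (P : Par n k) : (0 : ℝ) < n := by
  have h := P.hn
  exact_mod_cast (by omega : 0 < n)

theorem Par.sz_pos (P : Par n k) {u : ℕ} (h : u < k + 2 * P.j) : 0 < sz n k u := by
  have h1 := P.hsz
  exact Pool.Agent.H70.KP.sz_pos (by omega)

private theorem n_four (P : Par n k) : (4 : ℝ) ≤ n := by
  exact_mod_cast P.hn

private theorem a_pos (P : Par n k) : 0 < P.a := by
  have h1 := P.aa
  have h2 := P.n_pos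
  by_contra h3
  push Not at h3
  nlinarith [P.del0]

theorem Par.a_one (P : Par n k) : 1 ≤ P.a := by
  have h1 := P.aa
  have h2 := n_four P
  have h3 := a_pos P
  nlinarith [P.del0, P.del1]

private theorem a1_pos (P : Par n k) : 0 < P.a1 := by
  have h1 := P.aa1
  have h2 := P.n_pos
  by_contra h3
  push Not at h3
  nlinarith [P.d10]

theorem Par.a_le (P : Par n k) : P.a ≤ P.a1 := by
  have h1 := P.aa
  have h2 := P.aa1
  have h3 := a_pos P
  have h4 := P.d10
  have h5 := P.d1le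
  by_contra h6
  push Not at h6
  have h7 : P.a1 * P.d1 < P.a * P.d1 := mul_lt_mul_of_pos_right h6 h4
  have h8 : P.a * P.d1 ≤ P.a * P.del := mul_le_mul_of_nonneg_left (by linarith) h3.le
  linarith

theorem Par.c_nonneg (P : Par n k) : 0 ≤ P.c := by
  have h1 := P.e0
  have h2 := P.rho0
  unfold Par.c
  positivity

theorem Par.c_le (P : Par n k) {s : ℕ} (hs : s ≤ P.tau) : P.c * (P.e * s) ≤ n := by
  have h1 := P.cc
  have h2 := P.c_nonneg
  have h3 : (s : ℝ) ≤ P.tau := by exact_mod_cast hs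
  have h4 : P.e * s ≤ P.e * P.tau := mul_le_mul_of_nonneg_left h3 P.e0.le
  calc P.c * (P.e * s) ≤ P.c * (P.e * P.tau) := mul_le_mul_of_nonneg_left h4 h2
    _ ≤ n := h1

theorem Par.cT (P : Par n k) :
    P.e * (8 * P.a * P.e * P.rho + P.a ^ 2 * (64 * P.e + 4 * P.rho)) + 3 * P.rho * P.e ≤
      P.c * P.e := by
  have he := P.e0
  have hr := P.rho0
  have ha := P.a_one
  have hal := P.a_le
  have he8 : 8 * P.e ≤ 1 := by linarith [P.e1, P.del1]
  have h1 : 8 * P.a * P.e * P.rho ≤ P.a ^ 2 * P.rho := by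
    have : 8 * P.a * P.e ≤ P.a ^ 2 := by nlinarith
    exact mul_le_mul_of_nonneg_right this hr.le
  have h2 : 3 * P.rho ≤ 3 * (P.a ^ 2 * P.rho) := by
    have : 1 ≤ P.a ^ 2 := one_le_pow₀ ha
    nlinarith
  have h3 : P.a ^ 2 ≤ P.a1 ^ 2 := pow_le_pow_left₀ (by linarith) hal 2
  have h4 : P.a ^ 2 * (64 * P.e + 8 * P.rho) ≤ P.a1 ^ 2 * (64 * P.e + 8 * P.rho) :=
    mul_le_mul_of_nonneg_right h3 (by positivity)
  have h5 : 8 * P.a * P.e * P.rho + P.a ^ 2 * (64 * P.e + 4 * P.rho) + 3 * P.rho ≤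
      P.a1 ^ 2 * (64 * P.e + 8 * P.rho) := by nlinarith
  have h6 := mul_le_mul_of_nonneg_right h5 he.le
  unfold Par.c
  linarith

theorem Par.nu_le (P : Par n k) : P.nu ≤ P.rho * DD n k := by
  have h1 := P.H2
  have h2 := n_four P
  have h3 := P.nu0
  have h4 : (0 : ℝ) ≤ 5 * (n : ℝ) ^ (4 * P.j) := by positivity
  nlinarith

theorem Par.pd_pos (P : Par n k) (d : ℕ) : 0 < pd n k d := by
  have h1 := P.hsz
  have h2 := P.hk
  have h3 := P.n_pos
  have h4 : (0 : ℝ) < n.choose k := by exact_mod_cast Nat.choose_pos (by omega)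
  have h5 : (0 : ℝ) < k := by exact_mod_cast (by omega : 0 < k)
  unfold pd
  positivity

private theorem tau_pos (P : Par n k) : (0 : ℝ) < P.tau := by
  have h := P.htau
  exact_mod_cast (by omega : 0 < P.tau)

theorem Par.K0_pos (P : Par n k) : 0 < P.K0 := by
  have h1 := P.D_pos
  have h2 := P.e0
  have h3 := tau_pos P
  have h4 := P.hj
  unfold Par.K0
  refine mul_pos (by positivity) (sum_pos (fun d _ => mul_pos (Real.exp_pos _) (P.pd_pos d)) ?_)
  exact ⟨1, mem_Ico.mpr ⟨le_rfl, by omega⟩⟩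

theorem Par.K0_lt (P : Par n k) : 8 * n * P.K0 < 1 := by
  have hD := P.D_pos
  have he := P.e0
  have ht := tau_pos P
  have hn4 := n_four P
  have hr := P.rho0
  have hnu := P.nu_le
  have h1 : 8 * n * P.K0 = (2 * P.e * P.tau / DD n k) ^ 2 *
      ∑ d ∈ Ico 1 (2 * P.j), 8 * n * pd n k d *
        Real.exp ((1 + 3 * P.del) * rr n k d * (P.e * P.tau)) := by
    unfold Par.K0
    rw [mul_left_comm, mul_sum]
    congr 1
    exact sum_congr rfl fun d _ => by ring
  have h2 : 8 * n * P.K0 ≤ (2 * P.e * P.tau / DD n k) ^ 2 * (P.nu ^ 2 / 2) := by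
    rw [h1]
    exact mul_le_mul_of_nonneg_left P.H4 (by positivity)
  have h3 : P.nu ^ 2 ≤ (P.rho * DD n k) ^ 2 := pow_le_pow_left₀ P.nu0.le hnu 2
  have h4 : (2 * P.e * P.tau / DD n k) ^ 2 * (P.nu ^ 2 / 2) ≤
      (2 * P.e * P.tau / DD n k) ^ 2 * ((P.rho * DD n k) ^ 2 / 2) :=
    mul_le_mul_of_nonneg_left (by linarith) (by positivity)
  have h5 : (2 * P.e * P.tau / DD n k) ^ 2 * ((P.rho * DD n k) ^ 2 / 2) =
      2 * (P.rho * (P.e * P.tau)) ^ 2 := by
    field_simp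
  have h6 : P.rho * (P.e * P.tau) ≤ 1 / 32 := by
    have h7 := P.c4
    have h8 : (16 : ℝ) ≤ (n : ℝ) ^ 2 := by nlinarith
    have h9 : 0 ≤ P.rho * (P.e * P.tau) := by positivity
    nlinarith
  have h7 : 0 ≤ P.rho * (P.e * P.tau) := by positivity
  nlinarith

theorem Par.G0_pos (P : Par n k) (d : ℕ) : 0 < P.G0 d := by
  have h1 := P.D_pos
  have h2 := P.e0
  have h3 := tau_pos P
  have h4 := P.pd_pos d
  unfold Par.G0
  positivity

theorem Par.WW_pos (P : Par n k) : 0 < WW n := by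
  have h := P.n_pos
  unfold WW
  positivity

end Pool.Agent.H70.KP
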