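import Pool.Agent.H70.KP.TE
import Pool.Agent.H70.KP.PB

/-!
# [H70 KP AQ] average of the tuple terms

TS_step for every family dis n k V, nea n k j V (contained in KS, module LO), with hfar from Good.far
(V = A in KS has card k, and rho * sz n k k = rho * DD). Divide by the constants F.card ^ n >= 0, sum
(E1_add, E1_sum, E1_mul), multiply by exp (-(n^2 rho (e (s+1)))): exp (n^2 rho e) cancels.
-/

namespace Pool.Agent.H70.KP

open Finset
open Pool.Agent.H70.KG (KS DD S gf up0 up pr pr0)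

variable {n k : ℕ}

theorem avg_PQ (P : Par n k) (s : ℕ) {σ : Sta n} (g : Good P σ) :
    E1 n k P.e σ.y (P.PQ (s + 1)) ≤ P.PQ s σ.y := by
  have hfar : ∀ A ∈ KS n k, ∀ B ∈ KS n k, P.j ≤ (B \ A).card →
      S n k σ.y (A ∪ B) ≤ P.rho * DD n k := by
    intro A hA B _ hB
    have hAc : A.card = k := mem_KS.mp hA
    have h1 := g.far A B (by omega) (by have := P.hj; omega) hB
    rwa [hAc, sz_k] at h1
  have hone : ∀ F : Finset (Finset (Fin n)), F ⊆ KS n k →
      E1 n k P.e σ.y (fun y' => TS P.j n y' F / (F.card : ℝ) ^ n) ≤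
        Real.exp ((n : ℝ) ^ 2 * P.rho * P.e) * (TS P.j n σ.y F / (F.card : ℝ) ^ n) := by
    intro F hF
    have h1 : (fun y' : Finset (Fin n) → ℝ => TS P.j n y' F / (F.card : ℝ) ^ n) =
        fun y' => ((F.card : ℝ) ^ n)⁻¹ * TS P.j n y' F := by
      funext y'
      rw [div_eq_inv_mul]
    rw [h1, E1_mul]
    have h2 := mul_le_mul_of_nonneg_left (TS_step g.mild P.rho0.le hfar hF)
      (inv_nonneg.mpr (pow_nonneg (Nat.cast_nonneg F.card) n) : (0 : ℝ) ≤ ((F.card : ℝ) ^ n)⁻¹)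
    refine h2.trans (le_of_eq ?_)
    rw [div_eq_inv_mul]
    ring
  have h1 : P.PQ (s + 1) = fun y' =>
      Real.exp (-((n : ℝ) ^ 2 * P.rho * (P.e * ((s + 1 : ℕ) : ℝ)))) *
      ((fun y' => ∑ V ∈ P.Vd, TS P.j n y' (dis n k V) / ((dis n k V).card : ℝ) ^ n) y' +
        (fun y' => ∑ V ∈ P.Vc, TS P.j n y' (nea n k P.j V) /
          ((nea n k P.j V).card : ℝ) ^ n) y') := rfl
  rw [h1, E1_mul, E1_add, E1_sum, E1_sum]
  have h2 : ∑ V ∈ P.Vd, E1 n k P.e σ.y
      (fun y' => TS P.j n y' (dis n k V) / ((dis n k V).card : ℝ) ^ n) ≤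
      Real.exp ((n : ℝ) ^ 2 * P.rho * P.e) *
        ∑ V ∈ P.Vd, TS P.j n σ.y (dis n k V) / ((dis n k V).card : ℝ) ^ n := by
    rw [mul_sum]
    exact sum_le_sum fun V _ => hone _ (dis_sub n k V)
  have h3 : ∑ V ∈ P.Vc, E1 n k P.e σ.y
      (fun y' => TS P.j n y' (nea n k P.j V) / ((nea n k P.j V).card : ℝ) ^ n) ≤
      Real.exp ((n : ℝ) ^ 2 * P.rho * P.e) *
        ∑ V ∈ P.Vc, TS P.j n σ.y (nea n k P.j V) / ((nea n k P.j V).card : ℝ) ^ n := by
    rw [mul_sum]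
    exact sum_le_sum fun V _ => hone _ (nea_sub n k P.j V)
  refine (mul_le_mul_of_nonneg_left (add_le_add h2 h3) (Real.exp_pos _).le).trans (le_of_eq ?_)
  unfold Par.PQ
  rw [← mul_add, ← mul_assoc, ← Real.exp_add]
  congr 2
  push_cast
  ring

end Pool.Agent.H70.KP
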