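import Pool.Agent.H70.KP.TV
import Pool.Agent.H70.KP.MA
import Pool.Agent.H70.KP.PB
import Pool.Agent.H70.KG.GR

/-!
# [H70 KP AT] average of the lower exponential terms

term (j, C, T) = exp (-(a/DD) (S T - tg C T DD) - c (e s)) if (nc j C T).card <= 1, and 0 otherwise.
one_T. Fix T in KS. Write Q = nc j C T, old = the old term, mu = a / DD.
Q.card >= 2: all new terms are 0 (nc j (insert B C) T contains Q).
Q.card <= 1. Far choices (j <= (B \ T).card, B not in C): nc unchanged, the new term is
exp (-mu (S (up B) T - tg DD) - c (e (s+1))). B in C far: the stay term, and S (up B) T = S (up0) T (up_of_mem).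
So far choices and pr0 together: term_T with th = tg DD, bound old * exp (-c e) * exp (e (8 a e rho +
a^2 (64 e + 4 rho))). B in C near T: the stay term, at most old * exp (-c e) because S (up0) T >= S T
(KG.up0_bounds). B not in C near T: if Q.card = 1 the new nc has 2 elements, term 0. If Q is empty
then tg = 1, new tg = 1 - r_d, d = (B \ T).card < j, and S (up B) T >= S T - S (T u B) (KG.up_bounds),
S (T u B) <= (1 + d1) r_d DD (Good.upp, union_card, rr_mul), so
-mu (S (up B) T - (1 - r_d) DD) <= -mu (S T - DD) + mu d1 r_d DD <= ... + a d1 <= ... + 1: the new term is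
<= 3 * old * exp (-c e). The total probability of the near B is (e/DD) * (near weight) <= e rho (Good.near,
T has card k). Altogether Ex <= old * exp (-c e) * (exp (X) + 3 rho e) <= old * exp (-c e) exp (X + 3 rho e)
<= old (Par.cT), X = e (8 a e rho + a^2 (64 e + 4 rho)) >= 0.
avg_PT: PT = sum over T in KS of the terms (sum_filter), Ex_sum.
-/

namespace Pool.Agent.H70.KP

open Finset
open Pool.Agent.H70.KG (KS DD S gf up0 up pr pr0)

variable {n k : ℕ}

/-- One term. -/
noncomputable def tT (P : Par n k) (s : ℕ) (T : Finset (Fin n)) (σ : Sta n) : ℝ :=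
  if (nc P.j σ.C T).card ≤ 1 then
    Real.exp (-(P.a / DD n k) * (S n k σ.y T - tg k P.j σ.C T * DD n k) - P.c * (P.e * s)) else 0

theorem PT_eq (P : Par n k) (s : ℕ) (σ : Sta n) : P.PT s σ = ∑ T ∈ KS n k, tT P s T σ := by
  unfold Par.PT tT
  rw [sum_filter]

private theorem tT_pos (P : Par n k) (s : ℕ) (T : Finset (Fin n)) (y : Finset (Fin n) → ℝ)
    (C : Finset (Finset (Fin n))) (st : Finset (Fin n) → ℝ) (h : (nc P.j C T).card ≤ 1) :
    tT P s T ⟨y, C, st⟩ =
      Real.exp (-(P.a / DD n k) * (S n k y T - tg k P.j C T * DD n k) - P.c * (P.e * s)) :=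
  if_pos h

private theorem tT_neg (P : Par n k) (s : ℕ) (T : Finset (Fin n)) (y : Finset (Fin n) → ℝ)
    (C : Finset (Finset (Fin n))) (st : Finset (Fin n) → ℝ) (h : ¬ (nc P.j C T).card ≤ 1) :
    tT P s T ⟨y, C, st⟩ = 0 :=
  if_neg h

private theorem S_mem {P : Par n k} {σ : Sta n} (g : Good P σ) {B : Finset (Fin n)}
    (hB : B ∈ σ.C) (T : Finset (Fin n)) :
    S n k (up n k P.e σ.y B) T = S n k (up0 n k P.e σ.y) T := by
  unfold S
  refine sum_congr rfl fun A hA => ?_
  exact up_of_mem g.dead hB (mem_filter.mp hA).1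

private theorem nc_far {j : ℕ} {C : Finset (Finset (Fin n))} {T B : Finset (Fin n)}
    (h : j ≤ (B \ T).card) : nc j (insert B C) T = nc j C T := by
  unfold nc
  rw [filter_insert, if_neg (by omega)]

private theorem nc_near {j : ℕ} {C : Finset (Finset (Fin n))} {T B : Finset (Fin n)}
    (h : (B \ T).card < j) : nc j (insert B C) T = insert B (nc j C T) := by
  unfold nc
  rw [filter_insert, if_pos h]

private theorem near_pick (P : Par n k) (s : ℕ) (t : ℝ) {σ : Sta n} (g : Good P σ)
    {T : Finset (Fin n)} (hT : T ∈ KS n k) (hc : (nc P.j σ.C T).card ≤ 1) {B : Finset (Fin n)}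
    (hBC : B ∉ σ.C) (hn : (B \ T).card < P.j) :
    tT P (s + 1) T (σ.pick k P.e t B) ≤
      3 * Real.exp (-(P.a / DD n k) * (S n k σ.y T - tg k P.j σ.C T * DD n k)) *
        Real.exp (-(P.c * (P.e * ((s + 1 : ℕ) : ℝ)))) := by
  have hpos : 0 ≤ 3 * Real.exp (-(P.a / DD n k) * (S n k σ.y T - tg k P.j σ.C T * DD n k)) *
        Real.exp (-(P.c * (P.e * ((s + 1 : ℕ) : ℝ)))) := by positivity
  have hBnc : B ∉ nc P.j σ.C T := fun h => hBC (mem_filter.mp h).1
  have hnew : nc P.j (insert B σ.C) T = insert B (nc P.j σ.C T) := nc_near hn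
  unfold Sta.pick
  by_cases h1 : (nc P.j (insert B σ.C) T).card ≤ 1
  swap
  · rw [tT_neg P (s + 1) T _ _ _ h1]
    exact hpos
  · rw [tT_pos P (s + 1) T _ _ _ h1]
    rw [hnew, card_insert_of_notMem hBnc] at h1
    have hemp : nc P.j σ.C T = ∅ := by
      rw [← card_eq_zero]
      omega
    have htg : tg k P.j σ.C T = 1 := by
      unfold tg
      rw [hemp]
      simp
    have htg' : tg k P.j (insert B σ.C) T = 1 - rr n k (B \ T).card := by
      unfold tg
      rw [hnew, hemp]
      simp
    rw [htg, htg']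
    have hD := P.D_pos
    have hTc : T.card = k := mem_KS.mp hT
    obtain ⟨G, hG0, -, hG⟩ := Pool.Agent.H70.KG.up_bounds (n := n) (k := k) (e := P.e) (y := σ.y)
      hD g.mild.nonneg P.e0.le (by linarith [g.mild.e_le8]) g.mild.S_le T B
    have hcard : (T ∪ B).card = k + (B \ T).card := by rw [union_card, hTc]
    have hup := g.upp (T ∪ B) (by omega) (by have := P.hj; omega)
    rw [hcard, ← rr_mul hD] at hup
    have hr0 := rr_nonneg n k (B \ T).card
    have hr1 := rr_le_one n k (B \ T).card
    have ha : 0 ≤ P.a := by linarith [P.a_one]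
    have h3 : Real.exp 1 ≤ 3 := by
      have := Real.exp_one_lt_d9
      linarith
    have h4 : -(P.a / DD n k) *
        (S n k (up n k P.e σ.y B) T - (1 - rr n k (B \ T).card) * DD n k) ≤
        -(P.a / DD n k) * (S n k σ.y T - 1 * DD n k) + 1 := by
      have h5 : P.a / DD n k * (P.d1 * rr n k (B \ T).card * DD n k) ≤ 1 := by
        have : P.a / DD n k * (P.d1 * rr n k (B \ T).card * DD n k) =
            (P.a * P.d1) * rr n k (B \ T).card := by
          field_simp
        rw [this]
        calc (P.a * P.d1) * rr n k (B \ T).card ≤ 1 * 1 :=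
              mul_le_mul P.ad hr1 hr0 (by norm_num)
          _ = 1 := one_mul _
      have h6 : S n k σ.y T - 1 * DD n k - P.d1 * rr n k (B \ T).card * DD n k ≤
          S n k (up n k P.e σ.y B) T - (1 - rr n k (B \ T).card) * DD n k := by
        nlinarith
      have h7 : 0 ≤ P.a / DD n k := by positivity
      have h8 := mul_le_mul_of_nonneg_left h6 h7
      nlinarith
    have h9 : -(P.a / DD n k) *
        (S n k (up n k P.e σ.y B) T - (1 - rr n k (B \ T).card) * DD n k) -
        P.c * (P.e * ((s + 1 : ℕ) : ℝ)) ≤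
        1 + (-(P.a / DD n k) * (S n k σ.y T - 1 * DD n k)) +
          -(P.c * (P.e * ((s + 1 : ℕ) : ℝ))) := by
      linarith
    refine (Real.exp_le_exp.mpr h9).trans ?_
    rw [Real.exp_add, Real.exp_add]
    refine mul_le_mul_of_nonneg_right ?_ (Real.exp_pos _).le
    exact mul_le_mul_of_nonneg_right h3 (Real.exp_pos _).le

theorem one_T (P : Par n k) (s : ℕ) (t : ℝ) {σ : Sta n} (g : Good P σ) {T : Finset (Fin n)}
    (hT : T ∈ KS n k) : Ex k P.e t σ (tT P (s + 1) T) ≤ tT P s T σ := by
  by_cases hc : (nc P.j σ.C T).card ≤ 1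
  swap
  · -- all terms vanish
    have h0 : tT P s T σ = 0 := tT_neg P s T σ.y σ.C σ.st hc
    have h1 : tT P (s + 1) T (σ.stay k P.e) = 0 :=
      tT_neg P (s + 1) T (up0 n k P.e σ.y) σ.C σ.st hc
    have h2 : ∀ B : Finset (Fin n), tT P (s + 1) T (σ.pick k P.e t B) = 0 := by
      intro B
      unfold Sta.pick
      refine tT_neg P (s + 1) T _ _ _ ?_
      intro h
      refine hc (le_trans (card_le_card ?_) h)
      exact filter_subset_filter _ (subset_insert _ _)
    unfold Ex
    rw [h0, h1, mul_zero, add_zero]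
    refine le_of_eq (sum_eq_zero fun B _ => ?_)
    rw [h2, mul_zero]
  · have hTc : T.card = k := mem_KS.mp hT
    have hD := P.D_pos
    have he := P.e0
    have hrho := P.rho0
    have ha : 0 ≤ P.a := by linarith [P.a_one]
    have hsz : sz n k T.card = DD n k := by rw [hTc]; exact sz_k n k
    have hnear := g.near T (by omega) (by have := P.hj; omega)
    have hfar : ∀ B ∈ KS n k, P.j ≤ (B \ T).card → S n k σ.y (T ∪ B) ≤ P.rho * DD n k := by
      intro B _ hB
      have := g.far T B (by omega) (by have := P.hj; omega) hB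
      rwa [hsz] at this
    set th := tg k P.j σ.C T * DD n k with hth
    set gs := Real.exp (-(P.a / DD n k) * (S n k σ.y T - th)) with hgs
    set K1 := Real.exp (-(P.c * (P.e * ((s + 1 : ℕ) : ℝ)))) with hK1
    set X := P.e * (8 * P.a * P.e * P.rho + P.a ^ 2 * (64 * P.e + 4 * P.rho)) with hX
    have hX0 : 0 ≤ X := by positivity
    have key := term_T (j := P.j) g.mild T (th := th) (g.mild.S_le T hT) hrho.le hfar hnear ha
      P.arho
    -- the stay term
    have hstay : tT P (s + 1) T (σ.stay k P.e) =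
        Real.exp (-(P.a / DD n k) * (S n k (up0 n k P.e σ.y) T - th)) * K1 := by
      unfold Sta.stay
      rw [tT_pos P (s + 1) T _ _ _ hc, hK1, ← Real.exp_add]
      congr 1
    have hgs0 : 0 < gs := Real.exp_pos _
    have hK0 : 0 < K1 := Real.exp_pos _
    obtain ⟨hu0, -⟩ := Pool.Agent.H70.KG.up0_bounds (n := n) (k := k) (e := P.e) (y := σ.y)
      hD g.mild.nonneg P.e0.le (by linarith [g.mild.e_le8]) g.mild.S_le T
    have hstay_le : Real.exp (-(P.a / DD n k) * (S n k (up0 n k P.e σ.y) T - th)) ≤ gs := by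
      refine Real.exp_le_exp.mpr ?_
      have h7 : 0 ≤ P.a / DD n k := by positivity
      nlinarith [mul_nonneg h7 hu0]
    -- bound of the new value for each B
    have hB : ∀ B ∈ (KS n k).filter (fun B => B ∉ σ.C),
        pr n k P.e σ.y B * tT P (s + 1) T (σ.pick k P.e t B) ≤
        (if P.j ≤ (B \ T).card then pr n k P.e σ.y B *
          Real.exp (-(P.a / DD n k) * (S n k (up n k P.e σ.y B) T - th)) * K1 else
          pr n k P.e σ.y B * (3 * gs * K1)) := by
      intro B hBm
      obtain ⟨hBK, hBC⟩ := mem_filter.mp hBm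
      have hp := pr_nonneg g.mild hBK
      split_ifs with hf
      · rw [mul_assoc]
        refine mul_le_mul_of_nonneg_left (le_of_eq ?_) hp
        have hc' : (nc P.j (insert B σ.C) T).card ≤ 1 := by rwa [nc_far hf]
        have htgf : tg k P.j (insert B σ.C) T = tg k P.j σ.C T := by
          unfold tg
          rw [nc_far hf]
        unfold Sta.pick
        rw [tT_pos P (s + 1) T _ _ _ hc', htgf, hK1, ← Real.exp_add]
        congr 1
      · refine mul_le_mul_of_nonneg_left ?_ hp
        exact near_pick P s t g hT hc hBC (by omega)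
    have hC : ∀ B ∈ (KS n k).filter (fun B => B ∈ σ.C),
        pr n k P.e σ.y B * tT P (s + 1) T (σ.stay k P.e) ≤
        (if P.j ≤ (B \ T).card then pr n k P.e σ.y B *
          Real.exp (-(P.a / DD n k) * (S n k (up n k P.e σ.y B) T - th)) * K1 else
          pr n k P.e σ.y B * (3 * gs * K1)) := by
      intro B hBm
      obtain ⟨hBK, hBC⟩ := mem_filter.mp hBm
      have hp := pr_nonneg g.mild hBK
      rw [hstay]
      split_ifs with hf
      · rw [S_mem g hBC, mul_assoc]
      · refine mul_le_mul_of_nonneg_left ?_ hp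
        refine mul_le_mul_of_nonneg_right ?_ hK0.le
        linarith
    -- the total
    have htot : Ex k P.e t σ (tT P (s + 1) T) ≤
        ∑ B ∈ KS n k, (if P.j ≤ (B \ T).card then pr n k P.e σ.y B *
          Real.exp (-(P.a / DD n k) * (S n k (up n k P.e σ.y B) T - th)) * K1 else
          pr n k P.e σ.y B * (3 * gs * K1)) +
        pr0 n k P.e σ.y * Real.exp (-(P.a / DD n k) * (S n k (up0 n k P.e σ.y) T - th)) * K1 := by
      unfold Ex
      rw [add_mul, sum_mul, ← sum_filter_add_sum_filter_not (KS n k) (fun B => B ∈ σ.C)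
        (fun B => if P.j ≤ (B \ T).card then pr n k P.e σ.y B *
          Real.exp (-(P.a / DD n k) * (S n k (up n k P.e σ.y B) T - th)) * K1 else
          pr n k P.e σ.y B * (3 * gs * K1))]
      have e1 := sum_le_sum hB
      have e2 := sum_le_sum hC
      rw [hstay] at e2 ⊢
      have e3 : pr0 n k P.e σ.y *
          (Real.exp (-(P.a / DD n k) * (S n k (up0 n k P.e σ.y) T - th)) * K1) =
          pr0 n k P.e σ.y * Real.exp (-(P.a / DD n k) * (S n k (up0 n k P.e σ.y) T - th)) * K1 := by
        ring
      rw [e3]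
      linarith
    refine htot.trans ?_
    rw [sum_ite, ← sum_mul]
    have hnearp : ∑ B ∈ (KS n k).filter (fun B => ¬ P.j ≤ (B \ T).card),
        pr n k P.e σ.y B * (3 * gs * K1) ≤ P.e * P.rho * (3 * gs * K1) := by
      rw [← sum_mul]
      refine mul_le_mul_of_nonneg_right ?_ (by positivity)
      have e1 : ∑ B ∈ (KS n k).filter (fun B => ¬ P.j ≤ (B \ T).card), pr n k P.e σ.y B =
          P.e / DD n k * ∑ B ∈ (KS n k).filter (fun B => (B \ T).card < P.j), σ.y B := by
        rw [mul_sum]
        refine sum_congr ?_ fun B _ => ?_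
        · ext B
          simp only [mem_filter, not_le]
        · unfold pr
          ring
      rw [e1]
      calc P.e / DD n k * ∑ B ∈ (KS n k).filter (fun B => (B \ T).card < P.j), σ.y B
          ≤ P.e / DD n k * (P.rho * DD n k) := mul_le_mul_of_nonneg_left hnear (by positivity)
        _ = P.e * P.rho := by field_simp
    have hfin : Real.exp X + 3 * P.rho * P.e ≤ Real.exp (P.c * P.e) := by
      have h1 : Real.exp X + 3 * P.rho * P.e ≤ Real.exp (X + 3 * P.rho * P.e) := by
        rw [Real.exp_add]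
        have h2 := Real.add_one_le_exp (3 * P.rho * P.e)
        have h3 : 1 ≤ Real.exp X := Real.one_le_exp hX0
        have h4 : 0 ≤ 3 * P.rho * P.e := by positivity
        nlinarith [Real.exp_pos X]
      exact h1.trans (Real.exp_le_exp.mpr P.cT)
    have key' : ∑ B ∈ (KS n k).filter (fun B => P.j ≤ (B \ T).card), pr n k P.e σ.y B *
        Real.exp (-(P.a / DD n k) * (S n k (up n k P.e σ.y B) T - th)) +
        pr0 n k P.e σ.y * Real.exp (-(P.a / DD n k) * (S n k (up0 n k P.e σ.y) T - th)) ≤
        gs * Real.exp X := by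
      rw [hgs, ← Real.exp_add]
      exact key
    have hold : tT P s T σ = gs * Real.exp (P.c * P.e) * K1 := by
      have h1 := tT_pos P s T σ.y σ.C σ.st hc
      refine h1.trans ?_
      rw [hgs, hK1, ← Real.exp_add, ← Real.exp_add]
      congr 1
      push_cast
      ring
    rw [hold]
    calc _ ≤ (gs * Real.exp X) * K1 + P.e * P.rho * (3 * gs * K1) := by
          nlinarith [mul_le_mul_of_nonneg_right key' hK0.le, hnearp]
      _ = gs * (Real.exp X + 3 * P.rho * P.e) * K1 := by ring
      _ ≤ gs * Real.exp (P.c * P.e) * K1 := by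
          refine mul_le_mul_of_nonneg_right ?_ hK0.le
          exact mul_le_mul_of_nonneg_left hfin hgs0.le

theorem avg_PT (P : Par n k) (s : ℕ) (t : ℝ) {σ : Sta n} (g : Good P σ) :
    Ex k P.e t σ (P.PT (s + 1)) ≤ P.PT s σ := by
  have h1 : P.PT (s + 1) = fun σ' => ∑ T ∈ KS n k, tT P (s + 1) T σ' := by
    funext σ'
    exact PT_eq P (s + 1) σ'
  rw [h1, Ex_sum, PT_eq]
  exact sum_le_sum fun T hT => one_T P s t g hT

end Pool.Agent.H70.KP
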