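import Pool.Agent.H70.KP.CB

/-!
# [H70 KP PC] number of pairs at distance d

* ball_card: for A in KS, a k-set B with (B \ A).card = d is determined by the pair (A \ B, B \ A):
  B = (A \ (A \ B)) u (B \ A). A \ B is a subset of A with d elements (sd_symm): C(k,d) <= k^d
  possibilities (Nat.choose_le_pow); B \ A is a subset of Fin n with d elements: C(n,d) <= n^d.
* PS_one: sum over A in KS (C(n,k) terms) of the number of B.
* pd_pos: C(n,k) > 0 and k n > 0.
* PS_nonneg, PS_congr: clear.
-/

namespace Pool.Agent.H70.KP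

open Finset
open Pool.Agent.H70.KG (KS DD S gf up0 up pr pr0)

variable {n k : ℕ}

theorem ball_card {A : Finset (Fin n)} (hA : A ∈ KS n k) (d : ℕ) :
    (((KS n k).filter (fun B => (B \ A).card = d)).card : ℝ) ≤ ((k : ℝ) * n) ^ d := by
  have hAk : A.card = k := mem_KS.mp hA
  have h1 : ((KS n k).filter (fun B => (B \ A).card = d)).card ≤
      (A.powersetCard d ×ˢ (univ : Finset (Fin n)).powersetCard d).card := by
    refine card_le_card_of_injOn (fun B => (A \ B, B \ A)) ?_ ?_
    · intro B hB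
      obtain ⟨hB1, hB2⟩ := mem_filter.1 (mem_coe.1 hB)
      refine mem_coe.2 (mem_product.2 ⟨?_, ?_⟩)
      · refine mem_powersetCard.mpr ⟨sdiff_subset, ?_⟩
        show (A \ B).card = d
        rw [sd_symm hA hB1]
        exact hB2
      · exact mem_powersetCard.mpr ⟨subset_univ _, hB2⟩
    · intro T _ T' _ h
      have h2 : A \ T = A \ T' := congrArg Prod.fst h
      have h3 : T \ A = T' \ A := congrArg Prod.snd h
      ext x
      have h4 := Finset.ext_iff.1 h2 x
      have h5 := Finset.ext_iff.1 h3 x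
      simp only [mem_sdiff] at h4 h5
      tauto
  rw [card_product, card_powersetCard, card_powersetCard, card_univ, Fintype.card_fin, hAk] at h1
  have h2 : k.choose d * n.choose d ≤ k ^ d * n ^ d :=
    Nat.mul_le_mul (Nat.choose_le_pow k d) (Nat.choose_le_pow n d)
  rw [mul_pow]
  exact_mod_cast h1.trans h2

theorem PS_one (d : ℕ) : PS n k d (fun _ => 1) ≤ pd n k d := by
  unfold PS pd
  have h1 : ∀ A ∈ KS n k, ∑ B ∈ (KS n k).filter (fun B => (B \ A).card = d), (1 : ℝ) * 1 ≤
      ((k : ℝ) * n) ^ d := by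
    intro A hA
    rw [sum_const, nsmul_eq_mul, mul_one, mul_one]
    exact ball_card hA d
  refine (sum_le_sum h1).trans (le_of_eq ?_)
  rw [sum_const, nsmul_eq_mul, card_KS]

theorem pd_pos (hk : 1 ≤ k) (h : 2 * k ≤ n) (d : ℕ) : 0 < pd n k d := by
  have h4 : (0 : ℝ) < n.choose k := by exact_mod_cast Nat.choose_pos (by omega)
  have h5 : (0 : ℝ) < k := by exact_mod_cast (by omega : 0 < k)
  have h6 : (0 : ℝ) < n := by exact_mod_cast (by omega : 0 < n)
  unfold pd
  positivity

theorem PS_nonneg {y : Finset (Fin n) → ℝ} (hy : ∀ A ∈ KS n k, 0 ≤ y A) (d : ℕ) :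
    0 ≤ PS n k d y := by
  unfold PS
  exact sum_nonneg fun A hA => sum_nonneg fun B hB =>
    mul_nonneg (hy A hA) (hy B (mem_filter.mp hB).1)

end Pool.Agent.H70.KP
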