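import Pool.Agent.H70.KP.TR
import Pool.Agent.H70.KP.PC
import Pool.Agent.H70.KP.PB

/-!
# [H70 KP RO] reading off the terms of the potential

All parts of Phi are >= 0 (weights >= 0, s <= tau), so each part, and each summand of each part, is
<= 4^n. For the parts multiplied by WW = 4^n / (8 n) the rest is <= 8 n. PP/pd <= 8 n; KK/K0 <= 8 n and
8 n K0 < 1 (Par.K0_lt); GG/G0 <= 8 n. pd, K0, G0 > 0.
-/

namespace Pool.Agent.H70.KP

open Finset
open Pool.Agent.H70.KG (KS DD S gf up0 up pr pr0)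

variable {n k : ℕ}

theorem PP_nonneg (P : Par n k) (s d : ℕ) {y : Finset (Fin n) → ℝ} (hy : ∀ A ∈ KS n k, 0 ≤ y A) :
    0 ≤ P.PP s d y :=
  mul_nonneg (Real.exp_pos _).le (PS_nonneg hy d)

private theorem tau_sub (P : Par n k) {s : ℕ} (hs : s ≤ P.tau) : 0 ≤ (P.tau : ℝ) - s := by
  have h1 : (s : ℝ) ≤ P.tau := by exact_mod_cast hs
  linarith

private theorem HH_nonneg (P : Par n k) {s : ℕ} (hs : s ≤ P.tau) {σ : Sta n}
    (hy : ∀ A ∈ KS n k, 0 ≤ σ.y A) : 0 ≤ P.HH s σ := by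
  have hD := P.D_pos
  have he := P.e0
  have h2 := tau_sub P hs
  unfold Par.HH
  refine add_nonneg ?_ (mul_nonneg (by positivity) (sum_nonneg fun d _ =>
    mul_nonneg (Real.exp_pos _).le (PP_nonneg P s d hy)))
  unfold Par.RR
  exact sum_nonneg fun B _ => sum_nonneg fun A hA => hy A (mem_filter.mp hA).1

private theorem bad_nonneg (P : Par n k) (σ : Sta n) : 0 ≤ P.bad σ := by
  unfold Par.bad
  exact sum_nonneg fun B _ => Nat.cast_nonneg _

theorem bad_le_KK (P : Par n k) {s : ℕ} (hs : s ≤ P.tau) {σ : Sta n}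
    (hy : ∀ A ∈ KS n k, 0 ≤ σ.y A) : P.bad σ ≤ P.KK s σ := by
  have hD := P.D_pos
  have he := P.e0
  have h2 := tau_sub P hs
  have h3 := HH_nonneg P hs hy
  have h4 : 0 ≤ 2 * P.e * ((P.tau : ℝ) - s) / DD n k := by positivity
  unfold Par.KK
  linarith [mul_nonneg h4 h3]

theorem KK_nonneg (P : Par n k) {s : ℕ} (hs : s ≤ P.tau) {σ : Sta n}
    (hy : ∀ A ∈ KS n k, 0 ≤ σ.y A) : 0 ≤ P.KK s σ :=
  (bad_nonneg P σ).trans (bad_le_KK P hs hy)

theorem GG_nonneg (P : Par n k) {s : ℕ} (hs : s ≤ P.tau) (d : ℕ) {σ : Sta n}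
    (hy : ∀ A ∈ KS n k, 0 ≤ σ.y A) : 0 ≤ P.GG s d σ := by
  have hD := P.D_pos
  have he := P.e0
  have h2 := tau_sub P hs
  unfold Par.GG
  refine add_nonneg (sum_nonneg fun B _ => mul_nonneg (Real.exp_pos _).le
    (sum_nonneg fun A hA => hy A (mem_filter.mp hA).1)) ?_
  exact mul_nonneg (by positivity) (PP_nonneg P s d hy)

theorem PQ_nonneg (P : Par n k) (s : ℕ) {y : Finset (Fin n) → ℝ} (hy : ∀ A ∈ KS n k, 0 ≤ y A) :
    0 ≤ P.PQ s y := by
  unfold Par.PQ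
  refine mul_nonneg (Real.exp_pos _).le (add_nonneg (sum_nonneg fun V _ => ?_)
    (sum_nonneg fun V _ => ?_))
  · exact div_nonneg (TS_nonneg (dis_sub n k V) hy n) (pow_nonneg (Nat.cast_nonneg _) _)
  · exact div_nonneg (TS_nonneg (nea_sub n k P.j V) hy n) (pow_nonneg (Nat.cast_nonneg _) _)

private theorem PV_nonneg (P : Par n k) (s : ℕ) (y : Finset (Fin n) → ℝ) : 0 ≤ P.PV s y := by
  unfold Par.PV
  exact sum_nonneg fun V _ => (Real.exp_pos _).le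

private theorem PT_nonneg (P : Par n k) (s : ℕ) (σ : Sta n) : 0 ≤ P.PT s σ := by
  unfold Par.PT
  exact sum_nonneg fun V _ => (Real.exp_pos _).le

private theorem parts {P : Par n k} {s : ℕ} {σ : Sta n} (b : Base P s σ) :
    P.PV s σ.y ≤ 4 ^ n ∧ P.PT s σ ≤ 4 ^ n ∧ P.PQ s σ.y ≤ 4 ^ n ∧
      WW n * (∑ d ∈ Ico 1 (2 * P.j), P.PP s d σ.y / pd n k d) ≤ 4 ^ n ∧
      WW n * (P.KK s σ / P.K0) ≤ 4 ^ n ∧
      WW n * (∑ d ∈ Ico 1 P.j, P.GG s d σ / P.G0 d) ≤ 4 ^ n := by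
  have h := b.phi
  unfold Par.Phi at h
  have hW := P.WW_pos.le
  have h1 := PV_nonneg P s σ.y
  have h2 := PT_nonneg P s σ
  have h3 := PQ_nonneg P s b.nonneg
  have h4 : 0 ≤ WW n * (∑ d ∈ Ico 1 (2 * P.j), P.PP s d σ.y / pd n k d) :=
    mul_nonneg hW (sum_nonneg fun d _ => div_nonneg (PP_nonneg P s d b.nonneg) (P.pd_pos d).le)
  have h5 : 0 ≤ WW n * (P.KK s σ / P.K0) :=
    mul_nonneg hW (div_nonneg (KK_nonneg P b.hs b.nonneg) P.K0_pos.le)
  have h6 : 0 ≤ WW n * (∑ d ∈ Ico 1 P.j, P.GG s d σ / P.G0 d) :=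
    mul_nonneg hW (sum_nonneg fun d _ =>
      div_nonneg (GG_nonneg P b.hs d b.nonneg) (P.G0_pos d).le)
  refine ⟨?_, ?_, ?_, ?_, ?_, ?_⟩ <;> linarith

private theorem of_WW (P : Par n k) {X : ℝ} (h : WW n * X ≤ 4 ^ n) : X ≤ 8 * n := by
  have hW := P.WW_pos
  have hn := P.n_pos
  have h1 : WW n * (8 * n) = 4 ^ n := by
    unfold WW
    field_simp
  rw [← h1] at h
  exact le_of_mul_le_mul_left h hW

theorem read_V {P : Par n k} {s : ℕ} {σ : Sta n} (b : Base P s σ) {V : Finset (Fin n)}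
    (hV : V ∈ P.Vc) :
    Real.exp (P.a1 / sz n k V.card * (S n k σ.y V - sz n k V.card) - P.c * (P.e * s)) ≤ 4 ^ n := by
  refine le_trans ?_ (parts b).1
  unfold Par.PV
  exact single_le_sum (f := fun V => Real.exp (P.a1 / sz n k V.card *
    (S n k σ.y V - sz n k V.card) - P.c * (P.e * s))) (fun _ _ => (Real.exp_pos _).le) hV

theorem read_T {P : Par n k} {s : ℕ} {σ : Sta n} (b : Base P s σ) {T : Finset (Fin n)}
    (hT : T ∈ KS n k) (hc : (nc P.j σ.C T).card ≤ 1) :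
    Real.exp (-(P.a / DD n k) * (S n k σ.y T - tg k P.j σ.C T * DD n k) - P.c * (P.e * s)) ≤
      4 ^ n := by
  refine le_trans ?_ (parts b).2.1
  unfold Par.PT
  exact single_le_sum (f := fun T => Real.exp (-(P.a / DD n k) *
    (S n k σ.y T - tg k P.j σ.C T * DD n k) - P.c * (P.e * s)))
    (fun _ _ => (Real.exp_pos _).le) (mem_filter.mpr ⟨hT, hc⟩)

theorem read_Qd {P : Par n k} {s : ℕ} {σ : Sta n} (b : Base P s σ) {V : Finset (Fin n)}
    (hV : V ∈ P.Vd) :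
    Real.exp (-((n : ℝ) ^ 2 * P.rho * (P.e * s))) *
      (TS P.j n σ.y (dis n k V) / ((dis n k V).card : ℝ) ^ n) ≤ 4 ^ n := by
  refine le_trans ?_ (parts b).2.2.1
  unfold Par.PQ
  refine mul_le_mul_of_nonneg_left ?_ (Real.exp_pos _).le
  have h1 := single_le_sum (f := fun V => TS P.j n σ.y (dis n k V) /
    ((dis n k V).card : ℝ) ^ n) (fun V _ => div_nonneg (TS_nonneg (dis_sub n k V) b.nonneg n)
      (pow_nonneg (Nat.cast_nonneg _) _)) hV
  have h2 : 0 ≤ ∑ V ∈ P.Vc, TS P.j n σ.y (nea n k P.j V) / ((nea n k P.j V).card : ℝ) ^ n :=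
    sum_nonneg fun V _ => div_nonneg (TS_nonneg (nea_sub n k P.j V) b.nonneg n)
      (pow_nonneg (Nat.cast_nonneg _) _)
  exact h1.trans (le_add_of_nonneg_right h2)

theorem read_Qn {P : Par n k} {s : ℕ} {σ : Sta n} (b : Base P s σ) {V : Finset (Fin n)}
    (hV : V ∈ P.Vc) :
    Real.exp (-((n : ℝ) ^ 2 * P.rho * (P.e * s))) *
      (TS P.j n σ.y (nea n k P.j V) / ((nea n k P.j V).card : ℝ) ^ n) ≤ 4 ^ n := by
  refine le_trans ?_ (parts b).2.2.1
  unfold Par.PQ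
  refine mul_le_mul_of_nonneg_left ?_ (Real.exp_pos _).le
  have h1 := single_le_sum (f := fun V => TS P.j n σ.y (nea n k P.j V) /
    ((nea n k P.j V).card : ℝ) ^ n) (fun V _ => div_nonneg
      (TS_nonneg (nea_sub n k P.j V) b.nonneg n) (pow_nonneg (Nat.cast_nonneg _) _)) hV
  have h2 : 0 ≤ ∑ V ∈ P.Vd, TS P.j n σ.y (dis n k V) / ((dis n k V).card : ℝ) ^ n :=
    sum_nonneg fun V _ => div_nonneg (TS_nonneg (dis_sub n k V) b.nonneg n)
      (pow_nonneg (Nat.cast_nonneg _) _)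
  exact h1.trans (le_add_of_nonneg_left h2)

theorem read_P {P : Par n k} {s : ℕ} {σ : Sta n} (b : Base P s σ) {d : ℕ}
    (hd : d ∈ Ico 1 (2 * P.j)) : P.PP s d σ.y ≤ 8 * n * pd n k d := by
  have h1 := of_WW P (parts b).2.2.2.1
  have h2 := single_le_sum (f := fun d => P.PP s d σ.y / pd n k d)
    (fun d _ => div_nonneg (PP_nonneg P s d b.nonneg) (P.pd_pos d).le) hd
  have h3 := h2.trans h1
  exact (div_le_iff₀ (P.pd_pos d)).mp h3

theorem read_K {P : Par n k} {s : ℕ} {σ : Sta n} (b : Base P s σ) : P.KK s σ < 1 := by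
  have h1 := of_WW P (parts b).2.2.2.2.1
  have h2 := (div_le_iff₀ P.K0_pos).mp h1
  exact lt_of_le_of_lt h2 P.K0_lt

theorem read_G {P : Par n k} {s : ℕ} {σ : Sta n} (b : Base P s σ) {d : ℕ}
    (hd : d ∈ Ico 1 P.j) : P.GG s d σ ≤ 8 * n * P.G0 d := by
  have h1 := of_WW P (parts b).2.2.2.2.2
  have h2 := single_le_sum (f := fun d => P.GG s d σ / P.G0 d)
    (fun d _ => div_nonneg (GG_nonneg P b.hs d b.nonneg) (P.G0_pos d).le) hd
  exact (div_le_iff₀ (P.G0_pos d)).mp (h2.trans h1)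

end Pool.Agent.H70.KP
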