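import Pool.Agent.H70.KP.AV
import Pool.Agent.H70.KP.AQ
import Pool.Agent.H70.KP.AK
import Pool.Agent.H70.KP.AG
import Pool.Agent.H70.KP.AT
import Pool.Agent.H70.KP.RO

/-!
# [H70 KP AA] average of the potential and a good choice

avg_Phi: Ex is linear (EO). PV, PQ, PP are functionals of the weights: Ex_y with module LO, then avg_PV,
avg_PQ, avg_PP; PT, KK, GG: avg_PT, avg_KK, avg_GG with t = e s. WW n > 0, pd, K0, G0 > 0.
good_choice: the weights of Ex are pr B >= 0 (B in KS, not in C) and pr0 + (sum over C) >= 0 with total 1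
(Ex_const). If Phi (s+1) (stay) <= Phi s take stay. Otherwise, if no B in KS \ C with pr B > 0 has
Phi (s+1) (pick B) <= Phi s, then Ex > Phi s: all terms of positive weight are > Phi s, a contradiction
(total weight is 1 > 0). pr B > 0 implies y B > 0 (e > 0, DD > 0).
-/

namespace Pool.Agent.H70.KP

open Finset
open Pool.Agent.H70.KG (KS DD S gf up0 up pr pr0)

variable {n k : ℕ}

private theorem Ex_div {e t : ℝ} {σ : Sta n} (c : ℝ) (F : Sta n → ℝ) :
    Ex k e t σ (fun σ' => F σ' / c) = Ex k e t σ F / c := by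
  have h1 : (fun σ' : Sta n => F σ' / c) = fun σ' => c⁻¹ * F σ' := by
    funext σ'
    rw [div_eq_inv_mul]
  rw [h1, Ex_mul, div_eq_inv_mul]

theorem avg_Phi (P : Par n k) (s : ℕ) (hs : s < P.tau) {σ : Sta n} (g : Good P σ) :
    Ex k P.e (P.e * s) σ (P.Phi (s + 1)) ≤ P.Phi s σ := by
  have hW := P.WW_pos.le
  have hPhi : P.Phi (s + 1) = fun σ' : Sta n =>
      (fun σ' : Sta n => P.PV (s + 1) σ'.y) σ' + P.PT (s + 1) σ' +
        (fun σ' : Sta n => P.PQ (s + 1) σ'.y) σ' +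
      WW n * (fun σ' : Sta n => ∑ d ∈ Ico 1 (2 * P.j),
        (fun (d : ℕ) (σ' : Sta n) => (fun σ' : Sta n => P.PP (s + 1) d σ'.y) σ' / pd n k d) d
          σ') σ' +
      WW n * (fun σ' : Sta n => P.KK (s + 1) σ' / P.K0) σ' +
      WW n * (fun σ' : Sta n => ∑ d ∈ Ico 1 P.j,
        (fun (d : ℕ) (σ' : Sta n) => (fun σ' : Sta n => P.GG (s + 1) d σ') σ' / P.G0 d) d
          σ') σ' := rfl
  rw [hPhi, Ex_add, Ex_add, Ex_add, Ex_add, Ex_add, Ex_mul, Ex_mul, Ex_mul, Ex_sum, Ex_sum,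
    Ex_div]
  have h1 : Ex k P.e (P.e * s) σ (fun σ' : Sta n => P.PV (s + 1) σ'.y) ≤ P.PV s σ.y := by
    rw [Ex_y g.dead (fun y y' hy => PV_congr P (s + 1) hy)]
    exact avg_PV P s g
  have h2 : Ex k P.e (P.e * s) σ (fun σ' : Sta n => P.PT (s + 1) σ') ≤ P.PT s σ :=
    avg_PT P s (P.e * s) g
  have h3 : Ex k P.e (P.e * s) σ (fun σ' : Sta n => P.PQ (s + 1) σ'.y) ≤ P.PQ s σ.y := by
    rw [Ex_y g.dead (fun y y' hy => PQ_congr P (s + 1) hy)]
    exact avg_PQ P s g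
  have h4 : ∑ d ∈ Ico 1 (2 * P.j), Ex k P.e (P.e * s) σ
      (fun σ' : Sta n => (fun σ' : Sta n => P.PP (s + 1) d σ'.y) σ' / pd n k d) ≤
      ∑ d ∈ Ico 1 (2 * P.j), P.PP s d σ.y / pd n k d := by
    refine sum_le_sum fun d hd => ?_
    rw [Ex_div, Ex_y g.dead (fun y y' hy => PP_congr P (s + 1) d hy)]
    exact div_le_div_of_nonneg_right (avg_PP P s d (mem_Ico.mp hd).2 g) (P.pd_pos d).le
  have h5 : Ex k P.e (P.e * s) σ (fun σ' : Sta n => P.KK (s + 1) σ') / P.K0 ≤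
      P.KK s σ / P.K0 :=
    div_le_div_of_nonneg_right (avg_KK P s hs (P.e * s) g) P.K0_pos.le
  have h6 : ∑ d ∈ Ico 1 P.j, Ex k P.e (P.e * s) σ
      (fun σ' : Sta n => (fun σ' : Sta n => P.GG (s + 1) d σ') σ' / P.G0 d) ≤
      ∑ d ∈ Ico 1 P.j, P.GG s d σ / P.G0 d := by
    refine sum_le_sum fun d hd => ?_
    rw [Ex_div]
    exact div_le_div_of_nonneg_right (avg_GG P s d hs (mem_Ico.mp hd).2 g) (P.G0_pos d).le
  unfold Par.Phi
  exact add_le_add (add_le_add (add_le_add (add_le_add (add_le_add h1 h2) h3)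
    (mul_le_mul_of_nonneg_left h4 hW)) (mul_le_mul_of_nonneg_left h5 hW))
    (mul_le_mul_of_nonneg_left h6 hW)

theorem good_choice (P : Par n k) (s : ℕ) (hs : s < P.tau) {σ : Sta n} (g : Good P σ) :
    P.Phi (s + 1) (σ.stay k P.e) ≤ P.Phi s σ ∨
      ∃ B ∈ KS n k, B ∉ σ.C ∧ 0 < σ.y B ∧
        P.Phi (s + 1) (σ.pick k P.e (P.e * s) B) ≤ P.Phi s σ := by
  by_contra hcon
  push Not at hcon
  obtain ⟨hst, hpk⟩ := hcon
  have hD := P.D_pos
  have he := P.e0
  have havg := avg_Phi P s hs g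
  have hone := Ex_const (n := n) (k := k) (e := P.e) (t := P.e * s) σ 1
  have hcst := Ex_const (n := n) (k := k) (e := P.e) (t := P.e * s) σ (P.Phi s σ)
  unfold Ex at havg hone hcst
  set p := fun B => pr n k P.e σ.y B with hp
  set q := pr0 n k P.e σ.y + ∑ B ∈ (KS n k).filter (fun B => B ∈ σ.C), pr n k P.e σ.y B with hq
  have hq0 : 0 ≤ q := add_nonneg g.mild.p0 (sum_nonneg fun B hB =>
    pr_nonneg g.mild (mem_filter.mp hB).1)
  have hypos : ∀ B, 0 < pr n k P.e σ.y B → 0 < σ.y B := by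
    intro B hB
    unfold Pool.Agent.H70.KG.pr at hB
    by_contra h
    push Not at h
    have h1 : P.e * σ.y B / DD n k ≤ 0 :=
      div_nonpos_of_nonpos_of_nonneg (mul_nonpos_of_nonneg_of_nonpos he.le h) hD.le
    linarith
  have hterm : ∀ B ∈ (KS n k).filter (fun B => B ∉ σ.C),
      pr n k P.e σ.y B * P.Phi s σ ≤
        pr n k P.e σ.y B * P.Phi (s + 1) (σ.pick k P.e (P.e * s) B) := by
    intro B hB
    obtain ⟨hB1, hB2⟩ := mem_filter.mp hB
    rcases (pr_nonneg g.mild hB1).eq_or_lt with h1 | h1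
    · rw [← h1, zero_mul, zero_mul]
    · exact mul_le_mul_of_nonneg_left (hpk B hB1 hB2 (hypos B h1)).le h1.le
  by_cases hex : ∃ B ∈ (KS n k).filter (fun B => B ∉ σ.C), 0 < pr n k P.e σ.y B
  · obtain ⟨B, hB, hB0⟩ := hex
    obtain ⟨hB1, hB2⟩ := mem_filter.mp hB
    have h1 : ∑ B ∈ (KS n k).filter (fun B => B ∉ σ.C), pr n k P.e σ.y B * P.Phi s σ <
        ∑ B ∈ (KS n k).filter (fun B => B ∉ σ.C),
          pr n k P.e σ.y B * P.Phi (s + 1) (σ.pick k P.e (P.e * s) B) :=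
      sum_lt_sum hterm ⟨B, hB, mul_lt_mul_of_pos_left (hpk B hB1 hB2 (hypos B hB0)) hB0⟩
    have h2 : q * P.Phi s σ ≤ q * P.Phi (s + 1) (σ.stay k P.e) :=
      mul_le_mul_of_nonneg_left hst.le hq0
    linarith
  · push Not at hex
    have h1 : ∑ B ∈ (KS n k).filter (fun B => B ∉ σ.C), pr n k P.e σ.y B * 1 = 0 := by
      refine sum_eq_zero fun B hB => ?_
      have h2 := hex B hB
      have h3 := pr_nonneg g.mild (mem_filter.mp hB).1
      have h4 : pr n k P.e σ.y B = 0 := le_antisymm h2 h3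
      rw [h4, zero_mul]
    have h2 : q = 1 := by
      rw [h1] at hone
      linarith
    have h3 := sum_le_sum hterm
    have h4 : q * P.Phi s σ < q * P.Phi (s + 1) (σ.stay k P.e) := by
      rw [h2]
      linarith
    linarith

end Pool.Agent.H70.KP
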