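import Pool.Agent.H70.KP.PM
import Pool.Agent.H70.KP.PC
import Pool.Agent.H70.KP.PB

/-!
# [H70 KP AP] average of the pair sums

For A, B in KS with (B \ A).card = d: A u B has k + d elements (union_card), k + d < k + 2 j, so
S (A u B) <= (1 + d1) sz n k (k + d) = (1 + d1) r_d DD (Good.upp, rr_mul). pair_moment: factor
1 + (1 + 16 e)(1 + d1) e r_d <= 1 + (1 + 3 del) e r_d <= exp ((1 + 3 del) r_d e), because 16 e <= del,
2 d1 <= del, del <= 1/2: (1 + del)(1 + del/2) <= 1 + 3 del. Sum over the pairs (weights >= 0), and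
multiply by exp (-(1 + 3 del) r_d (e (s+1))).
-/

namespace Pool.Agent.H70.KP

open Finset
open Pool.Agent.H70.KG (KS DD S gf up0 up pr pr0)

variable {n k : ℕ}

private theorem pair_bound (P : Par n k) {d : ℕ} (hd : d < 2 * P.j) {σ : Sta n} (g : Good P σ)
    {A B : Finset (Fin n)} (hA : A ∈ KS n k) (hB : B ∈ KS n k) (hAB : (B \ A).card = d) :
    E1 n k P.e σ.y (fun y' => y' A * y' B) ≤
      Real.exp ((1 + 3 * P.del) * rr n k d * P.e) * (σ.y A * σ.y B) := by
  have hD := P.D_pos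
  have he := P.e0
  have hdel := P.del0
  have hd1 := P.d10
  have hAc : A.card = k := mem_KS.mp hA
  have hc : (A ∪ B).card = k + d := by rw [union_card, hAc, hAB]
  have h1 := g.upp (A ∪ B) (by omega) (by omega)
  rw [hc, ← rr_mul hD] at h1
  have hr := rr_nonneg n k d
  have h2 : P.e * S n k σ.y (A ∪ B) / DD n k ≤ (1 + P.d1) * rr n k d * P.e := by
    rw [div_le_iff₀ hD]
    have := mul_le_mul_of_nonneg_left h1 he.le
    linarith
  have h3 : (1 + 16 * P.e) * (P.e * S n k σ.y (A ∪ B) / DD n k) ≤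
      (1 + 3 * P.del) * rr n k d * P.e := by
    have h4 : (1 + 16 * P.e) * (1 + P.d1) ≤ 1 + 3 * P.del := by
      have h5 := P.e1
      have h6 := P.d1le
      have h7 := P.del1
      calc (1 + 16 * P.e) * (1 + P.d1) ≤ (1 + P.del) * (1 + P.del / 2) :=
            mul_le_mul (by linarith) (by linarith) (by linarith) (by linarith)
        _ ≤ 1 + 3 * P.del := by nlinarith
    have h5 : 0 ≤ rr n k d * P.e := mul_nonneg hr he.le
    calc (1 + 16 * P.e) * (P.e * S n k σ.y (A ∪ B) / DD n k)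
        ≤ (1 + 16 * P.e) * ((1 + P.d1) * rr n k d * P.e) :=
          mul_le_mul_of_nonneg_left h2 (by linarith)
      _ = ((1 + 16 * P.e) * (1 + P.d1)) * (rr n k d * P.e) := by ring
      _ ≤ (1 + 3 * P.del) * (rr n k d * P.e) := mul_le_mul_of_nonneg_right h4 h5
      _ = (1 + 3 * P.del) * rr n k d * P.e := by ring
  have h4 := Real.add_one_le_exp ((1 + 3 * P.del) * rr n k d * P.e)
  have h5 : 0 ≤ σ.y A * σ.y B := mul_nonneg (g.mild.nonneg A hA) (g.mild.nonneg B hB)
  refine (pair_moment g.mild hA hB).trans ?_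
  rw [mul_comm (Real.exp _)]
  exact mul_le_mul_of_nonneg_left (by linarith) h5

theorem avg_PP (P : Par n k) (s d : ℕ) (hd : d < 2 * P.j) {σ : Sta n} (g : Good P σ) :
    E1 n k P.e σ.y (P.PP (s + 1) d) ≤ P.PP s d σ.y := by
  have h1 : P.PP (s + 1) d = fun y' =>
      Real.exp (-((1 + 3 * P.del) * rr n k d * (P.e * ((s + 1 : ℕ) : ℝ)))) *
        (fun y' => ∑ A ∈ KS n k, ∑ B ∈ (KS n k).filter (fun B => (B \ A).card = d),
          y' A * y' B) y' := rfl
  rw [h1, E1_mul, E1_sum]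
  have h2 : ∑ A ∈ KS n k, E1 n k P.e σ.y (fun y' =>
        ∑ B ∈ (KS n k).filter (fun B => (B \ A).card = d), y' A * y' B) ≤
      Real.exp ((1 + 3 * P.del) * rr n k d * P.e) * PS n k d σ.y := by
    unfold PS
    rw [mul_sum]
    refine sum_le_sum fun A hA => ?_
    rw [E1_sum, mul_sum]
    refine sum_le_sum fun B hB => ?_
    obtain ⟨hB1, hB2⟩ := mem_filter.mp hB
    exact pair_bound P hd g hA hB1 hB2
  refine (mul_le_mul_of_nonneg_left h2 (Real.exp_pos _).le).trans (le_of_eq ?_)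
  unfold Par.PP
  rw [← mul_assoc, ← Real.exp_add]
  congr 2
  push_cast
  ring

end Pool.Agent.H70.KP
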