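import Pool.Agent.H70.KP.RS
import Pool.Agent.H70.KP.AP

/-!
# [H70 KP AH] average of HH

near_step with q d = (1 <= d and d < 2 j), v = 1, and sum_pairs: Ex RR <= RR + (2 e / DD) sum over d in
Ico 1 (2 j) of PS d. Ex_y (PP is local, module LO) and avg_PP: Ex (PP (s+1) d) <= PP s d. And
PS d <= exp ((1 + 3 del) r_d (e tau)) * PP s d, because PP s d = exp (-(1 + 3 del) r_d (e s)) PS d and
s <= tau. So Ex (HH (s+1)) <= RR + (2e/DD) (sum of exp * PP s d) + (2 e (tau - s - 1)/DD) (same sum)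
= HH s. (tau - (s+1) >= 0.)
-/

namespace Pool.Agent.H70.KP

open Finset
open Pool.Agent.H70.KG (KS DD S gf up0 up pr pr0)

variable {n k : ℕ}

theorem PS_le_PP (P : Par n k) {s : ℕ} (hs : s ≤ P.tau) (d : ℕ) {y : Finset (Fin n) → ℝ}
    (hy : ∀ A ∈ KS n k, 0 ≤ y A) :
    PS n k d y ≤ Real.exp ((1 + 3 * P.del) * rr n k d * (P.e * P.tau)) * P.PP s d y := by
  unfold Par.PP
  rw [← mul_assoc, ← Real.exp_add]
  have h1 : 0 ≤ (1 + 3 * P.del) * rr n k d := mul_nonneg (by linarith [P.del0]) (rr_nonneg n k d)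
  have h2 : (s : ℝ) ≤ P.tau := by exact_mod_cast hs
  have h3 : P.e * s ≤ P.e * P.tau := mul_le_mul_of_nonneg_left h2 P.e0.le
  have h4 := mul_le_mul_of_nonneg_left h3 h1
  have h5 : 1 ≤ Real.exp ((1 + 3 * P.del) * rr n k d * (P.e * P.tau) +
      -((1 + 3 * P.del) * rr n k d * (P.e * s))) := Real.one_le_exp (by linarith)
  exact le_mul_of_one_le_left (PS_nonneg hy d) h5

private theorem RR_step (P : Par n k) (t : ℝ) {σ : Sta n} (g : Good P σ) :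
    Ex k P.e t σ P.RR ≤ P.RR σ + 2 * P.e / DD n k * ∑ d ∈ Ico 1 (2 * P.j), PS n k d σ.y := by
  have h1 : P.RR = fun σ' : Sta n => ∑ B ∈ σ'.C, (fun _ : ℝ => (1 : ℝ)) (σ'.st B) *
      ∑ A ∈ (KS n k).filter (fun A => (fun m : ℕ => 1 ≤ m ∧ m < 2 * P.j) (A \ B).card),
        σ'.y A := by
    funext σ'
    unfold Par.RR
    exact sum_congr rfl fun B _ => (one_mul _).symm
  have h2 := near_step (e := P.e) (t := t) g.mild g.dead g.sub
    (fun m : ℕ => 1 ≤ m ∧ m < 2 * P.j) (fun _ : ℝ => (1 : ℝ)) (fun _ => zero_le_one)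
  rw [← h1] at h2
  have h3 : ∑ B ∈ σ.C, (fun _ : ℝ => (1 : ℝ)) (σ.st B) *
      ∑ A ∈ (KS n k).filter (fun A => (fun m : ℕ => 1 ≤ m ∧ m < 2 * P.j) (A \ B).card),
        σ.y A = P.RR σ := (congrFun h1 σ).symm
  rw [h3] at h2
  refine h2.trans (le_of_eq ?_)
  rw [one_mul, sum_pairs]

theorem avg_HH (P : Par n k) (s : ℕ) (hs : s < P.tau) (t : ℝ) {σ : Sta n} (g : Good P σ) :
    Ex k P.e t σ (P.HH (s + 1)) ≤ P.HH s σ := by
  have hD := P.D_pos
  have he := P.e0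
  have hs1 : ((s + 1 : ℕ) : ℝ) ≤ P.tau := by exact_mod_cast hs
  push_cast at hs1
  have h1 : P.HH (s + 1) = fun σ' : Sta n => P.RR σ' +
      (fun σ' : Sta n => 2 * P.e * ((P.tau : ℝ) - ((s + 1 : ℕ) : ℝ)) / DD n k *
        (fun σ' : Sta n => ∑ d ∈ Ico 1 (2 * P.j),
          (fun (d : ℕ) (σ' : Sta n) => Real.exp ((1 + 3 * P.del) * rr n k d * (P.e * P.tau)) *
            (fun σ' : Sta n => P.PP (s + 1) d σ'.y) σ') d σ') σ') σ' := rfl
  rw [h1, Ex_add, Ex_mul, Ex_sum]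
  have h2 := RR_step P t g
  have h3 : ∑ d ∈ Ico 1 (2 * P.j), Ex k P.e t σ
      (fun σ' : Sta n => Real.exp ((1 + 3 * P.del) * rr n k d * (P.e * P.tau)) *
            (fun σ' : Sta n => P.PP (s + 1) d σ'.y) σ') ≤
      ∑ d ∈ Ico 1 (2 * P.j), Real.exp ((1 + 3 * P.del) * rr n k d * (P.e * P.tau)) *
        P.PP s d σ.y := by
    refine sum_le_sum fun d hd => ?_
    rw [Ex_mul]
    refine mul_le_mul_of_nonneg_left ?_ (Real.exp_pos _).le
    rw [Ex_y g.dead (fun y y' hy => PP_congr P (s + 1) d hy)]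
    exact avg_PP P s d (mem_Ico.mp hd).2 g
  have h4 : ∑ d ∈ Ico 1 (2 * P.j), PS n k d σ.y ≤
      ∑ d ∈ Ico 1 (2 * P.j), Real.exp ((1 + 3 * P.del) * rr n k d * (P.e * P.tau)) *
        P.PP s d σ.y := sum_le_sum fun d _ => PS_le_PP P hs.le d g.mild.nonneg
  have h5 : 0 ≤ 2 * P.e * ((P.tau : ℝ) - ((s + 1 : ℕ) : ℝ)) / DD n k := by
    push_cast
    have : 0 ≤ (P.tau : ℝ) - (s + 1) := by linarith
    positivity
  have h6 := mul_le_mul_of_nonneg_left h3 h5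
  have h7 := mul_le_mul_of_nonneg_left h4 (by positivity : 0 ≤ 2 * P.e / DD n k)
  unfold Par.HH
  have h8 : 2 * P.e * ((P.tau : ℝ) - s) / DD n k =
      2 * P.e / DD n k + 2 * P.e * ((P.tau : ℝ) - ((s + 1 : ℕ) : ℝ)) / DD n k := by
    push_cast
    ring
  rw [h8, add_mul]
  linarith

end Pool.Agent.H70.KP
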