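import Mathlib

/-!
# [H70 KP CX] discrete convexity

g d = A x^d + b d. g (d+1) - g d = b - A x^d (1 - x) is nondecreasing in d (0 <= x <= 1, A >= 0). So if
g (d+1) - g d >= 0 for the given d then g M >= g d (all later differences are >= 0); otherwise all earlier
differences are <= 0 and g 1 >= g d.
-/

namespace Pool.Agent.H70.KP

theorem conv_max {A b x : ℝ} (hA : 0 ≤ A) (hx0 : 0 ≤ x) (hx1 : x ≤ 1) {d M : ℕ} (h1 : 1 ≤ d)
    (hM : d ≤ M) : A * x ^ d + b * d ≤ max (A * x + b) (A * x ^ M + b * M) := by
  by_cases h : A * x ^ d * (1 - x) ≤ b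
  · refine le_max_of_le_right ?_
    induction M, hM using Nat.le_induction with
    | base => exact le_rfl
    | succ M hM ih =>
      refine ih.trans ?_
      have h2 : x ^ M ≤ x ^ d := pow_le_pow_of_le_one hx0 hx1 hM
      have h3 : A * x ^ M * (1 - x) ≤ A * x ^ d * (1 - x) :=
        mul_le_mul_of_nonneg_right (mul_le_mul_of_nonneg_left h2 hA) (by linarith)
      rw [pow_succ]
      push_cast
      nlinarith
  · push Not at h
    refine le_max_of_le_left ?_
    have key : ∀ e : ℕ, 1 ≤ e → e ≤ d → A * x ^ e + b * e ≤ A * x + b := by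
      intro e he
      induction e, he using Nat.le_induction with
      | base =>
        intro _
        simp
      | succ e he ih =>
        intro hed
        have h2 : x ^ d ≤ x ^ e := pow_le_pow_of_le_one hx0 hx1 (by omega)
        have h3 : A * x ^ d * (1 - x) ≤ A * x ^ e * (1 - x) :=
          mul_le_mul_of_nonneg_right (mul_le_mul_of_nonneg_left h2 hA) (by linarith)
        have h4 := ih (by omega)
        rw [pow_succ]
        push_cast
        nlinarith
    exact key d h1 le_rfl

end Pool.Agent.H70.KP
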