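import Pool.Agent.H70.KP.CB
import Pool.Agent.H70.KG.BI

/-!
# [H70 KP DN] sizes of D, s_u, r_d for 3 k <= n

* two_pow_le_D: C(n-k,k) >= C(2k,k) >= 2^k (C(2k,k) = prod over i < k of (2k - i)/(k - i) >= 2^k; or
  induction with Nat.succ_mul_centralBinom_succ; or the Vandermonde sum C(2k,k) = sum C(k,i)^2 >=
  sum C(k,i) = 2^k, Nat.sum_range_choose_sq... ).
* log_D_ge: log 2 >= 2/3.
* sz_step: KG.choose_decay-type: C(n-(u+a),k) <= exp (-(k a / n)) C(n-u,k): induction on a with
  KG.choose_step.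
* rr_le_exp: sz_step with u = k.
* rr_le_pow: C(n-u-1,k) (n-u) = C(n-u,k) (n-u-k) (Nat.choose_mul_succ_eq), so for u >= k the ratio
  C(n-u-1,k)/C(n-u,k) = 1 - k/(n-u) <= 1 - k/(n-k); start at u = k, d steps, D > 0.
* sz_lower: for k <= u < k + 2 j <= k + n/6: n - u >= n/2, so the ratio is 1 - k/(n-u) >= 1 - 2k/n >=
  exp (-6 k/n) because -log (1-x) <= x/(1-x) <= 3 x for x = 2k/n <= 2/3. 2 j steps: exp (-12 j k/n).
  (u + 1 <= k + 2 j.)
-/

namespace Pool.Agent.H70.KP

open Pool.Agent.H70.KG (DD)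

private theorem two_pow_le_central (k : ℕ) : 2 ^ k ≤ Nat.centralBinom k := by
  induction k with
  | zero => simp
  | succ k ih =>
    have h1 := Nat.succ_mul_centralBinom_succ k
    have h2 : (k + 1) * (2 * Nat.centralBinom k) ≤ (k + 1) * Nat.centralBinom (k + 1) := by
      rw [h1]
      nlinarith [Nat.zero_le (Nat.centralBinom k)]
    have h3 := Nat.le_of_mul_le_mul_left h2 (Nat.succ_pos k)
    rw [pow_succ]
    omega

theorem two_pow_le_D {n k : ℕ} (h3 : 3 * k ≤ n) : (2 : ℝ) ^ k ≤ DD n k := by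
  have h1 : 2 ^ k ≤ (n - k).choose k := by
    refine (two_pow_le_central k).trans ?_
    rw [Nat.centralBinom]
    exact Nat.choose_le_choose k (by omega)
  unfold Pool.Agent.H70.KG.DD
  exact_mod_cast h1

private theorem D_pos' {n k : ℕ} (h3 : 3 * k ≤ n) : 0 < DD n k :=
  lt_of_lt_of_le (by positivity) (two_pow_le_D h3)

theorem log_D_ge {n k : ℕ} (h3 : 3 * k ≤ n) : 2 / 3 * (k : ℝ) ≤ Real.log (DD n k) := by
  have h1 := Real.log_le_log (by positivity) (two_pow_le_D h3)
  rw [Real.log_pow] at h1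
  have h2 := Real.log_two_gt_d9
  have h4 : (0 : ℝ) ≤ k := Nat.cast_nonneg k
  nlinarith

theorem sz_step (n k u a : ℕ) (hk : 1 ≤ k) :
    sz n k (u + a) ≤ Real.exp (-((k : ℝ) * a / n)) * sz n k u := by
  unfold sz
  induction a with
  | zero => simp
  | succ a ih =>
    have h1 := Pool.Agent.H70.KG.choose_step n k (u + a) hk
    have h2 : u + (a + 1) = u + a + 1 := by ring
    rw [h2]
    refine h1.trans ?_
    have h3 : Real.exp (-((k : ℝ) * ((a + 1 : ℕ) : ℝ) / n)) =
        Real.exp (-((k : ℝ) / n)) * Real.exp (-((k : ℝ) * a / n)) := by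
      rw [← Real.exp_add]
      congr 1
      push_cast
      ring
    rw [h3, mul_assoc]
    exact mul_le_mul_of_nonneg_left ih (Real.exp_pos _).le

theorem rr_le_exp {n k : ℕ} (hk : 1 ≤ k) (h3 : 3 * k ≤ n) (d : ℕ) :
    rr n k d ≤ Real.exp (-((k : ℝ) * d / n)) := by
  unfold rr
  rw [div_le_iff₀ (D_pos' h3)]
  exact sz_step n k k d hk

private theorem sz_succ {n k u : ℕ} (hk : 1 ≤ k) (hu : u + k < n) :
    sz n k (u + 1) = sz n k u * (1 - (k : ℝ) / ((n : ℝ) - u)) := by
  obtain ⟨M, hM⟩ : ∃ M, n - u = M + 1 := ⟨n - u - 1, by omega⟩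
  have h1 : n - (u + 1) = M := by omega
  have h2 : (n : ℝ) - u = M + 1 := by
    have : ((n - u : ℕ) : ℝ) = ((M + 1 : ℕ) : ℝ) := by rw [hM]
    rw [Nat.cast_sub (by omega)] at this
    push_cast at this
    exact this
  unfold sz
  rw [hM, h1, h2]
  have h3 : M.choose k * (M + 1) = (M + 1).choose k * (M + 1 - k) := Nat.choose_mul_succ_eq M k
  have h4 : (M.choose k : ℝ) * (M + 1) = ((M + 1).choose k : ℝ) * ((M : ℝ) + 1 - k) := by
    have : ((M.choose k * (M + 1) : ℕ) : ℝ) = (((M + 1).choose k * (M + 1 - k) : ℕ) : ℝ) := by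
      rw [h3]
    rw [Nat.cast_mul, Nat.cast_mul, Nat.cast_sub (by omega)] at this
    push_cast at this
    exact this
  have hMpos : (0 : ℝ) < (M : ℝ) + 1 := by positivity
  have h5 : (M.choose k : ℝ) = ((M + 1).choose k : ℝ) * ((M : ℝ) + 1 - k) / (M + 1) := by
    rw [← h4]
    field_simp
  rw [h5]
  field_simp

theorem rr_le_pow {n k : ℕ} (hk : 1 ≤ k) (h3 : 3 * k ≤ n) (d : ℕ) :
    rr n k d ≤ (1 - (k : ℝ) / (n - k : ℝ)) ^ d := by
  have h3' : (3 : ℝ) * k ≤ n := by exact_mod_cast h3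
  have hk0 : (0 : ℝ) < k := by exact_mod_cast (by omega : 0 < k)
  have hnk : (0 : ℝ) < (n : ℝ) - k := by linarith
  have hx : (0 : ℝ) ≤ 1 - (k : ℝ) / (n - k : ℝ) := by
    have : (k : ℝ) / (n - k : ℝ) ≤ 1 := by
      rw [div_le_one hnk]
      linarith
    linarith
  have key : sz n k (k + d) ≤ (1 - (k : ℝ) / (n - k : ℝ)) ^ d * DD n k := by
    induction d with
    | zero =>
      rw [pow_zero, one_mul]
      exact le_rfl
    | succ d ih =>
      rcases Nat.lt_or_ge (k + d + k) n with h | h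
      · rw [← add_assoc, sz_succ hk h, pow_succ, mul_comm (sz n k (k + d))]
        have h4 : 1 - (k : ℝ) / ((n : ℝ) - ((k + d : ℕ) : ℝ)) ≤
            1 - (k : ℝ) / (n - k : ℝ) := by
          have h5 : (0 : ℝ) < (n : ℝ) - ((k + d : ℕ) : ℝ) := by
            have : ((k + d : ℕ) : ℝ) < n := by exact_mod_cast (by omega : k + d < n)
            linarith
          have h6 : (k : ℝ) / (n - k : ℝ) ≤ (k : ℝ) / ((n : ℝ) - ((k + d : ℕ) : ℝ)) := by
            refine div_le_div_of_nonneg_left hk0.le h5 ?_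
            push_cast
            linarith [(Nat.cast_nonneg d : (0 : ℝ) ≤ d)]
          linarith
        calc (1 - (k : ℝ) / ((n : ℝ) - ((k + d : ℕ) : ℝ))) * sz n k (k + d)
            ≤ (1 - (k : ℝ) / (n - k : ℝ)) * sz n k (k + d) :=
              mul_le_mul_of_nonneg_right h4 (sz_nonneg _ _ _)
          _ ≤ (1 - (k : ℝ) / (n - k : ℝ)) * ((1 - (k : ℝ) / (n - k : ℝ)) ^ d * DD n k) :=
              mul_le_mul_of_nonneg_left ih hx
          _ = (1 - (k : ℝ) / (n - k : ℝ)) ^ d * (1 - (k : ℝ) / (n - k : ℝ)) * DD n k := by ring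
      · have h4 : sz n k (k + (d + 1)) = 0 := by
          unfold sz
          rw [Nat.choose_eq_zero_of_lt (by omega)]
          simp
        rw [h4]
        exact mul_nonneg (pow_nonneg hx _) (D_pos' h3).le
  unfold rr
  rw [div_le_iff₀ (D_pos' h3)]
  exact key

private theorem exp_three_le {x : ℝ} (h0 : 0 ≤ x) (h1 : x ≤ 2 / 3) :
    Real.exp (-(3 * x)) ≤ 1 - x := by
  have hq : 0 < 1 - x := by linarith
  have h2 : Real.exp (-(x / (1 - x))) ≤ 1 - x := by
    have h3 := Real.add_one_le_exp (x / (1 - x))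
    have h4 : x / (1 - x) + 1 = 1 / (1 - x) := by
      field_simp
      ring
    rw [h4] at h3
    rw [Real.exp_neg]
    rw [inv_le_comm₀ (Real.exp_pos _) hq, ← one_div]
    exact h3
  refine le_trans (Real.exp_le_exp.mpr ?_) h2
  have h5 : x / (1 - x) ≤ 3 * x := by
    rw [div_le_iff₀ hq]
    nlinarith
  linarith

theorem sz_lower {n k j : ℕ} (hk : 1 ≤ k) (h3 : 3 * k ≤ n) (hj : 12 * j ≤ n) :
    Real.exp (-(12 * j * k / n)) * DD n k ≤ sz n k (k + 2 * j) := by
  have h3' : (3 : ℝ) * k ≤ n := by exact_mod_cast h3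
  have hk0 : (0 : ℝ) < k := by exact_mod_cast (by omega : 0 < k)
  have hn : (0 : ℝ) < n := by linarith
  have key : ∀ a : ℕ, a ≤ 2 * j → Real.exp (-(6 * a * k / n)) * DD n k ≤ sz n k (k + a) := by
    intro a
    induction a with
    | zero =>
      intro _
      simp [sz_k]
    | succ a ih =>
      intro ha
      have h4 := ih (by omega)
      rw [← add_assoc, sz_succ hk (by omega)]
      have h5 : (n : ℝ) / 2 ≤ (n : ℝ) - ((k + a : ℕ) : ℝ) := by
        have h6 : (((2 * (k + a) : ℕ)) : ℝ) ≤ n := by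
          exact_mod_cast (by omega : 2 * (k + a) ≤ n)
        push_cast at h6 ⊢
        linarith
      have h6 : (k : ℝ) / ((n : ℝ) - ((k + a : ℕ) : ℝ)) ≤ 2 * k / n := by
        rw [div_le_div_iff₀ (by linarith) hn]
        nlinarith
      have h7 : Real.exp (-(3 * (2 * k / n))) ≤ 1 - 2 * k / n := by
        refine exp_three_le (by positivity) ?_
        rw [div_le_iff₀ hn]
        linarith
      have h8 : Real.exp (-(6 * ((a + 1 : ℕ) : ℝ) * k / n)) =
          Real.exp (-(6 * a * k / n)) * Real.exp (-(3 * (2 * k / n))) := by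
        rw [← Real.exp_add]
        congr 1
        push_cast
        ring
      rw [h8]
      calc Real.exp (-(6 * a * k / n)) * Real.exp (-(3 * (2 * k / n))) * DD n k
          = (Real.exp (-(6 * a * k / n)) * DD n k) * Real.exp (-(3 * (2 * k / n))) := by ring
        _ ≤ sz n k (k + a) * (1 - (k : ℝ) / ((n : ℝ) - ((k + a : ℕ) : ℝ))) :=
            mul_le_mul h4 (by linarith) (Real.exp_pos _).le (sz_nonneg _ _ _)
  have h4 := key (2 * j) le_rfl
  have h5 : (6 : ℝ) * ((2 * j : ℕ) : ℝ) * k / n = 12 * j * k / n := by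
    push_cast
    ring
  rw [h5] at h4
  exact h4

end Pool.Agent.H70.KP
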