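import Mathlib
import Pool.Agent.H70.KG.Defs

/-!
# [H70 KP] i(n,k) up to a polynomial factor (MP_3036ab_co): definitions

The process is the one of H70/KG (weights y, step parameter e, choice of B with probability
pr B = e y B / D, sets disjoint from B get weight 0, all other weights are multiplied by gf).
New: the state remembers the time st B at which a chosen set B was chosen; choosing a set B of C again
is the same as choosing nothing. The potential has more terms (pairs, tuples, near chosen sets).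
Distances: for k-sets A, B the number (B \ A).card = (A \ B).card.
-/

namespace Pool.Agent.H70.KP

open Finset
open Pool.Agent.H70.KG (KS DD S gf up0 up pr pr0)

/-- `s_u`: the number of `k`-sets disjoint from a `u`-set. -/
noncomputable def sz (n k u : ℕ) : ℝ := ((n - u).choose k : ℝ)

/-- `r_d = s_(k+d) / D`. -/
noncomputable def rr (n k d : ℕ) : ℝ := sz n k (k + d) / DD n k

/-- upper bound for the number of ordered pairs of `k`-sets at distance `d`. -/
noncomputable def pd (n k d : ℕ) : ℝ := (n.choose k : ℝ) * ((k : ℝ) * n) ^ d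

/-- the `k`-sets disjoint from `V`. -/
def dis (n k : ℕ) (V : Finset (Fin n)) : Finset (Finset (Fin n)) :=
  (KS n k).filter (fun A => Disjoint A V)

/-- the `k`-sets near `V`. -/
def nea (n k j : ℕ) (V : Finset (Fin n)) : Finset (Finset (Fin n)) :=
  (KS n k).filter (fun B => (B \ V).card < j)

/-- Sum over the `m`-tuples of members of `F` with pairwise distances at least `j`. -/
noncomputable def TS {n : ℕ} (j m : ℕ) (y : Finset (Fin n) → ℝ) (F : Finset (Finset (Fin n))) : ℝ :=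
  ∑ f ∈ (Fintype.piFinset (fun _ : Fin m => F)).filter
      (fun f => ∀ i l, i ≠ l → j ≤ (f l \ f i).card), ∏ i, y (f i)

/-- Sum over the ordered pairs at distance `d`. -/
noncomputable def PS (n k d : ℕ) (y : Finset (Fin n) → ℝ) : ℝ :=
  ∑ A ∈ KS n k, ∑ B ∈ (KS n k).filter (fun B => (B \ A).card = d), y A * y B

/-- The expectation of a functional of the weights after one step. -/
noncomputable def E1 (n k : ℕ) (e : ℝ) (y : Finset (Fin n) → ℝ)
    (F : (Finset (Fin n) → ℝ) → ℝ) : ℝ :=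
  ∑ B ∈ KS n k, pr n k e y B * F (up n k e y B) + pr0 n k e y * F (up0 n k e y)

/-- States: weights, chosen sets, times of choice. -/
structure Sta (n : ℕ) where
  y : Finset (Fin n) → ℝ
  C : Finset (Finset (Fin n))
  st : Finset (Fin n) → ℝ

/-- Nothing new is chosen. -/
noncomputable def Sta.stay {n : ℕ} (k : ℕ) (e : ℝ) (σ : Sta n) : Sta n :=
  ⟨up0 n k e σ.y, σ.C, σ.st⟩

/-- `B` is chosen at time `t`. -/
noncomputable def Sta.pick {n : ℕ} (k : ℕ) (e t : ℝ) (σ : Sta n) (B : Finset (Fin n)) : Sta n :=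
  ⟨up n k e σ.y B, insert B σ.C, fun A => if A = B then t else σ.st A⟩

/-- The expectation of a functional of the state after one step at time `t`. -/
noncomputable def Ex {n : ℕ} (k : ℕ) (e t : ℝ) (σ : Sta n) (F : Sta n → ℝ) : ℝ :=
  ∑ B ∈ (KS n k).filter (fun B => B ∉ σ.C), pr n k e σ.y B * F (σ.pick k e t B) +
    (pr0 n k e σ.y + ∑ B ∈ (KS n k).filter (fun B => B ∈ σ.C), pr n k e σ.y B) * F (σ.stay k e)

/-- Basic facts on the weights. -/
structure Mild (n k : ℕ) (e : ℝ) (y : Finset (Fin n) → ℝ) : Prop where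
  D_pos : 0 < DD n k
  e_pos : 0 < e
  e_le : 4 * n * e ≤ 1
  e_le8 : e ≤ 1 / 16
  nonneg : ∀ A ∈ KS n k, 0 ≤ y A
  S_le : ∀ A ∈ KS n k, S n k y A ≤ 2 * DD n k
  p0 : 0 ≤ pr0 n k e y

/-- All parameters of the process and the numerical hypotheses on them. -/
structure Par (n k : ℕ) where
  j : ℕ
  tau : ℕ
  del : ℝ
  d1 : ℝ
  a : ℝ
  a1 : ℝ
  rho : ℝ
  e : ℝ
  nu : ℝ
  hn : 4 ≤ n
  hk : 1 ≤ k
  hj : 1 ≤ j
  hsz : 2 * k + 3 * j ≤ n
  htau : 1 ≤ tau
  del0 : 0 < del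
  del1 : del ≤ 1 / 2
  d10 : 0 < d1
  d1le : 2 * d1 ≤ del
  e0 : 0 < e
  e1 : 16 * e ≤ del
  e2 : 4 * n * e ≤ 1
  eN : 2 * (e * (n.choose k : ℝ)) ≤ DD n k
  rho0 : 0 < rho
  rho1 : rho ≤ 1
  nu0 : 0 < nu
  aa : a * del = 3 * n
  aa1 : a1 * d1 = 3 * n
  ad : a * d1 ≤ 1
  arho : a * rho ≤ 1
  a1e : 8 * a1 * e ≤ 1
  cc : a1 ^ 2 * (64 * e + 8 * rho) * (e * tau) ≤ n
  c4 : (n : ℝ) ^ 2 * rho * (e * tau) ≤ 1 / 2
  dtau : 3 * del * (e * tau) ≤ 1 / 2
  H1 : ∀ u, k ≤ u → u < k + 2 * j → n * nu + 5 * sz n k (u + j) ≤ rho * sz n k u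
  H2 : n * nu + 5 * (n : ℝ) ^ (4 * j) ≤ rho * DD n k
  H3 : 2 * Real.exp ((1 + 2 * del) * (e * tau)) ≤ nu
  H4 : ∑ d ∈ Ico 1 (2 * j), 8 * n * pd n k d * Real.exp ((1 + 3 * del) * rr n k d * (e * tau)) ≤
    nu ^ 2 / 2

variable {n k : ℕ}

/-- The rate of the compensation of the exponential terms. -/
noncomputable def Par.c (P : Par n k) : ℝ := P.a1 ^ 2 * (64 * P.e + 8 * P.rho)

/-- The weight of the linear terms of the potential. -/
noncomputable def WW (n : ℕ) : ℝ := 4 ^ n / (8 * n)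

/-- The sets `V` whose sums are controlled from above. -/
def Par.Vc (P : Par n k) : Finset (Finset (Fin n)) :=
  univ.filter (fun V => k ≤ V.card ∧ V.card < k + 2 * P.j)

/-- The sets `V` such that the tuples of sets disjoint from `V` are controlled. -/
def Par.Vd (P : Par n k) : Finset (Finset (Fin n)) :=
  univ.filter (fun V => k + P.j ≤ V.card)

/-- The chosen sets near `T`. -/
def nc (j : ℕ) (C : Finset (Finset (Fin n))) (T : Finset (Fin n)) : Finset (Finset (Fin n)) :=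
  C.filter (fun B => (B \ T).card < j)

/-- The target of `S T / D`. -/
noncomputable def tg (k j : ℕ) (C : Finset (Finset (Fin n))) (T : Finset (Fin n)) : ℝ :=
  1 - ∑ B ∈ nc j C T, rr n k (B \ T).card

/-- Upper exponential terms. -/
noncomputable def Par.PV (P : Par n k) (s : ℕ) (y : Finset (Fin n) → ℝ) : ℝ :=
  ∑ V ∈ P.Vc, Real.exp (P.a1 / sz n k V.card * (S n k y V - sz n k V.card) - P.c * (P.e * s))

/-- Lower exponential terms. -/
noncomputable def Par.PT (P : Par n k) (s : ℕ) (σ : Sta n) : ℝ :=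
  ∑ T ∈ (KS n k).filter (fun T => (nc P.j σ.C T).card ≤ 1),
    Real.exp (-(P.a / DD n k) * (S n k σ.y T - tg k P.j σ.C T * DD n k) - P.c * (P.e * s))

/-- Tuple terms. -/
noncomputable def Par.PQ (P : Par n k) (s : ℕ) (y : Finset (Fin n) → ℝ) : ℝ :=
  Real.exp (-((n : ℝ) ^ 2 * P.rho * (P.e * s))) *
    (∑ V ∈ P.Vd, TS P.j n y (dis n k V) / ((dis n k V).card : ℝ) ^ n +
      ∑ V ∈ P.Vc, TS P.j n y (nea n k P.j V) / ((nea n k P.j V).card : ℝ) ^ n)

/-- Normalised pair sum. -/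
noncomputable def Par.PP (P : Par n k) (s d : ℕ) (y : Finset (Fin n) → ℝ) : ℝ :=
  Real.exp (-((1 + 3 * P.del) * rr n k d * (P.e * s))) * PS n k d y

/-- Weight of the sets at distance `1, ..., 2j - 1` from chosen sets. -/
noncomputable def Par.RR (P : Par n k) (σ : Sta n) : ℝ :=
  ∑ B ∈ σ.C, ∑ A ∈ (KS n k).filter (fun A => 1 ≤ (A \ B).card ∧ (A \ B).card < 2 * P.j), σ.y A

/-- Number of ordered pairs of chosen sets at distance `1, ..., 2j - 1`. -/
noncomputable def Par.bad (P : Par n k) (σ : Sta n) : ℝ :=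
  ∑ B ∈ σ.C, ((σ.C.filter (fun A => 1 ≤ (A \ B).card ∧ (A \ B).card < 2 * P.j)).card : ℝ)

/-- Compensated `RR`. -/
noncomputable def Par.HH (P : Par n k) (s : ℕ) (σ : Sta n) : ℝ :=
  P.RR σ + 2 * P.e * ((P.tau : ℝ) - s) / DD n k *
    ∑ d ∈ Ico 1 (2 * P.j), Real.exp ((1 + 3 * P.del) * rr n k d * (P.e * P.tau)) * P.PP s d σ.y

/-- Compensated `bad`. -/
noncomputable def Par.KK (P : Par n k) (s : ℕ) (σ : Sta n) : ℝ :=
  P.bad σ + 2 * P.e * ((P.tau : ℝ) - s) / DD n k * P.HH s σ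

/-- The initial value of `KK` (upper bound). -/
noncomputable def Par.K0 (P : Par n k) : ℝ :=
  (2 * P.e * P.tau / DD n k) ^ 2 *
    ∑ d ∈ Ico 1 (2 * P.j), Real.exp ((1 + 3 * P.del) * rr n k d * (P.e * P.tau)) * pd n k d

/-- Weight of the sets at distance `d` from chosen sets, discounted with the time of choice. -/
noncomputable def Par.GG (P : Par n k) (s d : ℕ) (σ : Sta n) : ℝ :=
  ∑ B ∈ σ.C, Real.exp (-(rr n k d * σ.st B)) *
      ∑ A ∈ (KS n k).filter (fun A => (A \ B).card = d), σ.y A +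
    4 * P.e * ((P.tau : ℝ) - s) / DD n k * P.PP s d σ.y

/-- The initial value of `GG` (upper bound). -/
noncomputable def Par.G0 (P : Par n k) (d : ℕ) : ℝ := 4 * P.e * P.tau / DD n k * pd n k d

/-- The potential. -/
noncomputable def Par.Phi (P : Par n k) (s : ℕ) (σ : Sta n) : ℝ :=
  P.PV s σ.y + P.PT s σ + P.PQ s σ.y +
    WW n * (∑ d ∈ Ico 1 (2 * P.j), P.PP s d σ.y / pd n k d) +
    WW n * (P.KK s σ / P.K0) + WW n * (∑ d ∈ Ico 1 P.j, P.GG s d σ / P.G0 d)

/-- Derived facts at one time. -/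
structure Good (P : Par n k) (σ : Sta n) : Prop where
  mild : Mild n k P.e σ.y
  dead : ∀ A ∈ KS n k, (∃ B ∈ σ.C, Disjoint A B) → σ.y A = 0
  sub : σ.C ⊆ KS n k
  upp : ∀ V : Finset (Fin n), k ≤ V.card → V.card < k + 2 * P.j →
    S n k σ.y V ≤ (1 + P.d1) * sz n k V.card
  far : ∀ V B : Finset (Fin n), k ≤ V.card → V.card < k + 2 * P.j → P.j ≤ (B \ V).card →
    S n k σ.y (V ∪ B) ≤ P.rho * sz n k V.card
  near : ∀ V : Finset (Fin n), k ≤ V.card → V.card < k + 2 * P.j →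
    ∑ B ∈ (KS n k).filter (fun B => (B \ V).card < P.j), σ.y B ≤ P.rho * DD n k

/-- The part of the invariants from which everything else is derived. -/
structure Base (P : Par n k) (s : ℕ) (σ : Sta n) : Prop where
  hs : s ≤ P.tau
  nonneg : ∀ A ∈ KS n k, 0 ≤ σ.y A
  dead : ∀ A ∈ KS n k, (∃ B ∈ σ.C, Disjoint A B) → σ.y A = 0
  sub : σ.C ⊆ KS n k
  ymax : ∀ A ∈ KS n k, σ.y A ≤ Real.exp ((1 + 2 * P.del) * (P.e * s))
  phi : P.Phi s σ ≤ 4 ^ n

/-- The invariants after `s` steps. -/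
structure Inv (P : Par n k) (s : ℕ) (σ : Sta n) : Prop where
  nonneg : ∀ A ∈ KS n k, 0 ≤ σ.y A
  dead : ∀ A ∈ KS n k, (∃ B ∈ σ.C, Disjoint A B) → σ.y A = 0
  sub : σ.C ⊆ KS n k
  int : Pool.Agent.H31.Kn.IsInt n k σ.C
  card : σ.C.card ≤ s
  ymax : ∀ A ∈ KS n k, σ.y A ≤ Real.exp ((1 + 2 * P.del) * (P.e * s))
  nobad : ∀ B ∈ σ.C, ∀ B' ∈ σ.C, B ≠ B' → 2 * P.j ≤ (B' \ B).card
  low0 : ∀ T ∈ KS n k, (∀ B ∈ σ.C, ¬ Disjoint T B) → (∀ B ∈ σ.C, P.j ≤ (B \ T).card) →
    Real.exp ((1 - P.del) * (P.e * s)) ≤ σ.y T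
  low1 : ∀ T ∈ KS n k, (∀ B ∈ σ.C, ¬ Disjoint T B) → ∀ B ∈ σ.C, 1 ≤ (B \ T).card →
    (B \ T).card < P.j →
    Real.exp ((1 - rr n k (B \ T).card - P.del) * (P.e * s) + rr n k (B \ T).card * σ.st B) ≤ σ.y T
  phi : P.Phi s σ ≤ 4 ^ n

end Pool.Agent.H70.KP
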