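import Pool.Agent.H70.KP.RO
import Pool.Agent.H70.KG.SB

/-!
# [H70 KP IZ] the invariants at time 0

y = 1, C empty, st = 0, s = 0. phi: S 1 V = sz V.card (KG.S_one), so each term of PV is exp 0 = 1, at most 2^n
terms. nc is empty, tg = 1, S 1 T = DD: each term of PT is 1, at most 2^n terms. TS <= F.card^n
(TS_one_le), quotients <= 1: PQ <= 2 * 2^n. PP 0 d = PS 1 <= pd (PS_one): the sum over Ico 1 (2 j) is
<= 2 j. RR = bad = 0, HH = (2 e tau/DD) sum exp * PP <= ..., KK <= K0. GG = (4 e tau/DD) PP <= G0: <= j.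
Total <= 4 * 2^n + WW (2 j + 1 + j) <= 4 * 2^n + (4^n / (8 n)) * 4 n = 4 * 2^n + 4^n/2 <= 4^n for n >= 4
(wait: 4 * 2^n <= 4^n / 2 iff 8 <= 2^n, true for n >= 3), using 3 j + 1 <= n + 1 <= 4 n (hsz).
The other invariants: y = 1 <= exp 0, exp 0 <= 1; C is empty.
-/

namespace Pool.Agent.H70.KP

open Finset
open Pool.Agent.H70.KG (KS DD S gf up0 up pr pr0)

variable {n k : ℕ}

private theorem card_univ_le (P : Finset (Fin n) → Prop) [DecidablePred P] :
    (((univ : Finset (Finset (Fin n))).filter P).card : ℝ) ≤ 2 ^ n := by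
  have h1 := card_filter_le (univ : Finset (Finset (Fin n))) P
  rw [card_univ, Fintype.card_finset, Fintype.card_fin] at h1
  exact_mod_cast h1

private theorem pv_zero (P : Par n k) : P.PV 0 (fun _ => 1) ≤ 2 ^ n := by
  unfold Par.PV
  have h1 : ∀ V ∈ P.Vc, Real.exp (P.a1 / sz n k V.card *
      (S n k (fun _ => 1) V - sz n k V.card) - P.c * (P.e * ((0 : ℕ) : ℝ))) = 1 := by
    intro V _
    rw [Pool.Agent.H70.KG.S_one]
    have : ((n - V.card).choose k : ℝ) - sz n k V.card = 0 := sub_self _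
    rw [this]
    simp
  rw [sum_congr rfl h1, sum_const, nsmul_eq_mul, mul_one]
  exact card_univ_le _

private theorem pt_zero (P : Par n k) :
    P.PT 0 (⟨fun _ => 1, ∅, fun _ => 0⟩ : Sta n) ≤ 2 ^ n := by
  unfold Par.PT
  have h1 : ∀ T ∈ (KS n k).filter (fun T => (nc P.j (∅ : Finset (Finset (Fin n))) T).card ≤ 1),
      Real.exp (-(P.a / DD n k) * (S n k (fun _ => 1) T -
        tg k P.j (∅ : Finset (Finset (Fin n))) T * DD n k) -
        P.c * (P.e * ((0 : ℕ) : ℝ))) = 1 := by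
    intro T hT
    have hTc : T.card = k := mem_KS.mp (mem_filter.mp hT).1
    have htg : tg k P.j (∅ : Finset (Finset (Fin n))) T = 1 := by
      unfold tg nc
      simp
    rw [Pool.Agent.H70.KG.S_one, htg, hTc, one_mul]
    have : ((n - k).choose k : ℝ) - DD n k = 0 := sub_self _
    rw [this]
    simp
  have h2 : ∑ T ∈ (KS n k).filter (fun T => (nc P.j (∅ : Finset (Finset (Fin n))) T).card ≤ 1),
      Real.exp (-(P.a / DD n k) * (S n k (fun _ => 1) T -
        tg k P.j (∅ : Finset (Finset (Fin n))) T * DD n k) -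
        P.c * (P.e * ((0 : ℕ) : ℝ))) ≤ 2 ^ n := by
    rw [sum_congr rfl h1, sum_const, nsmul_eq_mul, mul_one]
    have h3 := card_le_univ
      ((KS n k).filter (fun T => (nc P.j (∅ : Finset (Finset (Fin n))) T).card ≤ 1))
    rw [Fintype.card_finset, Fintype.card_fin] at h3
    exact_mod_cast h3
  exact h2

private theorem pq_zero (P : Par n k) : P.PQ 0 (fun _ => 1) ≤ 2 ^ n + 2 ^ n := by
  unfold Par.PQ
  have h0 : Real.exp (-((n : ℝ) ^ 2 * P.rho * (P.e * ((0 : ℕ) : ℝ)))) = 1 := by simp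
  rw [h0, one_mul]
  have h1 : ∀ F : Finset (Finset (Fin n)),
      TS P.j n (fun _ => 1) F / (F.card : ℝ) ^ n ≤ 1 := fun F =>
    div_le_one_of_le₀ (TS_one_le F P.j n) (pow_nonneg (Nat.cast_nonneg _) _)
  refine add_le_add ?_ ?_
  · refine (sum_le_sum fun V _ => h1 (dis n k V)).trans ?_
    rw [sum_const, nsmul_eq_mul, mul_one]
    exact card_univ_le _
  · refine (sum_le_sum fun V _ => h1 (nea n k P.j V)).trans ?_
    rw [sum_const, nsmul_eq_mul, mul_one]
    exact card_univ_le _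

private theorem pp_zero (P : Par n k) (d : ℕ) : P.PP 0 d (fun _ => 1) ≤ pd n k d := by
  unfold Par.PP
  have h0 : Real.exp (-((1 + 3 * P.del) * rr n k d * (P.e * ((0 : ℕ) : ℝ)))) = 1 := by simp
  rw [h0, one_mul]
  exact PS_one d

private theorem kk_zero (P : Par n k) :
    P.KK 0 (⟨fun _ => 1, ∅, fun _ => 0⟩ : Sta n) ≤ P.K0 := by
  have hD := P.D_pos
  have he := P.e0
  have ht : (0 : ℝ) ≤ P.tau := Nat.cast_nonneg _
  have h1 : P.KK 0 (⟨fun _ => 1, ∅, fun _ => 0⟩ : Sta n) =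
      (2 * P.e * P.tau / DD n k) ^ 2 *
        ∑ d ∈ Ico 1 (2 * P.j), Real.exp ((1 + 3 * P.del) * rr n k d * (P.e * P.tau)) *
          P.PP 0 d (fun _ => 1) := by
    unfold Par.KK Par.HH Par.bad Par.RR
    simp only [sum_empty, zero_add, Nat.cast_zero, sub_zero]
    ring
  rw [h1]
  unfold Par.K0
  refine mul_le_mul_of_nonneg_left (sum_le_sum fun d _ => ?_) (by positivity)
  exact mul_le_mul_of_nonneg_left (pp_zero P d) (Real.exp_pos _).le

private theorem gg_zero (P : Par n k) (d : ℕ) :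
    P.GG 0 d (⟨fun _ => 1, ∅, fun _ => 0⟩ : Sta n) ≤ P.G0 d := by
  have hD := P.D_pos
  have he := P.e0
  have ht : (0 : ℝ) ≤ P.tau := Nat.cast_nonneg _
  have h1 : P.GG 0 d (⟨fun _ => 1, ∅, fun _ => 0⟩ : Sta n) =
      4 * P.e * P.tau / DD n k * P.PP 0 d (fun _ => 1) := by
    unfold Par.GG
    simp only [sum_empty, zero_add, Nat.cast_zero, sub_zero]
  rw [h1]
  unfold Par.G0
  exact mul_le_mul_of_nonneg_left (pp_zero P d) (by positivity)

private theorem two_pow (m : ℕ) (h : 3 ≤ m) : (8 : ℝ) ≤ 2 ^ m := by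
  calc (8 : ℝ) = 2 ^ 3 := by norm_num
    _ ≤ 2 ^ m := pow_le_pow_right₀ (by norm_num) h

theorem phi_zero (P : Par n k) : P.Phi 0 (⟨fun _ => 1, ∅, fun _ => 0⟩ : Sta n) ≤ 4 ^ n := by
  have hW := P.WW_pos.le
  have hn := P.n_pos
  have h1 := pv_zero P
  have h2 := pt_zero P
  have h3 := pq_zero P
  have h4 : ∑ d ∈ Ico 1 (2 * P.j), P.PP 0 d (fun _ => 1) / pd n k d ≤ 2 * P.j := by
    refine (sum_le_sum fun d _ => (div_le_one (P.pd_pos d)).mpr (pp_zero P d)).trans ?_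
    rw [sum_const, nsmul_eq_mul, mul_one, Nat.card_Ico]
    exact_mod_cast Nat.sub_le _ _
  have h5 : P.KK 0 (⟨fun _ => 1, ∅, fun _ => 0⟩ : Sta n) / P.K0 ≤ 1 :=
    (div_le_one P.K0_pos).mpr (kk_zero P)
  have h6 : ∑ d ∈ Ico 1 P.j, P.GG 0 d (⟨fun _ => 1, ∅, fun _ => 0⟩ : Sta n) / P.G0 d ≤ P.j := by
    refine (sum_le_sum fun d _ => (div_le_one (P.G0_pos d)).mpr (gg_zero P d)).trans ?_
    rw [sum_const, nsmul_eq_mul, mul_one, Nat.card_Ico]
    exact_mod_cast Nat.sub_le _ _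
  have h7 : (2 : ℝ) * P.j + 1 + P.j ≤ 4 * n := by
    have h8 := P.hsz
    have h9 := P.hn
    exact_mod_cast (by omega : 2 * P.j + 1 + P.j ≤ 4 * n)
  have h8 : WW n * (2 * P.j + 1 + P.j) ≤ 4 ^ n / 2 := by
    refine (mul_le_mul_of_nonneg_left h7 hW).trans (le_of_eq ?_)
    unfold WW
    field_simp
    norm_num
  have h9 : (4 : ℝ) ^ n = 2 ^ n * 2 ^ n := by
    rw [← mul_pow]
    norm_num
  have h10 := two_pow n (by have := P.hn; omega)
  have h11 : (0 : ℝ) < 2 ^ n := by positivity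
  have h12 : 4 * (2 : ℝ) ^ n ≤ 4 ^ n / 2 := by
    rw [h9]
    nlinarith
  have h13 : P.Phi 0 (⟨fun _ => 1, ∅, fun _ => 0⟩ : Sta n) ≤
      2 ^ n + 2 ^ n + (2 ^ n + 2 ^ n) + WW n * (2 * P.j) + WW n * 1 + WW n * P.j := by
    unfold Par.Phi
    exact add_le_add (add_le_add (add_le_add (add_le_add (add_le_add h1 h2) h3)
      (mul_le_mul_of_nonneg_left h4 hW)) (mul_le_mul_of_nonneg_left h5 hW))
      (mul_le_mul_of_nonneg_left h6 hW)
  nlinarith

theorem inv_zero (P : Par n k) : Inv P 0 (⟨fun _ => 1, ∅, fun _ => 0⟩ : Sta n) := by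
  refine ⟨fun _ _ => zero_le_one, ?_, empty_subset _, ⟨?_, ?_⟩, ?_, ?_, ?_, ?_, ?_, phi_zero P⟩
  · rintro A _ ⟨B, hB, _⟩
    exact absurd hB (notMem_empty B)
  · intro A hA
    exact absurd hA (notMem_empty A)
  · intro A hA
    exact absurd hA (notMem_empty A)
  · exact le_of_eq card_empty
  · intro A _
    simp
  · intro B hB
    exact absurd hB (notMem_empty B)
  · intro T _ _ _
    simp
  · intro T _ _ B hB
    exact absurd hB (notMem_empty B)

end Pool.Agent.H70.KP
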