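import Pool.Agent.H70.KP.IS
import Pool.Agent.H70.KP.IZ

/-!
# [H70 KP FN] the maximal family is small

Take s = tau (induction from inv_zero with inv_step). C is intersecting; let F be a maximal intersecting
family containing C (Set.Finite.exists_le_maximal, see H70/KG/FI.lean). Every T in F is in KS and meets
all members of C. Three parts.
(1) T in C: at most tau (card).
(2) T not in C with some B in C, d = (B \ T).card < j: d >= 1 (eq_of_sd). low1: y T >= exp ((1 - r_d - del)(e tau) +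
r_d st B), i.e. 1 <= exp (-(1 - r_d - del)(e tau)) * (exp (-(r_d st B)) y T). Sum over B in C and the T in KS
with (T \ B).card = d (sd_symm): at most exp (-(1 - r_d - del)(e tau)) * GG tau d, and GG tau d <= 8 n G0 d
(read_G; at s = tau the second part of GG is 0).
(3) T with all (B \ T).card >= j: low0: y T >= exp ((1 - del)(e tau)); the sum of all weights is
<= (1 + d1) C(n,k) <= 2 C(n,k) (total).
-/

namespace Pool.Agent.H70.KP

open Finset
open Pool.Agent.H70.KG (KS DD S gf up0 up pr pr0)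

variable {n k : ℕ}

private theorem inv_all (P : Par n k) (s : ℕ) (hs : s ≤ P.tau) : ∃ σ : Sta n, Inv P s σ := by
  induction s with
  | zero => exact ⟨_, inv_zero P⟩
  | succ s ih =>
    obtain ⟨σ, h⟩ := ih (by omega)
    exact inv_step (by omega) h

private theorem exists_ge {C : Finset (Finset (Fin n))}
    (hC : Pool.Agent.H31.Kn.IsInt n k C) :
    ∃ F : Finset (Finset (Fin n)), C ⊆ F ∧ Maximal (Pool.Agent.H31.Kn.IsInt n k) F := by
  obtain ⟨F, hCF, hF⟩ := (Set.toFinite {F : Finset (Finset (Fin n)) |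
    Pool.Agent.H31.Kn.IsInt n k F}).exists_le_maximal (a := C) hC
  exact ⟨F, hCF, hF⟩

private theorem near_part {P : Par n k} {σ : Sta n} (h : Inv P P.tau σ)
    {F : Finset (Finset (Fin n))} (hFK : F ⊆ KS n k)
    (hal : ∀ T ∈ F, ∀ B ∈ σ.C, ¬ Disjoint T B) {d : ℕ} (hd : d ∈ Ico 1 P.j) :
    ((F.filter (fun T => ∃ B ∈ σ.C, (B \ T).card = d)).card : ℝ) ≤
      8 * n * P.G0 d * Real.exp (-((1 - rr n k d - P.del) * (P.e * P.tau))) := by
  obtain ⟨hd1, hd2⟩ := mem_Ico.mp hd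
  have b := h.base le_rfl
  set E := Real.exp (-((1 - rr n k d - P.del) * (P.e * P.tau))) with hE
  have hE0 : 0 < E := Real.exp_pos _
  have hf0 : ∀ T ∈ KS n k, ∀ B : Finset (Fin n),
      0 ≤ E * (Real.exp (-(rr n k d * σ.st B)) * σ.y T) := fun T hT B =>
    mul_nonneg hE0.le (mul_nonneg (Real.exp_pos _).le (h.nonneg T hT))
  have h1 : ((F.filter (fun T => ∃ B ∈ σ.C, (B \ T).card = d)).card : ℝ) ≤
      ∑ T ∈ F.filter (fun T => ∃ B ∈ σ.C, (B \ T).card = d),
        ∑ B ∈ σ.C.filter (fun B => (B \ T).card = d),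
          E * (Real.exp (-(rr n k d * σ.st B)) * σ.y T) := by
    rw [card_eq_sum_ones, Nat.cast_sum]
    refine sum_le_sum fun T hT => ?_
    obtain ⟨hTF, B, hB, hBd⟩ := mem_filter.mp hT
    have hTK := hFK hTF
    have h2 := h.low1 T hTK (hal T hTF) B hB (by omega) (by omega)
    rw [hBd] at h2
    have h3 : (1 : ℝ) ≤ E * (Real.exp (-(rr n k d * σ.st B)) * σ.y T) := by
      calc (1 : ℝ) = E * (Real.exp (-(rr n k d * σ.st B)) *
            Real.exp ((1 - rr n k d - P.del) * (P.e * P.tau) + rr n k d * σ.st B)) := by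
            rw [hE, ← Real.exp_add, ← Real.exp_add]
            rw [show -((1 - rr n k d - P.del) * (P.e * P.tau)) + (-(rr n k d * σ.st B) +
              ((1 - rr n k d - P.del) * (P.e * P.tau) + rr n k d * σ.st B)) = 0 by ring]
            exact Real.exp_zero.symm
        _ ≤ _ := mul_le_mul_of_nonneg_left
            (mul_le_mul_of_nonneg_left h2 (Real.exp_pos _).le) hE0.le
    have h4 : E * (Real.exp (-(rr n k d * σ.st B)) * σ.y T) ≤
        ∑ B ∈ σ.C.filter (fun B => (B \ T).card = d),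
          E * (Real.exp (-(rr n k d * σ.st B)) * σ.y T) :=
      single_le_sum (f := fun B => E * (Real.exp (-(rr n k d * σ.st B)) * σ.y T))
        (fun B _ => hf0 T hTK B) (mem_filter.mpr ⟨hB, hBd⟩)
    push_cast
    linarith
  have h2 : ∑ T ∈ F.filter (fun T => ∃ B ∈ σ.C, (B \ T).card = d),
        ∑ B ∈ σ.C.filter (fun B => (B \ T).card = d),
          E * (Real.exp (-(rr n k d * σ.st B)) * σ.y T) ≤
      ∑ T ∈ KS n k, ∑ B ∈ σ.C.filter (fun B => (B \ T).card = d),
          E * (Real.exp (-(rr n k d * σ.st B)) * σ.y T) :=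
    sum_le_sum_of_subset_of_nonneg (fun T hT => hFK (mem_filter.mp hT).1)
      (fun T hT _ => sum_nonneg fun B _ => hf0 T hT B)
  have h3 : ∑ T ∈ KS n k, ∑ B ∈ σ.C.filter (fun B => (B \ T).card = d),
          E * (Real.exp (-(rr n k d * σ.st B)) * σ.y T) =
      ∑ B ∈ σ.C, ∑ T ∈ (KS n k).filter (fun T => (T \ B).card = d),
          E * (Real.exp (-(rr n k d * σ.st B)) * σ.y T) := by
    refine sum_comm' fun T B => ?_
    constructor
    · rintro ⟨hT, hB⟩
      obtain ⟨hB, hc⟩ := mem_filter.mp hB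
      exact ⟨mem_filter.mpr ⟨hT, by rw [sd_symm hT (h.sub hB), hc]⟩, hB⟩
    · rintro ⟨hT, hB⟩
      obtain ⟨hT, hc⟩ := mem_filter.mp hT
      exact ⟨hT, mem_filter.mpr ⟨hB, by rw [sd_symm (h.sub hB) hT, hc]⟩⟩
  have h4 : ∑ B ∈ σ.C, ∑ T ∈ (KS n k).filter (fun T => (T \ B).card = d),
          E * (Real.exp (-(rr n k d * σ.st B)) * σ.y T) = E * P.GG P.tau d σ := by
    unfold Par.GG
    rw [sub_self, mul_zero, zero_div, zero_mul, add_zero, mul_sum]
    refine sum_congr rfl fun B _ => ?_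
    rw [mul_sum, mul_sum]
  have h5 := read_G b hd
  calc ((F.filter (fun T => ∃ B ∈ σ.C, (B \ T).card = d)).card : ℝ)
      ≤ E * P.GG P.tau d σ := by linarith
    _ ≤ E * (8 * n * P.G0 d) := mul_le_mul_of_nonneg_left h5 hE0.le
    _ = 8 * n * P.G0 d * E := mul_comm _ _

private theorem far_part {P : Par n k} {σ : Sta n} (h : Inv P P.tau σ)
    {F : Finset (Finset (Fin n))} (hFK : F ⊆ KS n k)
    (hal : ∀ T ∈ F, ∀ B ∈ σ.C, ¬ Disjoint T B) :
    ((F.filter (fun T => ∀ B ∈ σ.C, P.j ≤ (B \ T).card)).card : ℝ) ≤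
      2 * (n.choose k : ℝ) * Real.exp (-((1 - P.del) * (P.e * P.tau))) := by
  have b := h.base le_rfl
  have h1 : ((F.filter (fun T => ∀ B ∈ σ.C, P.j ≤ (B \ T).card)).card : ℝ) *
      Real.exp ((1 - P.del) * (P.e * P.tau)) ≤ ∑ T ∈ KS n k, σ.y T := by
    rw [← nsmul_eq_mul, ← sum_const]
    refine (sum_le_sum fun T hT => ?_).trans (sum_le_sum_of_subset_of_nonneg
      (fun T hT => hFK (mem_filter.mp hT).1) (fun T hT _ => h.nonneg T hT))
    obtain ⟨hTF, hTn⟩ := mem_filter.mp hT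
    exact h.low0 T (hFK hTF) (hal T hTF) hTn
  have h2 := total b
  have h3 : (1 + P.d1) * (n.choose k : ℝ) ≤ 2 * (n.choose k : ℝ) :=
    mul_le_mul_of_nonneg_right (by linarith [P.d1le, P.del1]) (Nat.cast_nonneg _)
  have h5 : Real.exp ((1 - P.del) * (P.e * P.tau)) *
      Real.exp (-((1 - P.del) * (P.e * P.tau))) = 1 := by
    rw [← Real.exp_add, add_neg_cancel, Real.exp_zero]
  calc ((F.filter (fun T => ∀ B ∈ σ.C, P.j ≤ (B \ T).card)).card : ℝ)
      = (((F.filter (fun T => ∀ B ∈ σ.C, P.j ≤ (B \ T).card)).card : ℝ) *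
          Real.exp ((1 - P.del) * (P.e * P.tau))) *
          Real.exp (-((1 - P.del) * (P.e * P.tau))) := by
        rw [mul_assoc, h5, mul_one]
    _ ≤ _ := mul_le_mul_of_nonneg_right (by linarith) (Real.exp_pos _).le

theorem main_family (P : Par n k) :
    ∃ F : Finset (Finset (Fin n)), Maximal (Pool.Agent.H31.Kn.IsInt n k) F ∧
      (F.card : ℝ) ≤ P.tau +
        ∑ d ∈ Ico 1 P.j, 8 * n * P.G0 d *
          Real.exp (-((1 - rr n k d - P.del) * (P.e * P.tau))) +
        2 * (n.choose k : ℝ) * Real.exp (-((1 - P.del) * (P.e * P.tau))) := by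
  obtain ⟨σ, h⟩ := inv_all P P.tau le_rfl
  obtain ⟨F, hCF, hF⟩ := exists_ge h.int
  refine ⟨F, hF, ?_⟩
  have hFK : F ⊆ KS n k := fun T hT => mem_KS.mpr (hF.prop.1 T hT)
  have hal : ∀ T ∈ F, ∀ B ∈ σ.C, ¬ Disjoint T B := by
    intro T hT B hB hd
    have h1 := hF.prop.2 T hT B (hCF hB)
    rw [disjoint_iff_inter_eq_empty] at hd
    rw [hd] at h1
    exact not_nonempty_empty h1
  have hcov : F ⊆ (σ.C ∪ (Ico 1 P.j).biUnion
      (fun d => F.filter (fun T => ∃ B ∈ σ.C, (B \ T).card = d))) ∪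
      F.filter (fun T => ∀ B ∈ σ.C, P.j ≤ (B \ T).card) := by
    intro T hT
    by_cases h1 : ∀ B ∈ σ.C, P.j ≤ (B \ T).card
    · exact mem_union_right _ (mem_filter.mpr ⟨hT, h1⟩)
    · push Not at h1
      obtain ⟨B, hB, hBT⟩ := h1
      refine mem_union_left _ ?_
      rcases Nat.eq_zero_or_pos (B \ T).card with h2 | h2
      · rw [eq_of_sd (hFK hT) (h.sub hB) h2]
        exact mem_union_left _ hB
      · refine mem_union_right _ (mem_biUnion.mpr ⟨(B \ T).card, mem_Ico.mpr ⟨h2, hBT⟩,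
          mem_filter.mpr ⟨hT, B, hB, rfl⟩⟩)
  have hc1 : F.card ≤ σ.C.card + ∑ d ∈ Ico 1 P.j,
      (F.filter (fun T => ∃ B ∈ σ.C, (B \ T).card = d)).card +
      (F.filter (fun T => ∀ B ∈ σ.C, P.j ≤ (B \ T).card)).card :=
    (card_le_card hcov).trans ((card_union_le _ _).trans (Nat.add_le_add_right
      ((card_union_le _ _).trans (Nat.add_le_add_left card_biUnion_le _)) _))
  have hc2 : (F.card : ℝ) ≤ (σ.C.card : ℝ) + ∑ d ∈ Ico 1 P.j,
      ((F.filter (fun T => ∃ B ∈ σ.C, (B \ T).card = d)).card : ℝ) +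
      ((F.filter (fun T => ∀ B ∈ σ.C, P.j ≤ (B \ T).card)).card : ℝ) := by
    exact_mod_cast hc1
  have hc3 : (σ.C.card : ℝ) ≤ P.tau := by exact_mod_cast h.card
  have hc4 := sum_le_sum fun d hd => near_part h hFK hal (d := d) hd
  have hc5 := far_part h hFK hal
  linarith

end Pool.Agent.H70.KP
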