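import Pool.Agent.H70.KP.CB
import Pool.Agent.H70.KG.BI

/-!
# [H70 KP HB] the hypotheses on n, k, the parameter j

L = log n. n >= 10^6: L >= 13 (exp 13 <= 2.7183^13 < 10^6), sqrt n >= 1000.
* L_le: L <= sqrt n (log x <= x for x = sqrt n: log n = 2 log (sqrt n); log y <= y/2 for y >= ... : or
  Real.log_le_sub_one_of_pos and log n = 4 log (n^(1/4)) <= 4 n^(1/4) <= sqrt n for n >= 256).
* k_big: k >= 100 * 1000 * L.
* k_sq: k^2 >= 10^4 n L^2 (square the hypothesis, both sides >= 0).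
* kn_L: (n/k) L^2 <= k / 10^4 (from k_sq).
* j = ceil (11 (n/k) L): 11 (n/k) L <= j <= 11 (n/k) L + 1.
* jk: 11 L <= j k / n <= 12 L (k/n <= 1 <= L).
* jL: j L <= 11 (n/k) L^2 + L <= 11 k/10^4 + k/10^5 <= k/800.
* j_le: 12 j <= n: j <= k / (800 L) <= n / 12.
-/

namespace Pool.Agent.H70.KP

/-- The range of `n` and `k`. -/
structure Hyp (n k : ℕ) : Prop where
  hn : 1000000 ≤ n
  hk : 100 * Real.sqrt n * Real.log n ≤ k
  h3 : 3 * k ≤ n

/-- The distance scale. -/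
noncomputable def jj (n k : ℕ) : ℕ := ⌈11 * ((n : ℝ) / k) * Real.log n⌉₊

variable {n k : ℕ}

private theorem n_pos (h : Hyp n k) : (0 : ℝ) < n := by
  have := h.hn
  exact_mod_cast (by omega : 0 < n)

private theorem n_ge (h : Hyp n k) : (1000000 : ℝ) ≤ n := by
  have := h.hn
  exact_mod_cast this

theorem Hyp.L_ge (h : Hyp n k) : 13 ≤ Real.log n := by
  rw [Real.le_log_iff_exp_le (n_pos h)]
  have h1 : Real.exp 13 = Real.exp 1 ^ 13 := by
    rw [← Real.exp_nat_mul]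
    norm_num
  rw [h1]
  have h2 : Real.exp 1 ^ 13 ≤ 2.7182818286 ^ 13 :=
    pow_le_pow_left₀ (Real.exp_pos _).le Real.exp_one_lt_d9.le 13
  have h3 : (2.7182818286 : ℝ) ^ 13 ≤ 1000000 := by norm_num
  linarith [n_ge h]

theorem Hyp.sqrt_ge (h : Hyp n k) : 1000 ≤ Real.sqrt n := by
  refine Real.le_sqrt_of_sq_le ?_
  have h1 : (1000 : ℝ) ^ 2 = 1000000 := by norm_num
  rw [h1]
  exact n_ge h

theorem Hyp.L_le (h : Hyp n k) : Real.log n ≤ Real.sqrt n := by
  have hn := n_pos h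
  have hs := h.sqrt_ge
  have hs0 : 0 < Real.sqrt n := by linarith
  have ht0 : 0 < Real.sqrt (Real.sqrt n) := Real.sqrt_pos.mpr hs0
  have h1 : Real.log n = 4 * Real.log (Real.sqrt (Real.sqrt n)) := by
    rw [Real.log_sqrt hs0.le, Real.log_sqrt hn.le]
    ring
  have h2 := Real.log_le_sub_one_of_pos ht0
  have h3 : Real.sqrt (Real.sqrt n) ^ 2 = Real.sqrt n := Real.sq_sqrt hs0.le
  rw [h1]
  nlinarith [sq_nonneg (Real.sqrt (Real.sqrt n) - 2)]

theorem Hyp.k_big (h : Hyp n k) : 100000 * Real.log n ≤ k := by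
  have h1 := h.hk
  have h2 := h.sqrt_ge
  have h3 := h.L_ge
  nlinarith

theorem Hyp.k_pos (h : Hyp n k) : 1 ≤ k := by
  have h1 := h.k_big
  have h2 := h.L_ge
  have h3 : (0 : ℝ) < k := by linarith
  have h4 : 0 < k := by exact_mod_cast h3
  omega

private theorem k_pos' (h : Hyp n k) : (0 : ℝ) < k := by
  have := h.k_pos
  exact_mod_cast (by omega : 0 < k)

theorem Hyp.k_sq (h : Hyp n k) : 10000 * (n : ℝ) * Real.log n ^ 2 ≤ (k : ℝ) ^ 2 := by
  have h1 := h.hk
  have h2 := h.sqrt_ge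
  have h3 := h.L_ge
  have h4 : 0 ≤ 100 * Real.sqrt n * Real.log n := by positivity
  have h5 := pow_le_pow_left₀ h4 h1 2
  have h6 : Real.sqrt n ^ 2 = n := Real.sq_sqrt (n_pos h).le
  have h7 : (100 * Real.sqrt n * Real.log n) ^ 2 = 10000 * Real.sqrt n ^ 2 * Real.log n ^ 2 := by
    ring
  rw [h7, h6] at h5
  exact h5

theorem Hyp.kn_L (h : Hyp n k) : (n : ℝ) / k * Real.log n ^ 2 ≤ k / 10000 := by
  have hk := k_pos' h
  have h1 := h.k_sq
  rw [div_mul_eq_mul_div, div_le_div_iff₀ hk (by norm_num)]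
  nlinarith

theorem Hyp.j_pos (h : Hyp n k) : 1 ≤ jj n k := by
  have hk := k_pos' h
  have hn := n_pos h
  have hL := h.L_ge
  have h1 : 0 < 11 * ((n : ℝ) / k) * Real.log n := by positivity
  exact Nat.ceil_pos.mpr h1

theorem Hyp.jk_ge (h : Hyp n k) : 11 * Real.log n ≤ (k : ℝ) * jj n k / n := by
  have hk := k_pos' h
  have hn := n_pos h
  have h1 : 11 * ((n : ℝ) / k) * Real.log n ≤ jj n k := Nat.le_ceil _
  rw [le_div_iff₀ hn]
  have h2 := mul_le_mul_of_nonneg_left h1 hk.le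
  have h3 : (k : ℝ) * (11 * ((n : ℝ) / k) * Real.log n) = 11 * Real.log n * n := by
    field_simp
  linarith

private theorem j_lt (h : Hyp n k) : (jj n k : ℝ) ≤ 11 * ((n : ℝ) / k) * Real.log n + 1 := by
  have hk := k_pos' h
  have hn := n_pos h
  have hL := h.L_ge
  exact (Nat.ceil_lt_add_one (by positivity)).le

theorem Hyp.jk_le (h : Hyp n k) : (jj n k : ℝ) * k / n ≤ 12 * Real.log n := by
  have hk := k_pos' h
  have hn := n_pos h
  have hL := h.L_ge
  have h1 := j_lt h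
  have h3 : (3 : ℝ) * k ≤ n := by exact_mod_cast h.h3
  rw [div_le_iff₀ hn]
  have h2 := mul_le_mul_of_nonneg_right h1 hk.le
  have h4 : (11 * ((n : ℝ) / k) * Real.log n + 1) * k = 11 * Real.log n * n + k := by
    field_simp
  nlinarith

theorem Hyp.jL (h : Hyp n k) : (jj n k : ℝ) * Real.log n ≤ k / 800 := by
  have hk := k_pos' h
  have hL := h.L_ge
  have h1 := mul_le_mul_of_nonneg_right (j_lt h) (by linarith : 0 ≤ Real.log n)
  have h2 := h.kn_L
  have h3 := h.k_big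
  have h4 : (11 * ((n : ℝ) / k) * Real.log n + 1) * Real.log n =
      11 * ((n : ℝ) / k * Real.log n ^ 2) + Real.log n := by ring
  linarith

theorem Hyp.j_le (h : Hyp n k) : 12 * jj n k ≤ n := by
  have hL := h.L_ge
  have h1 := h.jL
  have h3 : (3 : ℝ) * k ≤ n := by exact_mod_cast h.h3
  have hk := k_pos' h
  have h2 : (12 : ℝ) * jj n k ≤ n := by
    have h4 : (0 : ℝ) ≤ jj n k := Nat.cast_nonneg _
    nlinarith
  exact_mod_cast h2

end Pool.Agent.H70.KP
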