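import Mathlib

/-!
# [H70 KP HE] two facts on the binary entropy

gain. Let p' = p / (1-p) in (p, 1/2], mid = (p + p')/2 <= (1/3 + 1/2)/2 = 5/12. binEntropy is increasing on
[0, 1/2] (Real.binEntropy_strictMonoOn): H p' >= H mid. Mean value theorem on [p, mid]
(exists_deriv_eq_slope or Convex bounds): H mid - H p = (mid - p) H'(xi), H'(xi) = log (1-xi) - log xi
(Real.deriv_binEntropy) >= log ((7/12)/(5/12)) = log (7/5) >= 1/4 for xi <= 5/12 (7/5 >= exp (1/4):
exp (1/4)^4 = e < 2.72 <= (7/5)^4 = 3.84). mid - p = p^2 / (2 (1-p)) >= p^2 / 2. Product >= p^2 / 8.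
ent_ge: binEntropy p >= p log (1/p) >= p log 3 >= p (the second summand is >= 0, log 3 >= 1).
-/

namespace Pool.Agent.H70.KP

theorem gain {p : ℝ} (h0 : 0 < p) (h1 : p ≤ 1 / 3) :
    Real.binEntropy p + p ^ 2 / 8 ≤ Real.binEntropy (p / (1 - p)) := by
  have hq : 0 < 1 - p := by linarith
  set p' := p / (1 - p) with hp'
  have hp'mul : p' * (1 - p) = p := div_mul_cancel₀ _ hq.ne'
  have hp'half : p' ≤ 1 / 2 := by
    rw [hp', div_le_iff₀ hq]
    linarith
  have hdiff : p ^ 2 ≤ p' - p := by
    have h2 : p' - p = p ^ 2 / (1 - p) := by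
      rw [hp']
      field_simp
      ring
    rw [h2, le_div_iff₀ hq]
    have : 0 < p ^ 2 := by positivity
    nlinarith
  have hpp : 0 < p ^ 2 := by positivity
  set m := (p + p') / 2 with hm
  have hpm : p < m := by
    rw [hm]
    linarith
  have hmp : m ≤ p' := by
    rw [hm]
    linarith
  have hm5 : m ≤ 5 / 12 := by
    rw [hm]
    linarith
  have hmono : Real.binEntropy m ≤ Real.binEntropy p' := by
    refine Real.binEntropy_strictMonoOn.monotoneOn ?_ ?_ hmp
    · exact ⟨by linarith, by norm_num; linarith⟩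
    · exact ⟨by linarith, by norm_num; linarith⟩
  obtain ⟨c, hc, hder⟩ := exists_deriv_eq_slope Real.binEntropy hpm
    (Real.binEntropy_continuous.continuousOn) (fun x hx =>
      (Real.differentiableAt_binEntropy (by
        have := hx.1
        linarith) (by
        have := hx.2
        linarith)).differentiableWithinAt)
  rw [Real.deriv_binEntropy] at hder
  obtain ⟨hc1, hc2⟩ := hc
  have hc0 : 0 < c := by linarith
  have hc3 : 0 < 1 - c := by linarith
  have hlog : 1 / 4 ≤ Real.log (1 - c) - Real.log c := by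
    rw [← Real.log_div hc3.ne' hc0.ne']
    have h2 := Real.one_sub_inv_le_log_of_pos (div_pos hc3 hc0)
    have h3 : ((1 - c) / c)⁻¹ ≤ 3 / 4 := by
      rw [inv_div, div_le_iff₀ hc3]
      linarith
    linarith
  rw [hder, le_div_iff₀ (by linarith)] at hlog
  have h5 : p ^ 2 / 2 ≤ m - p := by
    rw [hm]
    linarith
  linarith

theorem ent_ge {p : ℝ} (h0 : 0 < p) (h1 : p ≤ 1 / 3) : p ≤ Real.binEntropy p := by
  unfold Real.binEntropy
  have hq : 0 < 1 - p := by linarith
  have h2 : 1 ≤ Real.log p⁻¹ := by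
    rw [Real.le_log_iff_exp_le (by positivity)]
    have h3 : (3 : ℝ) ≤ p⁻¹ := by
      rw [le_inv_comm₀ (by norm_num) h0]
      linarith
    have := Real.exp_one_lt_d9
    linarith
  have h3 : 0 ≤ (1 - p) * Real.log (1 - p)⁻¹ := by
    refine mul_nonneg hq.le (Real.log_nonneg ?_)
    rw [one_le_inv₀ hq]
    linarith
  nlinarith

end Pool.Agent.H70.KP
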