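import Pool.Agent.H70.KP.GB
import Pool.Agent.H70.KP.AA

/-!
# [H70 KP IS] one step of the invariants

base: Inv and s <= tau give Base.
inv_stay: y' A = y A gf A. nonneg, dead clear; ymax: gf_le; nobad unchanged. low0: T has no near chosen
set, so nc is empty, tg = 1, low gives (1 - del) DD <= S T (nc_le), le_gf with th = 1. low1: B in C with
d = (B \ T).card in [1, j): nc = {B} (nc_le), tg = 1 - r_d, le_gf with th = 1 - r_d; the exponent
(1 - r_d - del)(e (s+1)) + r_d st B is the old one plus (1 - r_d - del) e.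
inv_pick: B new, B not in C, y B > 0. y' A = 0 if A is disjoint from B, y A gf A otherwise. dead: by
definition or old dead. sub clear. int: B meets all members of C (otherwise y B = 0 by dead), B is
nonempty (k >= 1), so insert B C is intersecting. card: <= s + 1. ymax. nobad: the new state satisfies Base
(s + 1 <= tau) so R1.nobad applies. low0: T alive and far for insert B C is alive and far for C, as above.
low1: T alive for insert B C (so not disjoint from B: y' T = y T gf T). If the near set is an old B0 in C: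
as in inv_stay (st' B0 = st B0 since B0 <> B). If it is B itself, d = (B \ T).card in [1, j): no B0 in C
is near T (nobad of the new state: (B0 \ B).card >= 2 j but (B0 \ B).card <= (B0 \ T).card +
(T \ B).card, tri, sd_symm), so low0 of the old state gives y T >= exp ((1 - del)(e s)), gf T >=
exp ((1 - del) e) (th = 1), and st' B = e s: (1 - r_d - del)(e (s+1)) + r_d (e s) =
(1 - del)(e s) + (1 - r_d - del) e <= (1 - del) (e (s+1)).
-/

namespace Pool.Agent.H70.KP

open Finset
open Pool.Agent.H70.KG (KS DD S gf up0 up pr pr0)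

variable {n k : ℕ}

theorem Inv.base {P : Par n k} {s : ℕ} {σ : Sta n} (h : Inv P s σ) (hs : s ≤ P.tau) :
    Base P s σ :=
  ⟨hs, h.nonneg, h.dead, h.sub, h.ymax, h.phi⟩

private theorem ymax_step {P : Par n k} {s : ℕ} {σ : Sta n} (h : Inv P s σ) (b : Base P s σ)
    {A : Finset (Fin n)} (hA : A ∈ KS n k) :
    σ.y A * gf n k P.e σ.y A ≤ Real.exp ((1 + 2 * P.del) * (P.e * ((s + 1 : ℕ) : ℝ))) := by
  calc σ.y A * gf n k P.e σ.y A
      ≤ Real.exp ((1 + 2 * P.del) * (P.e * s)) * Real.exp ((1 + 2 * P.del) * P.e) :=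
        mul_le_mul (h.ymax A hA) (gf_le b hA) (gf_nonneg b hA) (Real.exp_pos _).le
    _ = Real.exp ((1 + 2 * P.del) * (P.e * ((s + 1 : ℕ) : ℝ))) := by
        rw [← Real.exp_add]
        congr 1
        push_cast
        ring

private theorem low0_step {P : Par n k} {s : ℕ} {σ : Sta n} (h : Inv P s σ) (b : Base P s σ)
    {T : Finset (Fin n)} (hT : T ∈ KS n k) (hl : ∀ B ∈ σ.C, ¬ Disjoint T B)
    (hf : ∀ B ∈ σ.C, P.j ≤ (B \ T).card) :
    Real.exp ((1 - P.del) * (P.e * ((s + 1 : ℕ) : ℝ))) ≤ σ.y T * gf n k P.e σ.y T := by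
  have hnc : nc P.j σ.C T = ∅ := by
    unfold nc
    refine filter_eq_empty_iff.mpr fun B hB => ?_
    have := hf B hB
    omega
  have htg : tg k P.j σ.C T = 1 := by
    unfold tg
    rw [hnc]
    simp
  have h1 := low b hT (nc_le b hT)
  rw [htg] at h1
  calc Real.exp ((1 - P.del) * (P.e * ((s + 1 : ℕ) : ℝ)))
      = Real.exp ((1 - P.del) * (P.e * s)) * Real.exp ((1 - P.del) * P.e) := by
        rw [← Real.exp_add]
        congr 1
        push_cast
        ring
    _ ≤ _ := mul_le_mul (h.low0 T hT hl hf) (le_gf b hT h1) (Real.exp_pos _).le (h.nonneg T hT)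

private theorem low1_step {P : Par n k} {s : ℕ} {σ : Sta n} (h : Inv P s σ) (b : Base P s σ)
    {T : Finset (Fin n)} (hT : T ∈ KS n k) (hl : ∀ B ∈ σ.C, ¬ Disjoint T B)
    {B : Finset (Fin n)} (hB : B ∈ σ.C) (h1 : 1 ≤ (B \ T).card) (h2 : (B \ T).card < P.j) :
    Real.exp ((1 - rr n k (B \ T).card - P.del) * (P.e * ((s + 1 : ℕ) : ℝ)) +
      rr n k (B \ T).card * σ.st B) ≤ σ.y T * gf n k P.e σ.y T := by
  have hBn : B ∈ nc P.j σ.C T := mem_filter.mpr ⟨hB, h2⟩
  have hnc : nc P.j σ.C T = {B} := by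
    have h3 := nc_le b hT
    rw [card_le_one] at h3
    ext A
    constructor
    · intro hA
      exact mem_singleton.mpr (h3 A hA B hBn)
    · intro hA
      rw [mem_singleton] at hA
      rw [hA]
      exact hBn
  have htg : tg k P.j σ.C T = 1 - rr n k (B \ T).card := by
    unfold tg
    rw [hnc]
    simp
  have h3 := low b hT (nc_le b hT)
  rw [htg] at h3
  calc Real.exp ((1 - rr n k (B \ T).card - P.del) * (P.e * ((s + 1 : ℕ) : ℝ)) +
        rr n k (B \ T).card * σ.st B)
      = Real.exp ((1 - rr n k (B \ T).card - P.del) * (P.e * s) +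
          rr n k (B \ T).card * σ.st B) *
          Real.exp ((1 - rr n k (B \ T).card - P.del) * P.e) := by
        rw [← Real.exp_add]
        congr 1
        push_cast
        ring
    _ ≤ _ := mul_le_mul (h.low1 T hT hl B hB h1 h2) (le_gf b hT h3) (Real.exp_pos _).le
        (h.nonneg T hT)

theorem inv_stay {P : Par n k} {s : ℕ} (hs : s < P.tau) {σ : Sta n} (h : Inv P s σ)
    (hphi : P.Phi (s + 1) (σ.stay k P.e) ≤ 4 ^ n) : Inv P (s + 1) (σ.stay k P.e) := by
  have b := h.base hs.le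
  refine ⟨?_, ?_, h.sub, h.int, h.card.trans (Nat.le_succ s), ?_, h.nobad, ?_, ?_, hphi⟩
  · intro A hA
    exact mul_nonneg (h.nonneg A hA) (gf_nonneg b hA)
  · intro A hA hB
    show σ.y A * gf n k P.e σ.y A = 0
    rw [h.dead A hA hB, zero_mul]
  · intro A hA
    exact ymax_step h b hA
  · intro T hT hl hf
    exact low0_step h b hT hl hf
  · intro T hT hl B hB h1 h2
    exact low1_step h b hT hl hB h1 h2

theorem inv_pick {P : Par n k} {s : ℕ} (hs : s < P.tau) {σ : Sta n} (h : Inv P s σ)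
    {B : Finset (Fin n)} (hB : B ∈ KS n k) (hBC : B ∉ σ.C) (hy : 0 < σ.y B)
    (hphi : P.Phi (s + 1) (σ.pick k P.e (P.e * s) B) ≤ 4 ^ n) :
    Inv P (s + 1) (σ.pick k P.e (P.e * s) B) := by
  have b := h.base hs.le
  have hup : ∀ A : Finset (Fin n), (σ.pick k P.e (P.e * s) B).y A =
      if Disjoint A B then 0 else σ.y A * gf n k P.e σ.y A := fun A => rfl
  have hupn : ∀ A : Finset (Fin n), ¬ Disjoint A B → (σ.pick k P.e (P.e * s) B).y A =
      σ.y A * gf n k P.e σ.y A := fun A hA => by rw [hup, if_neg hA]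
  have hnn : ∀ A ∈ KS n k, 0 ≤ (σ.pick k P.e (P.e * s) B).y A := by
    intro A hA
    rw [hup]
    split_ifs
    · exact le_rfl
    · exact mul_nonneg (h.nonneg A hA) (gf_nonneg b hA)
  have hdead : ∀ A ∈ KS n k, (∃ B' ∈ insert B σ.C, Disjoint A B') →
      (σ.pick k P.e (P.e * s) B).y A = 0 := by
    intro A hA ⟨B', hB', hd⟩
    rw [hup]
    rcases mem_insert.mp hB' with h1 | h1
    · rw [h1] at hd
      rw [if_pos hd]
    · rw [h.dead A hA ⟨B', h1, hd⟩, zero_mul]
      exact ite_self 0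
  have hsub : insert B σ.C ⊆ KS n k := insert_subset hB h.sub
  have hym : ∀ A ∈ KS n k, (σ.pick k P.e (P.e * s) B).y A ≤
      Real.exp ((1 + 2 * P.del) * (P.e * ((s + 1 : ℕ) : ℝ))) := by
    intro A hA
    rw [hup]
    split_ifs
    · exact (Real.exp_pos _).le
    · exact ymax_step h b hA
  have b' : Base P (s + 1) (σ.pick k P.e (P.e * s) B) := ⟨hs, hnn, hdead, hsub, hym, hphi⟩
  have hmeet : ∀ A ∈ σ.C, ¬ Disjoint B A := by
    intro A hA hd
    have := h.dead B hB ⟨A, hA, hd⟩
    linarith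
  have hBk : B.card = k := mem_KS.mp hB
  have hkey : ∀ B₁ ∈ insert B σ.C, ∀ B₂ ∈ insert B σ.C, (B₁ ∩ B₂).Nonempty := by
    intro B₁ h1 B₂ h2
    rcases mem_insert.mp h1 with h1 | h1
    · rcases mem_insert.mp h2 with h2 | h2
      · rw [h1, h2, inter_self, ← card_pos, hBk]
        exact P.hk
      · rw [h1]
        have h3 := hmeet B₂ h2
        rwa [disjoint_iff_inter_eq_empty, ← ne_eq, ← nonempty_iff_ne_empty] at h3
    · rcases mem_insert.mp h2 with h2 | h2
      · rw [h2, inter_comm]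
        have h3 := hmeet B₁ h1
        rwa [disjoint_iff_inter_eq_empty, ← ne_eq, ← nonempty_iff_ne_empty] at h3
      · exact h.int.2 B₁ h1 B₂ h2
  refine ⟨hnn, hdead, hsub, ⟨fun A hA => mem_KS.mp (hsub hA), hkey⟩, ?_, hym, ?_, ?_, ?_, hphi⟩
  · exact (card_insert_le _ _).trans (Nat.succ_le_succ h.card)
  · intro B₁ h1 B₂ h2 hne
    exact nobad b' h1 h2 hne
  · intro T hT hl hf
    rw [hupn T (hl B (mem_insert_self _ _))]
    exact low0_step h b hT (fun B₁ h1 => hl B₁ (mem_insert_of_mem h1))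
      (fun B₁ h1 => hf B₁ (mem_insert_of_mem h1))
  · intro T hT hl B₁ hB₁ h1 h2
    rw [hupn T (hl B (mem_insert_self _ _))]
    have hl' : ∀ B₂ ∈ σ.C, ¬ Disjoint T B₂ := fun B₂ h3 => hl B₂ (mem_insert_of_mem h3)
    rcases mem_insert.mp hB₁ with h3 | h3
    · rw [h3] at h1 h2
      rw [h3]
      have hst : (σ.pick k P.e (P.e * s) B).st B = P.e * s := if_pos rfl
      rw [hst]
      have hf : ∀ B₂ ∈ σ.C, P.j ≤ (B₂ \ T).card := by
        intro B₂ h4
        have hne : B ≠ B₂ := fun h5 => hBC (h5 ▸ h4)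
        have h5 : 2 * P.j ≤ (B₂ \ B).card :=
          nobad b' (mem_insert_self _ _) (mem_insert_of_mem h4) hne
        have h6 := tri B₂ B T
        have h7 := sd_symm hT hB
        omega
      refine le_trans ?_ (low0_step h b hT hl' hf)
      refine Real.exp_le_exp.mpr ?_
      have hr0 := rr_nonneg n k (B \ T).card
      have he := P.e0
      push_cast
      nlinarith [mul_nonneg hr0 he.le]
    · have hst : (σ.pick k P.e (P.e * s) B).st B₁ = σ.st B₁ := by
        refine if_neg ?_
        intro h4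
        exact hBC (h4 ▸ h3)
      rw [hst]
      exact low1_step h b hT hl' h3 h1 h2

theorem inv_step {P : Par n k} {s : ℕ} (hs : s < P.tau) {σ : Sta n} (h : Inv P s σ) :
    ∃ σ' : Sta n, Inv P (s + 1) σ' := by
  rcases good_choice P s hs (good (h.base hs.le)) with h1 | ⟨B, hB, hBC, hy, h1⟩
  · exact ⟨_, inv_stay hs h (h1.trans h.phi)⟩
  · exact ⟨_, inv_pick hs h hB hBC hy (h1.trans h.phi)⟩

end Pool.Agent.H70.KP
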