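import Pool.Agent.H70.KP.CB

/-!
# [H70 KP LO] the functionals of the weights are local

S, PS, TS (for families contained in KS), PV, PQ, PP depend only on the weights of the k-sets.
All are sums over members of KS: sum_congr.
-/

namespace Pool.Agent.H70.KP

open Finset
open Pool.Agent.H70.KG (KS DD S gf up0 up pr pr0)

variable {n k : ℕ} {y y' : Finset (Fin n) → ℝ}

theorem S_congr (h : ∀ A ∈ KS n k, y A = y' A) (U : Finset (Fin n)) :
    S n k y U = S n k y' U := by
  unfold Pool.Agent.H70.KG.S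
  exact sum_congr rfl fun A hA => h A (mem_filter.mp hA).1

theorem PS_congr (h : ∀ A ∈ KS n k, y A = y' A) (d : ℕ) : PS n k d y = PS n k d y' := by
  unfold PS
  refine sum_congr rfl fun A hA => sum_congr rfl fun B hB => ?_
  rw [h A hA, h B (mem_filter.mp hB).1]

theorem TS_congr (h : ∀ A ∈ KS n k, y A = y' A) {F : Finset (Finset (Fin n))}
    (hF : F ⊆ KS n k) (j m : ℕ) : TS j m y F = TS j m y' F := by
  unfold TS
  exact sum_congr rfl fun f hf => prod_congr rfl fun i _ =>
    h (f i) (hF (Fintype.mem_piFinset.mp (mem_filter.mp hf).1 i))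

theorem dis_sub (n k : ℕ) (V : Finset (Fin n)) : dis n k V ⊆ KS n k := filter_subset _ _

theorem nea_sub (n k j : ℕ) (V : Finset (Fin n)) : nea n k j V ⊆ KS n k := filter_subset _ _

theorem PV_congr (P : Par n k) (s : ℕ) (h : ∀ A ∈ KS n k, y A = y' A) : P.PV s y = P.PV s y' := by
  unfold Par.PV
  exact sum_congr rfl fun V _ => by rw [S_congr h]

theorem PQ_congr (P : Par n k) (s : ℕ) (h : ∀ A ∈ KS n k, y A = y' A) : P.PQ s y = P.PQ s y' := by
  unfold Par.PQ
  congr 2
  · exact sum_congr rfl fun V _ => by rw [TS_congr h (dis_sub n k V)]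
  · exact sum_congr rfl fun V _ => by rw [TS_congr h (nea_sub n k P.j V)]

theorem PP_congr (P : Par n k) (s d : ℕ) (h : ∀ A ∈ KS n k, y A = y' A) :
    P.PP s d y = P.PP s d y' := by
  unfold Par.PP
  rw [PS_congr h]

end Pool.Agent.H70.KP
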