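import Pool.Agent.H70.KP.MA
import Pool.Agent.H70.KP.BF

/-!
# [H70 KP PM] product moments

tuple_moment. Put x_i = e S (f i) / D in [0, 2 e], x_il = e S (f i u f l) / D. The product of the new
weights is (product of y (f i) gf (f i)) if B meets all f i and 0 otherwise (if nothing is chosen it is the
product). So E1 = (prod y (f i)) (prod gf (f i)) (1 - Q), Q = sum of pr B over the B in KS disjoint from
some f i. Bonferroni (module BF, p i = Disjoint B (f i)), summed with the weights pr B >= 0 and pr_dis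
(B is disjoint from f i and f l iff it is disjoint from f i u f l):
Q >= sum x_i - sum_(i<l) x_il. prod gf = 1 / prod (1 - x_i) <= 1 / (1 - sum x_i), sum x_i <= 2 m e <= 1/2
(4 n e <= 1, m <= n). So E1 <= prod y * (1 - sum x_i + sum x_il) / (1 - sum x_i) <= prod y * (1 + 2 sum x_il).
If 1 - Q < 0 could occur? No: Q <= 1 by Mild.p0; only the upper bound of 1 - Q is used and
prod y prod gf >= 0.

pair_moment: the same with m = 2 and exact: E1 = y A y A' gf A gf A' (1 - x - x' + x'') where
x'' = e S (A u A') / D (inclusion-exclusion, valid also for A = A'), and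
(1 - x - x' + x'') / ((1-x)(1-x')) <= 1 + x'' / ((1-x)(1-x')) <= 1 + (1 + 16 e) x'', because
1 - x - x' <= (1-x)(1-x') and (1 - 2 e)^(-2) <= 1 + 16 e for 0 < e <= 1/16.
-/

namespace Pool.Agent.H70.KP

open Finset
open Pool.Agent.H70.KG (KS DD S gf up0 up pr pr0)

variable {n k : ℕ} {e : ℝ} {y : Finset (Fin n) → ℝ}

private theorem moment_eq (q : Finset (Fin n) → Prop) [DecidablePred q] (G : ℝ) :
    ∑ B ∈ KS n k, pr n k e y B * (if q B then 0 else G) + pr0 n k e y * G =
      G * (1 - ∑ B ∈ KS n k, pr n k e y B * (if q B then 1 else 0)) := by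
  have h1 : ∑ B ∈ KS n k, pr n k e y B * (if q B then 0 else G) =
      G * (∑ B ∈ KS n k, pr n k e y B - ∑ B ∈ KS n k, pr n k e y B * (if q B then 1 else 0)) := by
    rw [← sum_sub_distrib, mul_sum]
    refine sum_congr rfl fun B _ => ?_
    split_ifs <;> ring
  have h2 := sum_pr n k e y
  rw [h1]
  have h3 : pr0 n k e y = 1 - ∑ B ∈ KS n k, pr n k e y B := by linarith
  rw [h3]
  ring

private theorem sum_ind (q : Finset (Fin n) → Prop) [DecidablePred q] :
    ∑ B ∈ KS n k, pr n k e y B * (if q B then 1 else 0) =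
      ∑ B ∈ (KS n k).filter q, pr n k e y B := by
  rw [sum_filter]
  refine sum_congr rfl fun B _ => ?_
  split_ifs <;> ring

theorem tuple_moment (h : Mild n k e y) {m : ℕ} (hm : m ≤ n) (f : Fin m → Finset (Fin n))
    (hf : ∀ i, f i ∈ KS n k) :
    E1 n k e y (fun y' => ∏ i, y' (f i)) ≤
      (∏ i, y (f i)) *
        (1 + 2 * ∑ i, ∑ l, (if i < l then e * S n k y (f i ∪ f l) / DD n k else 0)) := by
  set x : Fin m → ℝ := fun i => e * S n k y (f i) / DD n k with hx
  set X2 : ℝ := ∑ i, ∑ l, (if i < l then e * S n k y (f i ∪ f l) / DD n k else 0) with hX2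
  set Y := ∏ i, y (f i) with hY
  set G := ∏ i, gf n k e y (f i) with hG
  have hY0 : 0 ≤ Y := prod_nonneg fun i _ => h.nonneg _ (hf i)
  have hG0 : 0 ≤ G := prod_nonneg fun i _ => zero_le_one.trans (one_le_gf h (hf i))
  have hX20 : 0 ≤ X2 := by
    refine sum_nonneg fun i _ => sum_nonneg fun l _ => ?_
    split_ifs
    · exact x_nonneg h _
    · exact le_rfl
  have hx0 : ∀ i, 0 ≤ x i := fun i => x_nonneg h _
  have hx1 : ∀ i, x i ≤ 2 * e := fun i => x_le h (hf i)
  have he := h.e_pos
  have he8 := h.e_le8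
  have hsum : ∑ i, x i ≤ 1 / 2 := by
    have h1 : ∑ i : Fin m, x i ≤ ∑ _i : Fin m, 2 * e := sum_le_sum fun i _ => hx1 i
    rw [sum_const, card_univ, Fintype.card_fin, nsmul_eq_mul] at h1
    have h2 : (m : ℝ) ≤ n := by exact_mod_cast hm
    have h3 := h.e_le
    nlinarith
  have hE : E1 n k e y (fun y' => ∏ i, y' (f i)) = Y * G *
      (1 - ∑ B ∈ KS n k, pr n k e y B * (if ∃ i, Disjoint B (f i) then 1 else 0)) := by
    rw [← moment_eq]
    unfold E1
    congr 1
    · refine sum_congr rfl fun B _ => ?_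
      congr 1
      by_cases hd : ∃ i, Disjoint B (f i)
      · rw [if_pos hd]
        obtain ⟨i, hi⟩ := hd
        refine prod_eq_zero (mem_univ i) ?_
        unfold Pool.Agent.H70.KG.up
        rw [if_pos hi.symm]
      · rw [if_neg hd, hY, hG, ← prod_mul_distrib]
        refine prod_congr rfl fun i _ => ?_
        unfold Pool.Agent.H70.KG.up
        rw [if_neg fun hi => hd ⟨i, hi.symm⟩]
    · congr 1
      rw [hY, hG, ← prod_mul_distrib]
      rfl
  have hQ : ∑ i, x i - X2 ≤
      ∑ B ∈ KS n k, pr n k e y B * (if ∃ i, Disjoint B (f i) then 1 else 0) := by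
    have h1 : ∑ i, x i - X2 = ∑ B ∈ KS n k, pr n k e y B *
        ((∑ i, (if Disjoint B (f i) then (1 : ℝ) else 0)) -
      ∑ i, ∑ l, (if i < l then (if Disjoint B (f i) ∧ Disjoint B (f l) then (1 : ℝ) else 0)
        else 0)) := by
      have h2 : ∑ i, x i = ∑ B ∈ KS n k, pr n k e y B *
          ∑ i, (if Disjoint B (f i) then (1 : ℝ) else 0) := by
        simp only [mul_sum]
        rw [sum_comm]
        refine sum_congr rfl fun i _ => ?_
        rw [sum_ind, pr_dis]
      have h3 : X2 = ∑ B ∈ KS n k, pr n k e y B *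
          ∑ i, ∑ l, (if i < l then (if Disjoint B (f i) ∧ Disjoint B (f l) then (1 : ℝ) else 0)
            else 0) := by
        simp only [mul_sum]
        rw [sum_comm]
        refine sum_congr rfl fun i _ => ?_
        rw [sum_comm]
        refine sum_congr rfl fun l _ => ?_
        by_cases hil : i < l
        · simp only [if_pos hil]
          rw [sum_ind, ← pr_dis]
          refine sum_congr ?_ fun _ _ => rfl
          ext B
          simp only [mem_filter, disjoint_union_right]
        · simp only [if_neg hil, mul_zero, sum_const_zero]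
      rw [h2, h3, ← sum_sub_distrib]
      exact sum_congr rfl fun B _ => by ring
    rw [h1]
    refine sum_le_sum fun B hB => ?_
    exact mul_le_mul_of_nonneg_left (bonf (fun i => Disjoint B (f i))) (pr_nonneg h hB)
  have hGp : G * ∏ i, (1 - x i) = 1 := by
    rw [hG, ← prod_mul_distrib]
    exact prod_eq_one fun i _ => gf_mul h (hf i)
  have hp := one_sub_sum_le x hx0 (fun i => by linarith [hx1 i])
  have hG1 : G * (1 - ∑ i, x i) ≤ 1 := by
    calc G * (1 - ∑ i, x i) ≤ G * ∏ i, (1 - x i) := mul_le_mul_of_nonneg_left hp hG0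
      _ = 1 := hGp
  have hG2 : G ≤ 2 := by nlinarith
  rw [hE]
  calc Y * G * (1 - ∑ B ∈ KS n k, pr n k e y B * (if ∃ i, Disjoint B (f i) then 1 else 0))
      ≤ Y * G * (1 - ∑ i, x i + X2) :=
        mul_le_mul_of_nonneg_left (by linarith) (mul_nonneg hY0 hG0)
    _ = Y * (G * (1 - ∑ i, x i) + G * X2) := by ring
    _ ≤ Y * (1 + 2 * X2) := by
        refine mul_le_mul_of_nonneg_left ?_ hY0
        exact add_le_add hG1 (mul_le_mul_of_nonneg_right hG2 hX20)

theorem pair_moment (h : Mild n k e y) {A A' : Finset (Fin n)} (hA : A ∈ KS n k)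
    (hA' : A' ∈ KS n k) :
    E1 n k e y (fun y' => y' A * y' A') ≤
      y A * y A' * (1 + (1 + 16 * e) * (e * S n k y (A ∪ A') / DD n k)) := by
  set g := gf n k e y A with hg
  set g' := gf n k e y A' with hg'
  set x := e * S n k y A / DD n k with hx
  set x' := e * S n k y A' / DD n k with hx'
  set x2 := e * S n k y (A ∪ A') / DD n k with hx2
  have he := h.e_pos
  have he8 := h.e_le8
  have hx0 : 0 ≤ x := x_nonneg h _
  have hx0' : 0 ≤ x' := x_nonneg h _
  have hx20 : 0 ≤ x2 := x_nonneg h _
  have hx1 : x ≤ 2 * e := x_le h hA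
  have hx1' : x' ≤ 2 * e := x_le h hA'
  have hg1 : 1 ≤ g := one_le_gf h hA
  have hg1' : 1 ≤ g' := one_le_gf h hA'
  have hgx : g * (1 - x) = 1 := gf_mul h hA
  have hgx' : g' * (1 - x') = 1 := gf_mul h hA'
  have hyy : 0 ≤ y A * y A' := mul_nonneg (h.nonneg A hA) (h.nonneg A' hA')
  have hE : E1 n k e y (fun y' => y' A * y' A') = (y A * y A') * (g * g') *
      (1 - ∑ B ∈ KS n k, pr n k e y B * (if Disjoint B A ∨ Disjoint B A' then 1 else 0)) := by
    rw [← moment_eq]
    unfold E1
    congr 1
    · refine sum_congr rfl fun B _ => ?_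
      congr 1
      show up n k e y B A * up n k e y B A' = _
      unfold Pool.Agent.H70.KG.up
      by_cases h1 : Disjoint B A
      · rw [if_pos h1.symm, if_pos (Or.inl h1), zero_mul]
      · by_cases h2 : Disjoint B A'
        · rw [if_pos h2.symm, if_pos (Or.inr h2), mul_zero]
        · rw [if_neg fun hd => h1 hd.symm, if_neg fun hd => h2 hd.symm,
            if_neg (fun hd => hd.elim h1 h2)]
          ring
    · congr 1
      show up0 n k e y A * up0 n k e y A' = _
      unfold Pool.Agent.H70.KG.up0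
      ring
  have hQ : ∑ B ∈ KS n k, pr n k e y B * (if Disjoint B A ∨ Disjoint B A' then 1 else 0) =
      x + x' - x2 := by
    have h1 : x = ∑ B ∈ KS n k, pr n k e y B * (if Disjoint B A then 1 else 0) := by
      rw [sum_ind, pr_dis]
    have h2 : x' = ∑ B ∈ KS n k, pr n k e y B * (if Disjoint B A' then 1 else 0) := by
      rw [sum_ind, pr_dis]
    have h3 : x2 = ∑ B ∈ KS n k, pr n k e y B *
        (if Disjoint B A ∧ Disjoint B A' then 1 else 0) := by
      rw [sum_ind, hx2, ← pr_dis]
      refine sum_congr ?_ fun _ _ => rfl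
      ext B
      simp only [mem_filter, disjoint_union_right]
    rw [h1, h2, h3, ← sum_add_distrib, ← sum_sub_distrib]
    refine sum_congr rfl fun B _ => ?_
    by_cases h1 : Disjoint B A <;> by_cases h2 : Disjoint B A' <;> simp [h1, h2]
  have hgg : 0 ≤ g * g' := by positivity
  have h1 : g * g' * (1 - x - x') ≤ 1 := by
    calc g * g' * (1 - x - x') ≤ g * g' * ((1 - x) * (1 - x')) :=
          mul_le_mul_of_nonneg_left (by nlinarith) hgg
      _ = (g * (1 - x)) * (g' * (1 - x')) := by ring
      _ = 1 := by rw [hgx, hgx', one_mul]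
  have h2 : g * g' ≤ 1 + 16 * e := by
    have h3 : g * (1 - 2 * e) ≤ 1 := by
      rw [← hgx]
      exact mul_le_mul_of_nonneg_left (by linarith) (by linarith)
    have h4 : g' * (1 - 2 * e) ≤ 1 := by
      rw [← hgx']
      exact mul_le_mul_of_nonneg_left (by linarith) (by linarith)
    have h5 : 0 ≤ g' * (1 - 2 * e) := mul_nonneg (by linarith) (by linarith)
    have h6 : (g * g') * (1 - 2 * e) ^ 2 ≤ 1 := by
      calc (g * g') * (1 - 2 * e) ^ 2 = (g * (1 - 2 * e)) * (g' * (1 - 2 * e)) := by ring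
        _ ≤ 1 * 1 := mul_le_mul h3 h4 h5 zero_le_one
        _ = 1 := one_mul 1
    have h7 : 1 ≤ (1 + 16 * e) * (1 - 2 * e) ^ 2 := by
      have h8 : 0 ≤ e * (12 - 60 * e + 64 * e ^ 2) :=
        mul_nonneg he.le (by nlinarith [sq_nonneg e])
      nlinarith
    have h9 : 0 < (1 - 2 * e) ^ 2 := by
      have : 0 < 1 - 2 * e := by linarith
      positivity
    exact le_of_mul_le_mul_right (h6.trans h7) h9
  rw [hE, hQ]
  calc y A * y A' * (g * g') * (1 - (x + x' - x2))
      = y A * y A' * (g * g' * (1 - x - x') + g * g' * x2) := by ring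
    _ ≤ y A * y A' * (1 + (1 + 16 * e) * x2) := by
        refine mul_le_mul_of_nonneg_left ?_ hyy
        exact add_le_add h1 (mul_le_mul_of_nonneg_right h2 hx20)

end Pool.Agent.H70.KP
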