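import Pool.Agent.H70.KP.RO

/-!
# [H70 KP R1] bounds from the exponential terms

log (4^n) <= 2 n (4 <= exp 2), c (e s) <= n (Par.c_le).
upp: V in Vc. read_V: a1/sz (S - sz) <= 3 n, so S - sz <= 3 n sz / a1 = d1 sz (aa1, sz > 0).
low: read_T: -(a/DD)(S T - tg DD) <= 3 n, so S T >= tg DD - 3 n DD / a = (tg - del) DD (aa).
nobad: read_K and bad_le_KK: bad < 1; bad is a sum of natural numbers, so all of them are 0: for B, B' in C
distinct, (B' \ B).card >= 1 (eq_of_sd), hence (B' \ B).card >= 2 j.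
nc_le: two distinct members B, B' of nc j C T would have (B' \ B).card <= (B' \ T).card +
(T \ B).card <= 2 (j-1) < 2 j (tri, sd_symm), contradiction.
-/

namespace Pool.Agent.H70.KP

open Finset
open Pool.Agent.H70.KG (KS DD S gf up0 up pr pr0)

variable {n k : ℕ}

private theorem le_two_mul {X : ℝ} (h : Real.exp X ≤ 4 ^ n) : X ≤ 2 * n := by
  have h1 : (4 : ℝ) ≤ Real.exp 2 := by
    have h2 := Real.exp_one_gt_d9
    have h3 : Real.exp 2 = Real.exp 1 * Real.exp 1 := by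
      rw [← Real.exp_add]
      norm_num
    rw [h3]
    nlinarith
  have h2 : (4 : ℝ) ^ n ≤ Real.exp (2 * n) := by
    rw [mul_comm, Real.exp_nat_mul]
    exact pow_le_pow_left₀ (by norm_num) h1 n
  exact Real.exp_le_exp.mp (h.trans h2)

theorem upp {P : Par n k} {s : ℕ} {σ : Sta n} (b : Base P s σ) {V : Finset (Fin n)}
    (h1 : k ≤ V.card) (h2 : V.card < k + 2 * P.j) :
    S n k σ.y V ≤ (1 + P.d1) * sz n k V.card := by
  have h3 := le_two_mul (read_V b (mem_filter.mpr ⟨mem_univ V, h1, h2⟩))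
  have h4 := P.c_le b.hs
  have h5 := P.aa1
  have hs := P.sz_pos h2
  have ha : 0 < P.a1 := lt_of_lt_of_le (lt_of_lt_of_le one_pos P.a_one) P.a_le
  have h6 : P.a1 * ((S n k σ.y V - sz n k V.card) / sz n k V.card) ≤ P.a1 * P.d1 := by
    have h7 : P.a1 * ((S n k σ.y V - sz n k V.card) / sz n k V.card) =
        P.a1 / sz n k V.card * (S n k σ.y V - sz n k V.card) := by ring
    rw [h7]
    linarith
  have h7 := le_of_mul_le_mul_left h6 ha
  have h8 := (div_le_iff₀ hs).mp h7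
  linarith

theorem low {P : Par n k} {s : ℕ} {σ : Sta n} (b : Base P s σ) {T : Finset (Fin n)}
    (hT : T ∈ KS n k) (hc : (nc P.j σ.C T).card ≤ 1) :
    (tg k P.j σ.C T - P.del) * DD n k ≤ S n k σ.y T := by
  have h3 := le_two_mul (read_T b hT hc)
  have h4 := P.c_le b.hs
  have h5 := P.aa
  have hD := P.D_pos
  have ha : 0 < P.a := lt_of_lt_of_le one_pos P.a_one
  have h6 : P.a * ((tg k P.j σ.C T * DD n k - S n k σ.y T) / DD n k) ≤ P.a * P.del := by
    have h7 : P.a * ((tg k P.j σ.C T * DD n k - S n k σ.y T) / DD n k) =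
        -(P.a / DD n k) * (S n k σ.y T - tg k P.j σ.C T * DD n k) := by ring
    rw [h7]
    linarith
  have h7 := le_of_mul_le_mul_left h6 ha
  have h8 := (div_le_iff₀ hD).mp h7
  linarith

theorem nobad {P : Par n k} {s : ℕ} {σ : Sta n} (b : Base P s σ) {B B' : Finset (Fin n)}
    (hB : B ∈ σ.C) (hB' : B' ∈ σ.C) (hne : B ≠ B') : 2 * P.j ≤ (B' \ B).card := by
  have h1 : P.bad σ < 1 := lt_of_le_of_lt (bad_le_KK P b.hs b.nonneg) (read_K b)
  by_contra h2
  push Not at h2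
  have h3 : 1 ≤ (B' \ B).card := by
    by_contra h4
    exact hne (eq_of_sd (b.sub hB) (b.sub hB') (by omega))
  have h4 : B' ∈ σ.C.filter (fun A => 1 ≤ (A \ B).card ∧ (A \ B).card < 2 * P.j) :=
    mem_filter.mpr ⟨hB', h3, h2⟩
  have h5 : 0 < (σ.C.filter (fun A => 1 ≤ (A \ B).card ∧ (A \ B).card < 2 * P.j)).card :=
    card_pos.mpr ⟨B', h4⟩
  have h6 : ∀ x ∈ σ.C, (0 : ℝ) ≤
      ((σ.C.filter (fun A => 1 ≤ (A \ x).card ∧ (A \ x).card < 2 * P.j)).card : ℝ) :=
    fun x _ => Nat.cast_nonneg _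
  have h7 := single_le_sum h6 hB
  have h8 : (1 : ℝ) ≤ ((σ.C.filter (fun A => 1 ≤ (A \ B).card ∧
      (A \ B).card < 2 * P.j)).card : ℝ) := Nat.one_le_cast.mpr h5
  unfold Par.bad at h1
  linarith

theorem nc_le {P : Par n k} {s : ℕ} {σ : Sta n} (b : Base P s σ) {T : Finset (Fin n)}
    (hT : T ∈ KS n k) : (nc P.j σ.C T).card ≤ 1 := by
  rw [card_le_one]
  intro A hA A' hA'
  obtain ⟨hA1, hA2⟩ := mem_filter.mp hA
  obtain ⟨hA1', hA2'⟩ := mem_filter.mp hA'
  by_contra hne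
  have h1 := nobad b hA1 hA1' hne
  have h2 := tri A' A T
  have h3 := sd_symm hT (b.sub hA1)
  omega

end Pool.Agent.H70.KP
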