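import Pool.Agent.H70.KP.RO
import Pool.Agent.H70.KP.AH

/-!
# [H70 KP R2] the weight of a ball

X = sum of y A over the A in KS with (A \ T).card < j. X^2 = sum over A, A' in the ball of y A y A'. The
terms A = A': y A^2 <= ymax y A, ymax = exp ((1 + 2 del)(e s)) <= nu/2 (H3, s <= tau), together <= (nu/2) X.
The terms A <> A': d = (A' \ A).card >= 1 (eq_of_sd) and d <= (A' \ T).card + (T \ A).card <= 2 (j-1)
(tri, sd_symm), so together they are <= sum over d in Ico 1 (2 j) of PS d. PS d <= exp ((1+3 del) r_d (e tau)) *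
PP s d (PS_le_PP) <= exp (...) * 8 n pd d (read_P), sum <= nu^2/2 (H4). If X > nu then X^2 <= (nu/2) X + nu^2/2
< X^2/2 + X^2/2, a contradiction.
-/

namespace Pool.Agent.H70.KP

open Finset
open Pool.Agent.H70.KG (KS DD S gf up0 up pr pr0)

variable {n k : ℕ}

theorem ball {P : Par n k} {s : ℕ} {σ : Sta n} (b : Base P s σ) {T : Finset (Fin n)}
    (hT : T ∈ KS n k) :
    ∑ A ∈ (KS n k).filter (fun A => (A \ T).card < P.j), σ.y A ≤ P.nu := by
  set Bl := (KS n k).filter (fun A => (A \ T).card < P.j) with hBl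
  set X := ∑ A ∈ Bl, σ.y A with hX
  have hy := b.nonneg
  have hBK : ∀ A ∈ Bl, A ∈ KS n k := fun A hA => (mem_filter.mp hA).1
  have hnu := P.nu0
  have hym : ∀ A ∈ Bl, σ.y A ≤ P.nu / 2 := by
    intro A hA
    have h1 := b.ymax A (hBK A hA)
    have h2 : (s : ℝ) ≤ P.tau := by exact_mod_cast b.hs
    have h3 : (1 + 2 * P.del) * (P.e * s) ≤ (1 + 2 * P.del) * (P.e * P.tau) :=
      mul_le_mul_of_nonneg_left (mul_le_mul_of_nonneg_left h2 P.e0.le) (by linarith [P.del0])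
    have h4 := Real.exp_le_exp.mpr h3
    linarith [P.H3]
  have hX0 : 0 ≤ X := sum_nonneg fun A hA => hy A (hBK A hA)
  have hsq : X * X = ∑ A ∈ Bl, σ.y A * σ.y A +
      ∑ A ∈ Bl, ∑ A' ∈ Bl.filter (fun A' => A' ≠ A), σ.y A * σ.y A' := by
    rw [hX, sum_mul_sum, ← sum_add_distrib]
    refine sum_congr rfl fun A hA => ?_
    rw [← sum_filter_add_sum_filter_not Bl (fun A' => A' = A), filter_eq', if_pos hA,
      sum_singleton]
  have h1 : ∑ A ∈ Bl, σ.y A * σ.y A ≤ P.nu / 2 * X := by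
    rw [hX, mul_sum]
    exact sum_le_sum fun A hA => mul_le_mul_of_nonneg_right (hym A hA) (hy A (hBK A hA))
  have h2 : ∑ A ∈ Bl, ∑ A' ∈ Bl.filter (fun A' => A' ≠ A), σ.y A * σ.y A' ≤
      ∑ A ∈ KS n k, ∑ A' ∈ (KS n k).filter
        (fun A' => 1 ≤ (A' \ A).card ∧ (A' \ A).card < 2 * P.j), σ.y A * σ.y A' := by
    refine le_trans (sum_le_sum fun A hA => ?_) (sum_le_sum_of_subset_of_nonneg
      (fun A hA => hBK A hA) fun A hA _ => sum_nonneg fun A' hA' =>
        mul_nonneg (hy A hA) (hy A' (mem_filter.mp hA').1))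
    refine sum_le_sum_of_subset_of_nonneg (fun A' hA' => ?_) fun A' hA' _ =>
      mul_nonneg (hy A (hBK A hA)) (hy A' (mem_filter.mp hA').1)
    obtain ⟨hA1, hne⟩ := mem_filter.mp hA'
    obtain ⟨hA2, hA3⟩ := mem_filter.mp hA1
    obtain ⟨hA4, hA5⟩ := mem_filter.mp hA
    refine mem_filter.mpr ⟨hA2, ?_, ?_⟩
    · by_contra h3
      exact hne (eq_of_sd hA4 hA2 (by omega)).symm
    · have h3 := tri A' A T
      have h4 := sd_symm hT hA4
      omega
  rw [sum_pairs] at h2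
  have h3 : ∑ d ∈ Ico 1 (2 * P.j), PS n k d σ.y ≤ P.nu ^ 2 / 2 := by
    refine le_trans (sum_le_sum fun d hd => ?_) P.H4
    refine (PS_le_PP P b.hs d hy).trans ?_
    have h4 := mul_le_mul_of_nonneg_left (read_P b hd)
      (Real.exp_pos ((1 + 3 * P.del) * rr n k d * (P.e * P.tau))).le
    linarith
  by_contra h4
  push Not at h4
  have h5 : X * X ≤ P.nu / 2 * X + P.nu ^ 2 / 2 := by linarith
  nlinarith

end Pool.Agent.H70.KP
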