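import Pool.Agent.H70.KP.R2
import Pool.Agent.H70.KP.NV
import Pool.Agent.H70.KG.SB

/-!
# [H70 KP R3] sums over families, far and near sets

fam_le: X = sum over F of y. If F is empty, X = 0 <= n nu + 0. If X <= n nu clear. Otherwise TS_ge with m = n
(nu from module R2): (X - n nu)^n <= TS <= 4^n exp (n^2 rho e s) F.card^n <= 4^n * 2 * F.card^n
(c4, exp (1/2) <= 2) <= (5 F.card)^n, since (5/4)^n >= 2 for n >= 4. So X - n nu <= 5 F.card
(pow_le_pow_iff_left, lt_of_pow_lt_pow_left).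
far_le: V' = V together with j elements of B \ V: V.card + j elements, V' in V u B, V' in Vd;
S (V u B) <= S V' (KG.S_mono) = sum over dis V' <= n nu + 5 (dis V').card and (dis V').card =
C(n - V'.card, k) = sz (V.card + j) (KG.S_one with y = 1); H1.
near_le: the sum over nea V <= n nu + 5 (nea V).card <= n nu + 5 n^(4 j) <= rho DD (nea_card, H2).
-/

namespace Pool.Agent.H70.KP

open Finset
open Pool.Agent.H70.KG (KS DD S gf up0 up pr pr0)

variable {n k : ℕ}

private theorem two_four (m : ℕ) (h : 4 ≤ m) : (2 : ℝ) * 4 ^ m ≤ 5 ^ m := by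
  induction m, h using Nat.le_induction with
  | base => norm_num
  | succ m _ ih =>
    rw [pow_succ, pow_succ]
    nlinarith [pow_pos (show (0 : ℝ) < 4 by norm_num) m]

private theorem exp_half : Real.exp (1 / 2) ≤ 2 := by
  have h9 : Real.exp (1 / 2) ^ 2 ≤ 2 ^ 2 := by
    rw [← Real.exp_nat_mul]
    have : ((2 : ℕ) : ℝ) * (1 / 2) = 1 := by norm_num
    rw [this]
    have := Real.exp_one_lt_d9
    linarith
  exact le_of_sq_le_sq h9 (by norm_num)

theorem fam_le {P : Par n k} {s : ℕ} {σ : Sta n} (b : Base P s σ)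
    {F : Finset (Finset (Fin n))} (hF : F ⊆ KS n k)
    (hT : Real.exp (-((n : ℝ) ^ 2 * P.rho * (P.e * s))) *
      (TS P.j n σ.y F / (F.card : ℝ) ^ n) ≤ 4 ^ n) :
    ∑ A ∈ F, σ.y A ≤ n * P.nu + 5 * F.card := by
  have hn4 : 4 ≤ n := P.hn
  have hnu := P.nu0
  by_cases hX : ∑ A ∈ F, σ.y A ≤ n * P.nu
  · have : (0 : ℝ) ≤ 5 * F.card := by positivity
    linarith
  push Not at hX
  have hge := TS_ge (j := P.j) hF b.nonneg hnu.le (fun T hT => ball b hT) n hX.le
  have hFn : F.Nonempty := by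
    rw [nonempty_iff_ne_empty]
    intro h
    rw [h, sum_empty] at hX
    have : 0 ≤ (n : ℝ) * P.nu := by positivity
    linarith
  have hc : (0 : ℝ) < F.card := by exact_mod_cast card_pos.mpr hFn
  set E := (n : ℝ) ^ 2 * P.rho * (P.e * s) with hE
  have hE2 : Real.exp E ≤ 2 := by
    refine le_trans (Real.exp_le_exp.mpr ?_) exp_half
    have h1 : (s : ℝ) ≤ P.tau := by exact_mod_cast b.hs
    have h2 : P.e * s ≤ P.e * P.tau := mul_le_mul_of_nonneg_left h1 P.e0.le
    have h3 : 0 ≤ (n : ℝ) ^ 2 * P.rho := by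
      have := P.rho0
      positivity
    exact (mul_le_mul_of_nonneg_left h2 h3).trans P.c4
  have hEE : Real.exp E * Real.exp (-E) = 1 := by
    rw [← Real.exp_add, add_neg_cancel, Real.exp_zero]
  have hcn : (0 : ℝ) < (F.card : ℝ) ^ n := pow_pos hc n
  have h1 : TS P.j n σ.y F ≤ Real.exp E * 4 ^ n * (F.card : ℝ) ^ n := by
    have h2 := mul_le_mul_of_nonneg_left hT (Real.exp_pos E).le
    rw [← mul_assoc, hEE, one_mul] at h2
    exact (div_le_iff₀ hcn).mp h2
  have h2 : (∑ A ∈ F, σ.y A - n * P.nu) ^ n ≤ (5 * (F.card : ℝ)) ^ n := by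
    calc (∑ A ∈ F, σ.y A - n * P.nu) ^ n ≤ Real.exp E * 4 ^ n * (F.card : ℝ) ^ n :=
          hge.trans h1
      _ ≤ 2 * 4 ^ n * (F.card : ℝ) ^ n := by
          refine mul_le_mul_of_nonneg_right ?_ hcn.le
          exact mul_le_mul_of_nonneg_right hE2 (by positivity)
      _ ≤ 5 ^ n * (F.card : ℝ) ^ n := mul_le_mul_of_nonneg_right (two_four n hn4) hcn.le
      _ = (5 * (F.card : ℝ)) ^ n := by rw [mul_pow]
  have h3 := (pow_le_pow_iff_left₀ (by linarith : 0 ≤ ∑ A ∈ F, σ.y A - n * P.nu)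
    (by positivity) (by omega)).mp h2
  linarith

theorem far_le {P : Par n k} {s : ℕ} {σ : Sta n} (b : Base P s σ) (V B : Finset (Fin n))
    (h1 : k ≤ V.card) (h2 : V.card < k + 2 * P.j) (hB : P.j ≤ (B \ V).card) :
    S n k σ.y (V ∪ B) ≤ P.rho * sz n k V.card := by
  obtain ⟨W, hW1, hW2⟩ := exists_subset_card_eq hB
  have hdis : Disjoint V W := by
    rw [disjoint_left]
    intro x hx hx2
    exact (mem_sdiff.mp (hW1 hx2)).2 hx
  have hc : (V ∪ W).card = V.card + P.j := by rw [card_union_of_disjoint hdis, hW2]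
  have hsub : V ∪ W ⊆ V ∪ B := union_subset_union_right (hW1.trans sdiff_subset)
  have hVd : V ∪ W ∈ P.Vd := mem_filter.mpr ⟨mem_univ _, by omega⟩
  have h3 := Pool.Agent.H70.KG.S_mono (n := n) (k := k) b.nonneg hsub
  have h4 := fam_le b (dis_sub n k (V ∪ W)) (read_Qd b hVd)
  have h5 : ((dis n k (V ∪ W)).card : ℝ) = sz n k (V.card + P.j) := by
    have h6 := Pool.Agent.H70.KG.S_one (n := n) (k := k) (V ∪ W)
    unfold Pool.Agent.H70.KG.S at h6
    rw [sum_const, nsmul_eq_mul, mul_one, hc] at h6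
    exact h6
  have h6 : S n k σ.y (V ∪ W) = ∑ A ∈ dis n k (V ∪ W), σ.y A := rfl
  rw [h5, ← h6] at h4
  exact (h3.trans h4).trans (P.H1 V.card h1 h2)

theorem near_le {P : Par n k} {s : ℕ} {σ : Sta n} (b : Base P s σ) (V : Finset (Fin n))
    (h1 : k ≤ V.card) (h2 : V.card < k + 2 * P.j) :
    ∑ B ∈ (KS n k).filter (fun B => (B \ V).card < P.j), σ.y B ≤ P.rho * DD n k := by
  have hn4 : 4 ≤ n := P.hn
  have hVc : V ∈ P.Vc := mem_filter.mpr ⟨mem_univ _, h1, h2⟩
  have h3 := fam_le b (nea_sub n k P.j V) (read_Qn b hVc)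
  have h4 : ((nea n k P.j V).card : ℝ) ≤ (n : ℝ) ^ (4 * P.j) := by
    exact_mod_cast nea_card (by omega) h1 h2
  have h5 : ∑ B ∈ (KS n k).filter (fun B => (B \ V).card < P.j), σ.y B =
      ∑ A ∈ nea n k P.j V, σ.y A := rfl
  rw [h5]
  have h6 := P.H2
  linarith

end Pool.Agent.H70.KP
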