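import Pool.Agent.H70.KP.XD

/-!
# [H70 KP XF] the final bound

R = N/D. The right side of main_family with P = mkPar h.
(1) tau <= 2 n R (tau_le).
(2) 1 <= d < j: 8 n G0 d = 8 n (4 e tau/D) N (k n)^d <= 32 n^2 R (k n)^d (e tau <= n). exp (-(1 - r_d - 1/n^2)(e tau)) <=
exp (-(1 - r_d)(e tau)) * exp (1/n) and (k n)^d exp (-(1 - r_d) e tau) <= 1: need (1 - r_d) e tau >= 2 d L.
r_d <= exp (-k d/n) (rr_le_exp). If k d/n <= 1: 1 - exp (-x) >= x/2, so >= (k d/(2n)) (k/2) = k^2 d/(4n) >= 2500 L^2 d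
>= 2 d L. If k d/n >= 1: 1 - exp (-1) >= 1/2, so >= k/4 >= 2 j L (jL: 2 j L <= k/400). Each summand is
<= 96 n^2 R; j <= n summands: <= 96 n^3 R.
(3) 2 N exp (-(1 - 1/n^2) e tau) <= 2 N exp (1) exp (-(log D - 158 L - 1)) <= 2 * e * e * n^158 R <= 16 n^158 R.
Sum <= n^160 R for n >= 10^6.
-/

namespace Pool.Agent.H70.KP

open Pool.Agent.H70.KG (DD)

variable {n k : ℕ}

private theorem n_pos (h : Hyp n k) : (0 : ℝ) < n := by
  have := h.hn
  exact_mod_cast (by omega : 0 < n)

private theorem k_pos' (h : Hyp n k) : (0 : ℝ) < k := by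
  have := h.k_pos
  exact_mod_cast (by omega : 0 < k)

private theorem one_sub_exp {x : ℝ} (h0 : 0 ≤ x) (h1 : x ≤ 1) : x / 2 ≤ 1 - Real.exp (-x) := by
  have h2 := Real.add_one_le_exp x
  have h3 : Real.exp x * Real.exp (-x) = 1 := by
    rw [← Real.exp_add, add_neg_cancel, Real.exp_zero]
  have h4 := Real.exp_pos (-x)
  have h5 : (x + 1) * Real.exp (-x) ≤ 1 := by
    exact (mul_le_mul_of_nonneg_right h2 h4.le).trans_eq h3
  have h6 : Real.exp (-x) ≤ 1 / (x + 1) := by
    rw [le_div_iff₀ (by linarith)]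
    linarith
  have h7 : 1 / (x + 1) ≤ 1 - x / 2 := by
    rw [div_le_iff₀ (by linarith)]
    nlinarith
  linarith

private theorem rate (h : Hyp n k) {d : ℕ} (hd1 : 1 ≤ d) (hd2 : d < jj n k) :
    2 * d * Real.log n ≤ (1 - rr n k d) * (xe n k * xt n k) := by
  have hn := n_pos h
  have hk := k_pos' h
  have hL := h.L_ge
  have het := h.et_half
  have hr := rr_le_exp h.k_pos h.h3 d
  have hr1 := rr_le_one n k d
  have hd0 : (1 : ℝ) ≤ d := by exact_mod_cast hd1
  have hdj : (d : ℝ) ≤ jj n k := by exact_mod_cast hd2.le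
  set x := (k : ℝ) * d / n with hx
  have hx0 : 0 ≤ x := by positivity
  have h1 : (1 - rr n k d) * ((k : ℝ) / 2) ≤ (1 - rr n k d) * (xe n k * xt n k) :=
    mul_le_mul_of_nonneg_left het (by linarith)
  refine le_trans ?_ h1
  rcases le_total x 1 with hx1 | hx1
  · have h2 := one_sub_exp hx0 hx1
    have h3 : x / 2 * ((k : ℝ) / 2) ≤ (1 - rr n k d) * ((k : ℝ) / 2) :=
      mul_le_mul_of_nonneg_right (by linarith) (by positivity)
    refine le_trans ?_ h3
    have h4 : x / 2 * ((k : ℝ) / 2) = (k : ℝ) ^ 2 / n * (d / 4) := by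
      rw [hx]
      ring
    rw [h4]
    have h5 : 10000 * Real.log n ^ 2 ≤ (k : ℝ) ^ 2 / n := by
      rw [le_div_iff₀ hn]
      have := h.k_sq
      linarith
    have h6 : 10000 * Real.log n ^ 2 * ((d : ℝ) / 4) ≤ (k : ℝ) ^ 2 / n * (d / 4) :=
      mul_le_mul_of_nonneg_right h5 (by positivity)
    refine le_trans ?_ h6
    have h7 : Real.log n * d ≤ Real.log n ^ 2 * d := by
      refine mul_le_mul_of_nonneg_right ?_ (by linarith)
      nlinarith
    nlinarith
  · have h2 : Real.exp (-x) ≤ 1 / 2 := by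
      have h3 : Real.exp (-x) ≤ Real.exp (-1) := Real.exp_le_exp.mpr (by linarith)
      have h4 := one_sub_exp zero_le_one le_rfl
      linarith
    have h3 : (1 / 2 : ℝ) * ((k : ℝ) / 2) ≤ (1 - rr n k d) * ((k : ℝ) / 2) :=
      mul_le_mul_of_nonneg_right (by linarith) (by positivity)
    refine le_trans ?_ h3
    have h4 := h.jL
    have h5 : (d : ℝ) * Real.log n ≤ jj n k * Real.log n :=
      mul_le_mul_of_nonneg_right hdj (by linarith)
    linarith

private theorem exp_three : Real.exp 1 ≤ 3 := by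
  have := Real.exp_one_lt_d9
  linarith

theorem final_bound (h : Hyp n k) :
    ((mkPar h).tau : ℝ) +
        ∑ d ∈ Finset.Ico 1 (mkPar h).j, 8 * n * (mkPar h).G0 d *
          Real.exp (-((1 - rr n k d - (mkPar h).del) * ((mkPar h).e * (mkPar h).tau))) +
        2 * (n.choose k : ℝ) *
          Real.exp (-((1 - (mkPar h).del) * ((mkPar h).e * (mkPar h).tau))) ≤
      (n : ℝ) ^ 160 * ((n.choose k : ℝ) / DD n k) := by
  have hn := n_pos h
  have hk := k_pos' h
  have hL := h.L_ge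
  have hD := h.D_pos
  have hN := h.N_pos
  have hn6 : (1000000 : ℝ) ≤ n := by exact_mod_cast h.hn
  have h3 : (3 : ℝ) * k ≤ n := by exact_mod_cast h.h3
  have het0 : 0 ≤ xe n k * xt n k := mul_nonneg h.e_pos.le (Nat.cast_nonneg _)
  have hetn := h.et_n
  set R := (n.choose k : ℝ) / DD n k with hR
  have hR0 : 0 < R := by positivity
  have c1 : (mkPar h).tau = xt n k := rfl
  have c2 : (mkPar h).j = jj n k := rfl
  have c3 : (mkPar h).del = 1 / (n : ℝ) ^ 2 := rfl
  have c4 : (mkPar h).e = xe n k := rfl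
  have hde : 1 / (n : ℝ) ^ 2 * (xe n k * xt n k) ≤ 1 := by
    have h1 := mul_le_mul_of_nonneg_left hetn (by positivity : 0 ≤ 1 / (n : ℝ) ^ 2)
    have h2 : 1 / (n : ℝ) ^ 2 * n = 1 / n := by field_simp
    have h4 : 1 / (n : ℝ) ≤ 1 := by
      rw [div_le_one hn]
      linarith
    linarith
  have hterm : ∀ d ∈ Finset.Ico 1 (mkPar h).j, 8 * n * (mkPar h).G0 d *
      Real.exp (-((1 - rr n k d - (mkPar h).del) * ((mkPar h).e * (mkPar h).tau))) ≤
      96 * (n : ℝ) ^ 2 * R := by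
    intro d hd
    rw [c2] at hd
    obtain ⟨hd1, hd2⟩ := Finset.mem_Ico.mp hd
    have hG : (mkPar h).G0 d ≤ 4 * n * R * Real.exp (2 * d * Real.log n) := by
      have e1 : (mkPar h).G0 d = 4 * (xe n k * xt n k) * R * ((k : ℝ) * n) ^ d := by
        unfold Par.G0 pd
        rw [c1, c4, hR]
        ring
      have e2 : ((k : ℝ) * n) ^ d ≤ Real.exp (2 * d * Real.log n) := by
        have e4 : 2 * (d : ℝ) * Real.log n = ((d : ℕ) : ℝ) * (Real.log n + Real.log n) := by ring
        rw [e4, Real.exp_nat_mul, Real.exp_add, Real.exp_log hn]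
        refine pow_le_pow_left₀ (by positivity) ?_ d
        exact mul_le_mul_of_nonneg_right (by linarith) hn.le
      rw [e1]
      refine mul_le_mul ?_ e2 (by positivity) (by positivity)
      exact mul_le_mul_of_nonneg_right (by linarith) hR0.le
    have hE : Real.exp (-((1 - rr n k d - (mkPar h).del) * ((mkPar h).e * (mkPar h).tau))) ≤
        3 * Real.exp (-(2 * d * Real.log n)) := by
      rw [c1, c3, c4]
      have e1 := rate h hd1 hd2
      have e2 : -((1 - rr n k d - 1 / (n : ℝ) ^ 2) * (xe n k * xt n k)) ≤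
          1 + -(2 * d * Real.log n) := by
        have e3 : -((1 - rr n k d - 1 / (n : ℝ) ^ 2) * (xe n k * xt n k)) =
            1 / (n : ℝ) ^ 2 * (xe n k * xt n k) - (1 - rr n k d) * (xe n k * xt n k) := by ring
        rw [e3]
        linarith
      refine (Real.exp_le_exp.mpr e2).trans ?_
      rw [Real.exp_add]
      exact mul_le_mul_of_nonneg_right exp_three (Real.exp_pos _).le
    have hee : Real.exp (2 * d * Real.log n) * Real.exp (-(2 * d * Real.log n)) = 1 := by
      rw [← Real.exp_add, add_neg_cancel, Real.exp_zero]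
    calc 8 * n * (mkPar h).G0 d *
          Real.exp (-((1 - rr n k d - (mkPar h).del) * ((mkPar h).e * (mkPar h).tau)))
        ≤ 8 * n * (4 * n * R * Real.exp (2 * d * Real.log n)) *
          (3 * Real.exp (-(2 * d * Real.log n))) := by
          refine mul_le_mul ?_ hE (Real.exp_pos _).le (by positivity)
          exact mul_le_mul_of_nonneg_left hG (by positivity)
      _ = 96 * (n : ℝ) ^ 2 * R *
          (Real.exp (2 * d * Real.log n) * Real.exp (-(2 * d * Real.log n))) := by ring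
      _ = 96 * (n : ℝ) ^ 2 * R := by rw [hee, mul_one]
  have hsum := Finset.sum_le_sum hterm
  rw [Finset.sum_const, Nat.card_Ico, nsmul_eq_mul, c2] at hsum
  have hcard : ((jj n k - 1 : ℕ) : ℝ) ≤ n := by
    have := h.j_le
    exact_mod_cast (by omega : jj n k - 1 ≤ n)
  have hsum2 : ((jj n k - 1 : ℕ) : ℝ) * (96 * (n : ℝ) ^ 2 * R) ≤ 96 * (n : ℝ) ^ 3 * R := by
    calc ((jj n k - 1 : ℕ) : ℝ) * (96 * (n : ℝ) ^ 2 * R) ≤ n * (96 * (n : ℝ) ^ 2 * R) :=
          mul_le_mul_of_nonneg_right hcard (by positivity)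
      _ = 96 * (n : ℝ) ^ 3 * R := by ring
  have hlast : 2 * (n.choose k : ℝ) *
      Real.exp (-((1 - (mkPar h).del) * ((mkPar h).e * (mkPar h).tau))) ≤
      18 * (n : ℝ) ^ 158 * R := by
    rw [c1, c3, c4]
    have e1 := h.et_ge
    have e2 : -((1 - 1 / (n : ℝ) ^ 2) * (xe n k * xt n k)) ≤
        1 + 1 + (158 * Real.log n - Real.log (DD n k)) := by
      have e3 : -((1 - 1 / (n : ℝ) ^ 2) * (xe n k * xt n k)) =
          1 / (n : ℝ) ^ 2 * (xe n k * xt n k) - xe n k * xt n k := by ring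
      rw [e3]
      linarith
    have e3 : Real.exp (1 + 1 + (158 * Real.log n - Real.log (DD n k))) ≤
        9 * ((n : ℝ) ^ 158 / DD n k) := by
      rw [Real.exp_add, Real.exp_add, Real.exp_sub,
        show (158 : ℝ) * Real.log n = ((158 : ℕ) : ℝ) * Real.log n by norm_num,
        Real.exp_nat_mul, Real.exp_log hn, Real.exp_log hD]
      refine mul_le_mul_of_nonneg_right ?_ (by positivity)
      calc Real.exp 1 * Real.exp 1 ≤ 3 * 3 :=
            mul_le_mul exp_three exp_three (Real.exp_pos _).le (by norm_num)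
        _ = 9 := by norm_num
    calc 2 * (n.choose k : ℝ) * Real.exp (-((1 - 1 / (n : ℝ) ^ 2) * (xe n k * xt n k)))
        ≤ 2 * (n.choose k : ℝ) * (9 * ((n : ℝ) ^ 158 / DD n k)) :=
          mul_le_mul_of_nonneg_left ((Real.exp_le_exp.mpr e2).trans e3) (by positivity)
      _ = 18 * (n : ℝ) ^ 158 * R := by
          rw [hR]
          ring
  have htau := h.tau_le
  rw [← hR] at htau
  have hfin : 2 * (n : ℝ) * R + 96 * (n : ℝ) ^ 3 * R + 18 * (n : ℝ) ^ 158 * R ≤
      (n : ℝ) ^ 160 * R := by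
    have e1 : (n : ℝ) ≤ (n : ℝ) ^ 158 := by
      calc (n : ℝ) = (n : ℝ) ^ 1 := (pow_one _).symm
        _ ≤ (n : ℝ) ^ 158 := pow_le_pow_right₀ (by linarith) (by norm_num)
    have e2 : (n : ℝ) ^ 3 ≤ (n : ℝ) ^ 158 := pow_le_pow_right₀ (by linarith) (by norm_num)
    have e3 : (n : ℝ) ^ 160 = (n : ℝ) ^ 2 * (n : ℝ) ^ 158 := by
      rw [← pow_add]
    have e4 : (116 : ℝ) ≤ (n : ℝ) ^ 2 := by nlinarith
    have e5 : 0 < (n : ℝ) ^ 158 := by positivity
    have e6 : 2 * (n : ℝ) + 96 * (n : ℝ) ^ 3 + 18 * (n : ℝ) ^ 158 ≤ (n : ℝ) ^ 160 := by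
      rw [e3]
      nlinarith
    have e7 := mul_le_mul_of_nonneg_right e6 hR0.le
    linarith
  rw [c1] at hsum hlast
  rw [c1, c2]
  linarith

end Pool.Agent.H70.KP
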