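import Pool.Agent.H70.KP.FN
import Pool.Agent.H70.KP.XF

/-!
# [H70 KP RE] the theorem
-/

namespace Pool.Agent.H70.KP

theorem poly_factor {n k : ℕ} (h : Hyp n k) :
    ∃ F : Finset (Finset (Fin n)), Maximal (Pool.Agent.H31.Kn.IsInt n k) F ∧
      (F.card : ℝ) ≤ (n : ℝ) ^ 160 * ((n.choose k : ℝ) / ((n - k).choose k : ℝ)) := by
  obtain ⟨F, hF, hc⟩ := main_family (mkPar h)
  exact ⟨F, hF, hc.trans (final_bound h)⟩

end Pool.Agent.H70.KP
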