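import Pool.Agent.H70.KP.MA
import Pool.Agent.H70.KP.PC
import Pool.Agent.H70.KP.LO

/-!
# [H70 KP RS] the weight near chosen sets, one step

General form for both RR and GG. Let q be a predicate on distances, w : weights of the chosen sets.
near_step. For B in KS, B not in C the functional of the new state is
 sum over B0 in C of w' B0 * (sum over A in KS, q (A \ B0).card of up y B A) +
 w' B * (sum over A in KS, q (A \ B).card of up y B A)
(sum_insert). w' B0 = w B0 for B0 in C since B0 <> B. First part: together with the term of stay it is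
E1 applied to the local functional y' -> sum over B0 in C of w B0 * sum of y' A, whose value is that of
the old state by mart (use Ex_mono / the definition of Ex and Ex_y). Second part: up y B A <= 2 y A
(up_le), pr B = e y B / DD, and the sum over B in KS of y B * (sum over A with q) y A.
Here W0 is the weight function given to a newly chosen set.
The theorem is stated for G(sigma) = sum over B in C of v (st B) * (sum over A near B of y A) with
v >= 0: RR is v = 1, GG is v = exp (- r_d *).
-/

namespace Pool.Agent.H70.KP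

open Finset
open Pool.Agent.H70.KG (KS DD S gf up0 up pr pr0)

variable {n k : ℕ}

theorem near_step {e t : ℝ} {σ : Sta n} (h : Mild n k e σ.y)
    (hd : ∀ A ∈ KS n k, (∃ B ∈ σ.C, Disjoint A B) → σ.y A = 0) (hC : σ.C ⊆ KS n k)
    (q : ℕ → Prop) [DecidablePred q] (v : ℝ → ℝ) (hv : ∀ x, 0 ≤ v x) :
    Ex k e t σ (fun σ' => ∑ B ∈ σ'.C, v (σ'.st B) *
        ∑ A ∈ (KS n k).filter (fun A => q (A \ B).card), σ'.y A) ≤
      ∑ B ∈ σ.C, v (σ.st B) * ∑ A ∈ (KS n k).filter (fun A => q (A \ B).card), σ.y A +
        2 * e / DD n k * (v t * ∑ B ∈ KS n k, ∑ A ∈ (KS n k).filter (fun A => q (A \ B).card),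
          σ.y B * σ.y A) := by
  have hD := h.D_pos
  have he := h.e_pos
  set F : (Finset (Fin n) → ℝ) → ℝ := fun y' => ∑ B ∈ σ.C, v (σ.st B) *
        ∑ A ∈ (KS n k).filter (fun A => q (A \ B).card), y' A with hF
  have hloc : ∀ y y' : Finset (Fin n) → ℝ, (∀ A ∈ KS n k, y A = y' A) → F y = F y' := by
    intro y y' hy
    refine sum_congr rfl fun B _ => ?_
    congr 1
    exact sum_congr rfl fun A hA => hy A (mem_filter.mp hA).1
  have hmean : E1 n k e σ.y F = F σ.y := by
    rw [hF, E1_sum]
    refine sum_congr rfl fun B _ => ?_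
    rw [E1_mul, E1_sum]
    congr 1
    exact sum_congr rfl fun A hA => mart h (mem_filter.mp hA).1
  have hEx := Ex_y (e := e) (t := t) hd hloc
  rw [hmean] at hEx
  have hpick : ∀ B ∈ (KS n k).filter (fun B => B ∉ σ.C),
      pr n k e σ.y B * (∑ B₀ ∈ (σ.pick k e t B).C, v ((σ.pick k e t B).st B₀) *
        ∑ A ∈ (KS n k).filter (fun A => q (A \ B₀).card), (σ.pick k e t B).y A) ≤
      pr n k e σ.y B * F (σ.pick k e t B).y +
        2 * e / DD n k * (v t * ∑ A ∈ (KS n k).filter (fun A => q (A \ B).card),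
          σ.y B * σ.y A) := by
    intro B hBm
    obtain ⟨hBK, hBC⟩ := mem_filter.mp hBm
    have e1 : ∑ B₀ ∈ (σ.pick k e t B).C, v ((σ.pick k e t B).st B₀) *
        ∑ A ∈ (KS n k).filter (fun A => q (A \ B₀).card), (σ.pick k e t B).y A =
        v t * ∑ A ∈ (KS n k).filter (fun A => q (A \ B).card), (σ.pick k e t B).y A +
          F (σ.pick k e t B).y := by
      have e2 : (σ.pick k e t B).C = insert B σ.C := rfl
      rw [e2, sum_insert hBC]
      congr 1
      · have e3 : (σ.pick k e t B).st B = t := if_pos rfl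
        rw [e3]
      · refine sum_congr rfl fun B₀ hB₀ => ?_
        have e3 : (σ.pick k e t B).st B₀ = σ.st B₀ := by
          refine if_neg ?_
          intro h4
          rw [h4] at hB₀
          exact hBC hB₀
        rw [e3]
    have e2 : ∑ A ∈ (KS n k).filter (fun A => q (A \ B).card), (σ.pick k e t B).y A ≤
        2 * ∑ A ∈ (KS n k).filter (fun A => q (A \ B).card), σ.y A := by
      rw [mul_sum]
      exact sum_le_sum fun A hA => up_le h (mem_filter.mp hA).1 B
    have hp := pr_nonneg h hBK
    rw [e1, mul_add]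
    have e3 : pr n k e σ.y B *
        (v t * ∑ A ∈ (KS n k).filter (fun A => q (A \ B).card), (σ.pick k e t B).y A) ≤
        2 * e / DD n k * (v t * ∑ A ∈ (KS n k).filter (fun A => q (A \ B).card),
          σ.y B * σ.y A) := by
      calc pr n k e σ.y B *
            (v t * ∑ A ∈ (KS n k).filter (fun A => q (A \ B).card), (σ.pick k e t B).y A)
          ≤ pr n k e σ.y B *
            (v t * (2 * ∑ A ∈ (KS n k).filter (fun A => q (A \ B).card), σ.y A)) :=
            mul_le_mul_of_nonneg_left (mul_le_mul_of_nonneg_left e2 (hv t)) hp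
        _ = 2 * e / DD n k * (v t * ∑ A ∈ (KS n k).filter (fun A => q (A \ B).card),
          σ.y B * σ.y A) := by
            rw [← mul_sum]
            unfold Pool.Agent.H70.KG.pr
            ring
    linarith
  have hrest : 2 * e / DD n k * (v t * ∑ B ∈ (KS n k).filter (fun B => B ∉ σ.C),
      ∑ A ∈ (KS n k).filter (fun A => q (A \ B).card), σ.y B * σ.y A) ≤
      2 * e / DD n k * (v t * ∑ B ∈ KS n k, ∑ A ∈ (KS n k).filter (fun A => q (A \ B).card),
          σ.y B * σ.y A) := by
    refine mul_le_mul_of_nonneg_left (mul_le_mul_of_nonneg_left ?_ (hv t)) (by positivity)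
    exact sum_le_sum_of_subset_of_nonneg (filter_subset _ _) fun B hB _ =>
      sum_nonneg fun A hA => mul_nonneg (h.nonneg B hB) (h.nonneg A (mem_filter.mp hA).1)
  have hsum := sum_le_sum hpick
  rw [sum_add_distrib, ← mul_sum, ← mul_sum] at hsum
  have hEx2 : Ex k e t σ (fun σ' => F σ'.y) =
      ∑ B ∈ (KS n k).filter (fun B => B ∉ σ.C), pr n k e σ.y B * F (σ.pick k e t B).y +
    (pr0 n k e σ.y + ∑ B ∈ (KS n k).filter (fun B => B ∈ σ.C), pr n k e σ.y B) *
      F (σ.stay k e).y := rfl
  rw [hEx2] at hEx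
  unfold Ex
  beta_reduce
  have hstay : (∑ B ∈ (σ.stay k e).C, v ((σ.stay k e).st B) *
        ∑ A ∈ (KS n k).filter (fun A => q (A \ B).card), (σ.stay k e).y A) =
      F (σ.stay k e).y := rfl
  have hold : ∑ B ∈ σ.C, v (σ.st B) *
      ∑ A ∈ (KS n k).filter (fun A => q (A \ B).card), σ.y A = F σ.y := rfl
  rw [hstay, hold]
  linarith

theorem sum_pairs (y : Finset (Fin n) → ℝ) (m : ℕ) :
    ∑ B ∈ KS n k, ∑ A ∈ (KS n k).filter (fun A => 1 ≤ (A \ B).card ∧ (A \ B).card < m),
      y B * y A = ∑ d ∈ Ico 1 m, PS n k d y := by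
  unfold PS
  rw [sum_comm]
  refine sum_congr rfl fun B _ => ?_
  rw [← sum_fiberwise_of_maps_to (t := Ico 1 m) (g := fun A : Finset (Fin n) => (A \ B).card)
    (fun A hA => mem_Ico.mpr (mem_filter.mp hA).2)]
  refine sum_congr rfl fun d hd => ?_
  refine sum_congr ?_ fun _ _ => rfl
  ext A
  simp only [mem_filter]
  rw [mem_Ico] at hd
  constructor
  · rintro ⟨⟨h1, _⟩, h2⟩
    exact ⟨h1, h2⟩
  · rintro ⟨h1, h2⟩
    exact ⟨⟨h1, by omega⟩, h2⟩

end Pool.Agent.H70.KP
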