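import Pool.Agent.H70.KP.HB
import Pool.Agent.H70.KP.DN

/-!
# [H70 KP XA] the other parameters, simple bounds

e = D / (2N), nu = D / n^156, tau = floor ((log D - 158 L) / e), L = log n, N = C(n,k).
* e_pos; e_small: D <= exp (-k k/n) N (KG.D_le), so e <= exp (-k^2/n)/2 <= exp (-10^4 L^2) <= exp (-20 L) = 1/n^20.
* eN: 2 e N = D.
* logD_ge: log D >= 2k/3 >= 60000 L (log_D_ge, k_big). logD_le: log D <= n (KG.log_D_le).
* et_le: e tau <= log D - 158 L (floor), et_ge: e tau >= log D - 158 L - e; et_n: e tau <= n;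
  et_half: e tau >= k/2: log D - 158 L - 1 >= 2k/3 - 159 L >= k/2 as k/6 >= 159 L.
* tau_pos: e tau > 0 or: (log D - 158 L)/e >= 1.
* tau_le: tau <= log D / e <= 2 n N / D.
-/

namespace Pool.Agent.H70.KP

open Pool.Agent.H70.KG (DD)

/-- step size -/
noncomputable def xe (n k : ℕ) : ℝ := DD n k / (2 * (n.choose k : ℝ))

/-- number of steps -/
noncomputable def xt (n k : ℕ) : ℕ := ⌊(Real.log (DD n k) - 158 * Real.log n) / xe n k⌋₊

variable {n k : ℕ}

theorem Hyp.D_pos (h : Hyp n k) : 0 < DD n k :=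
  lt_of_lt_of_le (by positivity) (two_pow_le_D h.h3)

theorem Hyp.N_pos (h : Hyp n k) : (0 : ℝ) < (n.choose k : ℝ) := by
  have := h.h3
  exact_mod_cast Nat.choose_pos (by omega)

theorem Hyp.e_pos (h : Hyp n k) : 0 < xe n k := by
  have h1 := h.D_pos
  have h2 := h.N_pos
  unfold xe
  positivity

private theorem n_pos (h : Hyp n k) : (0 : ℝ) < n := by
  have := h.hn
  exact_mod_cast (by omega : 0 < n)

theorem Hyp.e_small (h : Hyp n k) : xe n k ≤ 1 / (n : ℝ) ^ 20 := by
  have hN := h.N_pos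
  have hn := n_pos h
  have hL := h.L_ge
  have h1 := Pool.Agent.H70.KG.D_le n k h.k_pos
  have h2 : xe n k ≤ Real.exp (-((k : ℝ) * k / n)) := by
    unfold xe
    rw [div_le_iff₀ (by positivity)]
    have h3 := Real.exp_pos (-((k : ℝ) * k / n))
    nlinarith [mul_pos h3 hN]
  refine h2.trans ?_
  have h4 : 1 / (n : ℝ) ^ 20 = Real.exp (-(20 * Real.log n)) := by
    rw [Real.exp_neg, one_div]
    congr 1
    rw [show (20 : ℝ) * Real.log n = ((20 : ℕ) : ℝ) * Real.log n by norm_num,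
      Real.exp_nat_mul, Real.exp_log hn]
  rw [h4]
  refine Real.exp_le_exp.mpr (neg_le_neg ?_)
  rw [le_div_iff₀ hn]
  have h5 := h.k_sq
  have h6 : 20 * Real.log n * n ≤ 10000 * (n : ℝ) * Real.log n ^ 2 := by
    have h7 : Real.log n * n ≤ Real.log n ^ 2 * n := by
      refine mul_le_mul_of_nonneg_right ?_ hn.le
      nlinarith
    nlinarith
  nlinarith

theorem Hyp.eN (h : Hyp n k) : 2 * (xe n k * (n.choose k : ℝ)) ≤ DD n k := by
  have hN := h.N_pos
  unfold xe
  refine le_of_eq ?_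
  field_simp

theorem Hyp.logD_ge (h : Hyp n k) : 60000 * Real.log n ≤ Real.log (DD n k) := by
  have h1 := log_D_ge h.h3
  have h2 := h.k_big
  have h3 := h.L_ge
  linarith

theorem Hyp.logD_le (h : Hyp n k) : Real.log (DD n k) ≤ n :=
  Pool.Agent.H70.KG.log_D_le n k (by have := h.h3; omega)

private theorem T_nonneg (h : Hyp n k) : 0 ≤ Real.log (DD n k) - 158 * Real.log n := by
  have h1 := h.logD_ge
  have h2 := h.L_ge
  linarith

theorem Hyp.et_le (h : Hyp n k) :
    xe n k * xt n k ≤ Real.log (DD n k) - 158 * Real.log n := by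
  have he := h.e_pos
  have h1 : (xt n k : ℝ) ≤ (Real.log (DD n k) - 158 * Real.log n) / xe n k :=
    Nat.floor_le (div_nonneg (T_nonneg h) he.le)
  rw [le_div_iff₀ he] at h1
  linarith

theorem Hyp.et_ge (h : Hyp n k) :
    Real.log (DD n k) - 158 * Real.log n - 1 ≤ xe n k * xt n k := by
  have he := h.e_pos
  have hn := n_pos h
  have h1 : (Real.log (DD n k) - 158 * Real.log n) / xe n k < (xt n k : ℝ) + 1 :=
    Nat.lt_floor_add_one _
  rw [div_lt_iff₀ he] at h1
  have h2 : xe n k ≤ 1 := by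
    refine h.e_small.trans ?_
    rw [div_le_one (by positivity)]
    have h3 : (1 : ℝ) ≤ n := by
      have := h.hn
      exact_mod_cast (by omega : 1 ≤ n)
    exact one_le_pow₀ h3
  nlinarith

theorem Hyp.et_n (h : Hyp n k) : xe n k * xt n k ≤ n := by
  have h1 := h.et_le
  have h2 := h.logD_le
  have h3 := h.L_ge
  linarith

theorem Hyp.et_half (h : Hyp n k) : (k : ℝ) / 2 ≤ xe n k * xt n k := by
  have h1 := h.et_ge
  have h2 := log_D_ge h.h3
  have h3 := h.k_big
  have h4 := h.L_ge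
  linarith

theorem Hyp.tau_pos (h : Hyp n k) : 1 ≤ xt n k := by
  have h1 := h.et_half
  have h2 := h.k_pos
  have h3 : (1 : ℝ) ≤ k := by exact_mod_cast h2
  by_contra h4
  have h5 : xt n k = 0 := by omega
  rw [h5, Nat.cast_zero, mul_zero] at h1
  linarith

theorem Hyp.tau_le (h : Hyp n k) : (xt n k : ℝ) ≤ 2 * n * ((n.choose k : ℝ) / DD n k) := by
  have he := h.e_pos
  have hD := h.D_pos
  have hN := h.N_pos
  have h1 := h.et_n
  have h2 : (xt n k : ℝ) ≤ n / xe n k := by
    rw [le_div_iff₀ he]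
    linarith
  refine h2.trans (le_of_eq ?_)
  unfold xe
  field_simp

end Pool.Agent.H70.KP
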