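import Pool.Agent.H70.KP.XA

/-!
# [H70 KP XB] the hypotheses H1, H2, H3

H1: let k <= u < k + 2 j. sz (u+j) <= exp (-(k j/n)) sz u <= exp (-11 L) sz u = sz u / n^11 (sz_step, jk_ge), so
5 sz (u+j) <= sz u / (2 n^10) (n >= 10). sz u >= sz (k + 2j) >= exp (-12 jk/n) D >= exp (-144 L) D = D / n^144
(sz_anti, sz_lower, jk_le), so n nu = D / n^155 <= D / (2 n^154) <= sz u / (2 n^10).
H2: n nu = D/n^155 <= D/(2 n^10). 5 n^(4 j) <= D / (2 n^10): log 10 + 10 L + 4 j L <= 11 L + k/200 <= 2k/3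
<= log D (jL, log_D_ge).
H3: e tau <= log D - 158 L and 2 (1/n^2) e tau <= 2/n <= 1: 2 exp ((1 + 2/n^2) e tau) <= 2 e D / n^158
<= D / n^156 (2 e <= 6 <= n^2).
-/

namespace Pool.Agent.H70.KP

open Pool.Agent.H70.KG (DD)

variable {n k : ℕ}

private theorem n_pos (h : Hyp n k) : (0 : ℝ) < n := by
  have := h.hn
  exact_mod_cast (by omega : 0 < n)

private theorem n_ge (h : Hyp n k) : (1000000 : ℝ) ≤ n := by
  have := h.hn
  exact_mod_cast this

private theorem exp_L (h : Hyp n k) (m : ℕ) :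
    Real.exp (-((m : ℝ) * Real.log n)) = 1 / (n : ℝ) ^ m := by
  rw [Real.exp_neg, one_div, Real.exp_nat_mul, Real.exp_log (n_pos h)]

theorem Hyp.H1 (h : Hyp n k) (u : ℕ) (h1 : k ≤ u) (h2 : u < k + 2 * jj n k) :
    n * (DD n k / (n : ℝ) ^ 156) + 5 * sz n k (u + jj n k) ≤ 1 / (n : ℝ) ^ 10 * sz n k u := by
  have hn := n_pos h
  have hn6 := n_ge h
  have hD := h.D_pos
  have hsu := sz_nonneg n k u
  -- the second term
  have e1 : sz n k (u + jj n k) ≤ 1 / (n : ℝ) ^ 11 * sz n k u := by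
    refine (sz_step n k u (jj n k) h.k_pos).trans (mul_le_mul_of_nonneg_right ?_ hsu)
    have e2 := exp_L h 11
    push_cast at e2
    rw [← e2]
    exact Real.exp_le_exp.mpr (neg_le_neg h.jk_ge)
  have e3 : 5 * (1 / (n : ℝ) ^ 11 * sz n k u) ≤ 1 / (n : ℝ) ^ 10 * sz n k u / 2 := by
    have e4 : 1 / (n : ℝ) ^ 11 = 1 / (n : ℝ) ^ 10 * (1 / n) := by
      field_simp
    have e5 : (1 : ℝ) / n ≤ 1 / 10 := by
      refine div_le_div_of_nonneg_left zero_le_one (by norm_num) (by linarith)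
    have e6 : 0 ≤ 1 / (n : ℝ) ^ 10 * sz n k u := by positivity
    rw [e4]
    nlinarith
  -- the first term
  have e7 : 1 / (n : ℝ) ^ 144 * DD n k ≤ sz n k u := by
    have e8 := sz_lower h.k_pos h.h3 h.j_le
    have e9 : sz n k (k + 2 * jj n k) ≤ sz n k u := sz_anti (by omega)
    refine le_trans ?_ (e8.trans e9)
    refine mul_le_mul_of_nonneg_right ?_ hD.le
    have e10 := exp_L h 144
    push_cast at e10
    rw [← e10]
    refine Real.exp_le_exp.mpr (neg_le_neg ?_)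
    have e11 := h.jk_le
    have e12 : (12 : ℝ) * jj n k * k / n = 12 * ((jj n k : ℝ) * k / n) := by ring
    rw [e12]
    linarith
  have e13 : n * (DD n k / (n : ℝ) ^ 156) ≤ 1 / (n : ℝ) ^ 10 * sz n k u / 2 := by
    have e14 : n * (DD n k / (n : ℝ) ^ 156) =
        1 / (n : ℝ) ^ 10 * (1 / (n : ℝ) ^ 144 * DD n k) * (1 / n) := by
      field_simp
    have e15 : (1 : ℝ) / n ≤ 1 / 2 := by
      refine div_le_div_of_nonneg_left zero_le_one (by norm_num) (by linarith)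
    rw [e14]
    have e16 : 0 ≤ 1 / (n : ℝ) ^ 10 * (1 / (n : ℝ) ^ 144 * DD n k) := by positivity
    have e17 : 1 / (n : ℝ) ^ 10 * (1 / (n : ℝ) ^ 144 * DD n k) ≤ 1 / (n : ℝ) ^ 10 * sz n k u :=
      mul_le_mul_of_nonneg_left e7 (by positivity)
    nlinarith
  linarith

theorem Hyp.H2 (h : Hyp n k) :
    n * (DD n k / (n : ℝ) ^ 156) + 5 * (n : ℝ) ^ (4 * jj n k) ≤ 1 / (n : ℝ) ^ 10 * DD n k := by
  have hn := n_pos h
  have hn6 := n_ge h
  have hD := h.D_pos
  have hL := h.L_ge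
  have e1 : n * (DD n k / (n : ℝ) ^ 156) ≤ 1 / (n : ℝ) ^ 10 * DD n k / 2 := by
    have e2 : n * (DD n k / (n : ℝ) ^ 156) =
        1 / (n : ℝ) ^ 10 * DD n k * (1 / (n : ℝ) ^ 145) := by
      field_simp
    have e3 : (1 : ℝ) / (n : ℝ) ^ 145 ≤ 1 / 2 := by
      refine div_le_div_of_nonneg_left zero_le_one (by norm_num) ?_
      calc (2 : ℝ) ≤ n := by linarith
        _ = (n : ℝ) ^ 1 := (pow_one _).symm
        _ ≤ (n : ℝ) ^ 145 := pow_le_pow_right₀ (by linarith) (by norm_num)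
    rw [e2]
    have e4 : 0 ≤ 1 / (n : ℝ) ^ 10 * DD n k := by positivity
    nlinarith
  have e5 : 5 * (n : ℝ) ^ (4 * jj n k) ≤ 1 / (n : ℝ) ^ 10 * DD n k / 2 := by
    have e6 : (n : ℝ) ^ (4 * jj n k) = Real.exp (4 * jj n k * Real.log n) := by
      have : (4 : ℝ) * jj n k * Real.log n = ((4 * jj n k : ℕ) : ℝ) * Real.log n := by
        push_cast
        ring
      rw [this, Real.exp_nat_mul, Real.exp_log hn]
    have e7 : (n : ℝ) ^ 11 = Real.exp (11 * Real.log n) := by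
      have : (11 : ℝ) * Real.log n = ((11 : ℕ) : ℝ) * Real.log n := by norm_num
      rw [this, Real.exp_nat_mul, Real.exp_log hn]
    have e8 : (n : ℝ) ^ 11 * (n : ℝ) ^ (4 * jj n k) ≤ DD n k := by
      rw [e6, e7, ← Real.exp_add, ← Real.le_log_iff_exp_le hD]
      have e9 := h.jL
      have e10 := log_D_ge h.h3
      have e11 := h.k_big
      linarith
    have e9 : 10 * (n : ℝ) ^ 10 ≤ (n : ℝ) ^ 11 := by
      rw [pow_succ (n : ℝ) 10]
      nlinarith [pow_pos hn 10]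
    have e10 : 0 < (n : ℝ) ^ (4 * jj n k) := by positivity
    have e11 : 10 * (n : ℝ) ^ 10 * (n : ℝ) ^ (4 * jj n k) ≤ DD n k :=
      (mul_le_mul_of_nonneg_right e9 e10.le).trans e8
    have e12 : 1 / (n : ℝ) ^ 10 * DD n k / 2 = DD n k / (2 * (n : ℝ) ^ 10) := by
      field_simp
    rw [e12, le_div_iff₀ (by positivity)]
    linarith
  linarith

theorem Hyp.H3 (h : Hyp n k) :
    2 * Real.exp ((1 + 2 * (1 / (n : ℝ) ^ 2)) * (xe n k * xt n k)) ≤ DD n k / (n : ℝ) ^ 156 := by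
  have hn := n_pos h
  have hn6 := n_ge h
  have hD := h.D_pos
  have h1 := h.et_le
  have h2 := h.et_n
  have e1 : (1 + 2 * (1 / (n : ℝ) ^ 2)) * (xe n k * xt n k) ≤
      Real.log (DD n k) + -(158 * Real.log n) + 1 := by
    have e2 : 2 * (1 / (n : ℝ) ^ 2) * (xe n k * xt n k) ≤ 2 * (1 / (n : ℝ) ^ 2) * n :=
      mul_le_mul_of_nonneg_left h2 (by positivity)
    have e3 : 2 * (1 / (n : ℝ) ^ 2) * n = 2 / n := by
      field_simp
    have e4 : (2 : ℝ) / n ≤ 1 := by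
      rw [div_le_one hn]
      linarith
    linarith
  have e5 : Real.exp (Real.log (DD n k) + -(158 * Real.log n) + 1) =
      DD n k * (1 / (n : ℝ) ^ 158) * Real.exp 1 := by
    rw [Real.exp_add, Real.exp_add, Real.exp_log hD]
    have e6 := exp_L h 158
    push_cast at e6
    rw [e6]
  have e6 : 2 * Real.exp ((1 + 2 * (1 / (n : ℝ) ^ 2)) * (xe n k * xt n k)) ≤
      2 * (DD n k * (1 / (n : ℝ) ^ 158) * Real.exp 1) := by
    rw [← e5]
    exact mul_le_mul_of_nonneg_left (Real.exp_le_exp.mpr e1) (by norm_num)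
  refine e6.trans ?_
  have e7 : DD n k / (n : ℝ) ^ 156 = DD n k * (1 / (n : ℝ) ^ 158) * (n : ℝ) ^ 2 := by
    field_simp
  rw [e7]
  have e8 : 2 * Real.exp 1 ≤ (n : ℝ) ^ 2 := by
    have := Real.exp_one_lt_d9
    nlinarith
  have e9 : 0 < DD n k * (1 / (n : ℝ) ^ 158) := by positivity
  nlinarith

end Pool.Agent.H70.KP
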