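import Pool.Agent.H70.KP.XA
import Pool.Agent.H70.KP.EN
import Pool.Agent.H70.KP.HE
import Pool.Agent.H70.KP.CX

/-!
# [H70 KP XC] the hypothesis H4

p = k/n <= 1/3, m = n - k, p' = k/m = p/(1-p), z = k/(n-k) <= 1/2, L = log n.
keyA: log N + 318 L <= (1 + z) log D. log N <= n H(p) (log_choose_le), log D >= m H(p') - log (m+1)
(le_log_choose, D = C(m,k)), 1 + z = n/m <= 3/2, log (m+1) <= L + 1. So (1+z) log D >= n H(p') - 2 L - 2, and
n (H(p') - H(p)) >= k^2/(8 n) >= 1250 L^2 >= 16250 L (gain, k_sq, L >= 13).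
keyB: log N + 4 j L + 317 L + 1 <= 2 log D: 2 log D >= 2 m H(p') - 2 (L+1), 2 m >= 4n/3, H(p') >= H(p), n H(p) >= k
(ent_ge): 2 log D - log N >= k/3 - 2 L - 2, and 4 j L <= k/200 (jL), k >= 10^5 L.
H4: for 1 <= d < 2 j: exp ((1 + 3/n^2) r_d e tau) <= exp (r_d log D) * exp (3/n) <= 2 exp (r_d log D)
(e tau <= log D <= n, r_d <= 1). r_d <= (1-z)^d (rr_le_pow); conv_max with A = log D, x = 1-z, b = 2 L, M = 2 j:
r_d log D + 2 d L <= max ((1-z) log D + 2 L, (1-z)^(2j) log D + 4 j L), and (1-z)^(2j) <= exp (-2 j k/n) <=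
exp (-22 L) = n^(-22), so (1-z)^(2j) log D <= 1. (k n)^d <= exp (2 d L). So by keyA, keyB the summand is
<= 16 n exp (2 log D - 316 L) = 16 D^2 / n^315; times 2 j <= n: the sum is <= 16 D^2/n^314 <= D^2/(2 n^312).
-/

namespace Pool.Agent.H70.KP

open Pool.Agent.H70.KG (DD)

variable {n k : ℕ}

private theorem n_pos (h : Hyp n k) : (0 : ℝ) < n := by
  have := h.hn
  exact_mod_cast (by omega : 0 < n)

private theorem k_pos' (h : Hyp n k) : (0 : ℝ) < k := by
  have := h.k_pos
  exact_mod_cast (by omega : 0 < k)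

private theorem log_D_lower (h : Hyp n k) :
    ((n : ℝ) - k) * Real.binEntropy ((k : ℝ) / (n - k : ℝ)) - Real.log n ≤
      Real.log (DD n k) := by
  have h3 := h.h3
  have hk := h.k_pos
  have hn := n_pos h
  have hk0 := k_pos' h
  have h1 := le_log_choose (n := n - k) (k := k) hk (by omega)
  rw [Nat.cast_sub (by omega)] at h1
  have h2 : Real.log ((n : ℝ) - k + 1) ≤ Real.log n := by
    refine Real.log_le_log ?_ ?_
    · have h4 : (3 : ℝ) * k ≤ n := by exact_mod_cast h3
      linarith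
    · have h4 : (1 : ℝ) ≤ k := by exact_mod_cast hk
      linarith
  have h5 : Real.log (DD n k) = Real.log (((n - k).choose k : ℕ) : ℝ) := rfl
  rw [h5]
  linarith

private theorem p_eq (h : Hyp n k) :
    (k : ℝ) / n / (1 - (k : ℝ) / n) = (k : ℝ) / (n - k : ℝ) := by
  have hn := n_pos h
  have hk0 := k_pos' h
  have h3 : (3 : ℝ) * k ≤ n := by exact_mod_cast h.h3
  have h4 : (n : ℝ) - k ≠ 0 := by
    have : 0 < (n : ℝ) - k := by linarith
    exact this.ne'
  have h5 : 1 - (k : ℝ) / n = ((n : ℝ) - k) / n := by field_simp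
  rw [h5]
  field_simp

theorem Hyp.keyA (h : Hyp n k) :
    Real.log (n.choose k : ℝ) + 318 * Real.log n ≤
      (1 + (k : ℝ) / (n - k : ℝ)) * Real.log (DD n k) := by
  have hn := n_pos h
  have hk0 := k_pos' h
  have hL := h.L_ge
  have h3 : (3 : ℝ) * k ≤ n := by exact_mod_cast h.h3
  have hnk : 0 < (n : ℝ) - k := by linarith
  have hp0 : 0 < (k : ℝ) / n := by positivity
  have hp1 : (k : ℝ) / n ≤ 1 / 3 := by
    rw [div_le_div_iff₀ hn (by norm_num)]
    linarith
  have h1 := log_choose_le (n := n) (k := k) h.k_pos (by have := h.h3; have := h.k_pos; omega)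
  have h2 := log_D_lower h
  have h4 := gain hp0 hp1
  rw [p_eq h] at h4
  have h5 : 1 + (k : ℝ) / (n - k : ℝ) = n / (n - k : ℝ) := by
    field_simp
    ring
  rw [h5]
  have hc0 : 0 < (n : ℝ) / (n - k : ℝ) := by positivity
  have hc1 : (n : ℝ) / (n - k : ℝ) ≤ 3 / 2 := by
    rw [div_le_div_iff₀ hnk (by norm_num)]
    linarith
  have h6 := mul_le_mul_of_nonneg_left h2 hc0.le
  have h7 : (n : ℝ) / (n - k : ℝ) *
      (((n : ℝ) - k) * Real.binEntropy ((k : ℝ) / (n - k : ℝ)) - Real.log n) =
      n * Real.binEntropy ((k : ℝ) / (n - k : ℝ)) - n / (n - k : ℝ) * Real.log n := by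
    field_simp
  rw [h7] at h6
  have h8 : (n : ℝ) / (n - k : ℝ) * Real.log n ≤ 3 / 2 * Real.log n :=
    mul_le_mul_of_nonneg_right hc1 (by linarith)
  have h9 := mul_le_mul_of_nonneg_left h4 hn.le
  have h10 : (n : ℝ) * (Real.binEntropy ((k : ℝ) / n) + ((k : ℝ) / n) ^ 2 / 8) =
      n * Real.binEntropy ((k : ℝ) / n) + (k : ℝ) ^ 2 / (8 * n) := by
    field_simp
  rw [h10] at h9
  have h11 : 1250 * Real.log n ^ 2 ≤ (k : ℝ) ^ 2 / (8 * n) := by
    rw [le_div_iff₀ (by positivity)]
    have := h.k_sq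
    linarith
  nlinarith

theorem Hyp.keyB (h : Hyp n k) :
    Real.log (n.choose k : ℝ) + 4 * jj n k * Real.log n + 317 * Real.log n + 1 ≤
      2 * Real.log (DD n k) := by
  have hn := n_pos h
  have hk0 := k_pos' h
  have hL := h.L_ge
  have h3 : (3 : ℝ) * k ≤ n := by exact_mod_cast h.h3
  have hnk : 0 < (n : ℝ) - k := by linarith
  have hp0 : 0 < (k : ℝ) / n := by positivity
  have hp1 : (k : ℝ) / n ≤ 1 / 3 := by
    rw [div_le_div_iff₀ hn (by norm_num)]
    linarith
  have h1 := log_choose_le (n := n) (k := k) h.k_pos (by have := h.h3; have := h.k_pos; omega)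
  have h2 := log_D_lower h
  have h4 := gain hp0 hp1
  rw [p_eq h] at h4
  have h5 := ent_ge hp0 hp1
  have h6 : Real.binEntropy ((k : ℝ) / n) ≤ Real.binEntropy ((k : ℝ) / (n - k : ℝ)) := by
    have : 0 ≤ ((k : ℝ) / n) ^ 2 / 8 := by positivity
    linarith
  have h7 : ((n : ℝ) - k) * Real.binEntropy ((k : ℝ) / n) ≤
      ((n : ℝ) - k) * Real.binEntropy ((k : ℝ) / (n - k : ℝ)) :=
    mul_le_mul_of_nonneg_left h6 hnk.le
  have h8 : 2 / 3 * n * Real.binEntropy ((k : ℝ) / n) ≤
      ((n : ℝ) - k) * Real.binEntropy ((k : ℝ) / n) :=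
    mul_le_mul_of_nonneg_right (by linarith) (by linarith)
  have h9 : (k : ℝ) ≤ n * Real.binEntropy ((k : ℝ) / n) := by
    have h10 := mul_le_mul_of_nonneg_left h5 hn.le
    have h11 : (n : ℝ) * ((k : ℝ) / n) = k := by field_simp
    linarith
  have h12 := h.jL
  have h13 := h.k_big
  linarith

theorem Hyp.H4 (h : Hyp n k) :
    ∑ d ∈ Finset.Ico 1 (2 * jj n k), 8 * n * pd n k d *
      Real.exp ((1 + 3 * (1 / (n : ℝ) ^ 2)) * rr n k d * (xe n k * xt n k)) ≤
    (DD n k / (n : ℝ) ^ 156) ^ 2 / 2 := by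
  have hn := n_pos h
  have hk0 := k_pos' h
  have hL := h.L_ge
  have hD := h.D_pos
  have hN := h.N_pos
  have hn6 : (1000000 : ℝ) ≤ n := by exact_mod_cast h.hn
  have h3 : (3 : ℝ) * k ≤ n := by exact_mod_cast h.h3
  have hnk : 0 < (n : ℝ) - k := by linarith
  have hlogD := h.logD_le
  have hlogD0 : 0 ≤ Real.log (DD n k) := by
    have := h.logD_ge
    linarith
  set z := (k : ℝ) / (n - k : ℝ) with hz
  have hz0 : 0 < z := by positivity
  have hz1 : z ≤ 1 := by
    rw [hz, div_le_one hnk]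
    linarith
  set Q := Real.exp (2 * Real.log (DD n k) - 316 * Real.log n) with hQ
  have hQ0 : 0 < Q := Real.exp_pos _
  have hterm : ∀ d ∈ Finset.Ico 1 (2 * jj n k), 8 * n * pd n k d *
      Real.exp ((1 + 3 * (1 / (n : ℝ) ^ 2)) * rr n k d * (xe n k * xt n k)) ≤ 16 * n * Q := by
    intro d hd
    obtain ⟨hd1, hd2⟩ := Finset.mem_Ico.mp hd
    have hr0 := rr_nonneg n k d
    have hr1 := rr_le_one n k d
    have het0 : 0 ≤ xe n k * xt n k := mul_nonneg h.e_pos.le (Nat.cast_nonneg _)
    -- the exponential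
    have e1 : (1 + 3 * (1 / (n : ℝ) ^ 2)) * rr n k d * (xe n k * xt n k) ≤
        Real.log (DD n k) * (1 - z) ^ d + 1 / 2 := by
      have e2 : rr n k d * (xe n k * xt n k) ≤ (1 - z) ^ d * Real.log (DD n k) := by
        have e3 := h.et_le
        exact mul_le_mul (rr_le_pow h.k_pos h.h3 d) (by linarith) het0
          (pow_nonneg (by linarith) d)
      have e4 : 3 * (1 / (n : ℝ) ^ 2) * (rr n k d * (xe n k * xt n k)) ≤ 1 / 2 := by
        have e5 : rr n k d * (xe n k * xt n k) ≤ 1 * n :=
          mul_le_mul hr1 h.et_n het0 zero_le_one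
        have e6 := mul_le_mul_of_nonneg_left e5 (by positivity : 0 ≤ 3 * (1 / (n : ℝ) ^ 2))
        have e7 : 3 * (1 / (n : ℝ) ^ 2) * (1 * n) = 3 / n := by
          field_simp
        have e8 : (3 : ℝ) / n ≤ 1 / 2 := by
          rw [div_le_div_iff₀ hn (by norm_num)]
          linarith
        linarith
      have e9 : (1 + 3 * (1 / (n : ℝ) ^ 2)) * rr n k d * (xe n k * xt n k) =
          rr n k d * (xe n k * xt n k) +
            3 * (1 / (n : ℝ) ^ 2) * (rr n k d * (xe n k * xt n k)) := by ring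
      rw [e9]
      linarith
    have ehalf : Real.exp (1 / 2) ≤ 2 := by
      have h9 : Real.exp (1 / 2) ^ 2 ≤ 2 ^ 2 := by
        rw [← Real.exp_nat_mul]
        have : ((2 : ℕ) : ℝ) * (1 / 2) = 1 := by norm_num
        rw [this]
        have := Real.exp_one_lt_d9
        linarith
      exact le_of_sq_le_sq h9 (by norm_num)
    have e2 : Real.exp ((1 + 3 * (1 / (n : ℝ) ^ 2)) * rr n k d * (xe n k * xt n k)) ≤
        Real.exp (Real.log (DD n k) * (1 - z) ^ d) * 2 := by
      refine (Real.exp_le_exp.mpr e1).trans ?_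
      rw [Real.exp_add]
      exact mul_le_mul_of_nonneg_left ehalf (Real.exp_pos _).le
    -- the number of pairs
    have e3 : pd n k d ≤ Real.exp (Real.log (n.choose k : ℝ) + 2 * Real.log n * d) := by
      unfold pd
      rw [Real.exp_add, Real.exp_log hN]
      refine mul_le_mul_of_nonneg_left ?_ hN.le
      have e4 : 2 * Real.log n * d = ((d : ℕ) : ℝ) * (Real.log n + Real.log n) := by ring
      rw [e4, Real.exp_nat_mul, Real.exp_add, Real.exp_log hn]
      refine pow_le_pow_left₀ (by positivity) ?_ d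
      exact mul_le_mul_of_nonneg_right (by linarith) hn.le
    have e4 : Real.log (n.choose k : ℝ) + 2 * Real.log n * d +
        Real.log (DD n k) * (1 - z) ^ d ≤ 2 * Real.log (DD n k) - 316 * Real.log n := by
      have e5 := conv_max (A := Real.log (DD n k)) (b := 2 * Real.log n) (x := 1 - z) hlogD0
        (by linarith) (by linarith) hd1 hd2.le
      have e6 : max (Real.log (DD n k) * (1 - z) + 2 * Real.log n)
          (Real.log (DD n k) * (1 - z) ^ (2 * jj n k) +
            2 * Real.log n * ((2 * jj n k : ℕ) : ℝ)) ≤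
          2 * Real.log (DD n k) - 316 * Real.log n - Real.log (n.choose k : ℝ) := by
        refine max_le ?_ ?_
        · have e7 := h.keyA
          rw [← hz] at e7
          nlinarith
        · have e7 := h.keyB
          have e8 : (1 - z) ^ (2 * jj n k) ≤ 1 / (n : ℝ) ^ 22 := by
            have e9 : 1 - z ≤ Real.exp (-z) := by
              have := Real.add_one_le_exp (-z)
              linarith
            have e10 : (1 - z) ^ (2 * jj n k) ≤ Real.exp (-z) ^ (2 * jj n k) :=
              pow_le_pow_left₀ (by linarith) e9 _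
            refine e10.trans ?_
            rw [← Real.exp_nat_mul]
            have e11 : 1 / (n : ℝ) ^ 22 = Real.exp (-(22 * Real.log n)) := by
              rw [Real.exp_neg, one_div]
              congr 1
              rw [show (22 : ℝ) * Real.log n = ((22 : ℕ) : ℝ) * Real.log n by norm_num,
                Real.exp_nat_mul, Real.exp_log hn]
            rw [e11]
            refine Real.exp_le_exp.mpr ?_
            have e12 := h.jk_ge
            have e13 : (k : ℝ) / n ≤ z := by
              rw [hz]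
              exact div_le_div_of_nonneg_left hk0.le hnk (by linarith)
            have e14 : (jj n k : ℝ) * ((k : ℝ) / n) ≤ jj n k * z :=
              mul_le_mul_of_nonneg_left e13 (Nat.cast_nonneg _)
            have e15 : (k : ℝ) * jj n k / n = jj n k * ((k : ℝ) / n) := by ring
            rw [e15] at e12
            push_cast
            nlinarith
          have e9 : Real.log (DD n k) * (1 - z) ^ (2 * jj n k) ≤ 1 := by
            have e10 : Real.log (DD n k) * (1 - z) ^ (2 * jj n k) ≤ n * (1 / (n : ℝ) ^ 22) :=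
              mul_le_mul hlogD e8 (pow_nonneg (by linarith) _) hn.le
            have e11 : (n : ℝ) * (1 / (n : ℝ) ^ 22) ≤ 1 := by
              rw [mul_one_div, div_le_one (by positivity)]
              calc (n : ℝ) = (n : ℝ) ^ 1 := (pow_one _).symm
                _ ≤ (n : ℝ) ^ 22 := pow_le_pow_right₀ (by linarith) (by norm_num)
            linarith
          push_cast
          linarith
      have e7 := e5.trans e6
      linarith
    calc 8 * n * pd n k d *
          Real.exp ((1 + 3 * (1 / (n : ℝ) ^ 2)) * rr n k d * (xe n k * xt n k))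
        ≤ 8 * n * Real.exp (Real.log (n.choose k : ℝ) + 2 * Real.log n * d) *
          (Real.exp (Real.log (DD n k) * (1 - z) ^ d) * 2) := by
          refine mul_le_mul ?_ e2 (Real.exp_pos _).le (by positivity)
          exact mul_le_mul_of_nonneg_left e3 (by positivity)
      _ = 16 * n * Real.exp (Real.log (n.choose k : ℝ) + 2 * Real.log n * d +
          Real.log (DD n k) * (1 - z) ^ d) := by
          rw [Real.exp_add (Real.log (n.choose k : ℝ) + 2 * Real.log n * d)]
          ring
      _ ≤ 16 * n * Q := by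
          refine mul_le_mul_of_nonneg_left ?_ (by positivity)
          exact Real.exp_le_exp.mpr e4
  have hsum := Finset.sum_le_sum hterm
  rw [Finset.sum_const, Nat.card_Ico, nsmul_eq_mul] at hsum
  refine hsum.trans ?_
  have hcard : ((2 * jj n k - 1 : ℕ) : ℝ) ≤ n := by
    have := h.j_le
    exact_mod_cast (by omega : 2 * jj n k - 1 ≤ n)
  have hQe : (DD n k / (n : ℝ) ^ 156) ^ 2 / 2 = (n : ℝ) ^ 4 / 2 * Q := by
    have e1 : Q = DD n k ^ 2 / (n : ℝ) ^ 316 := by
      rw [hQ, Real.exp_sub]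
      rw [show (2 : ℝ) * Real.log (DD n k) = ((2 : ℕ) : ℝ) * Real.log (DD n k) by norm_num,
        show (316 : ℝ) * Real.log n = ((316 : ℕ) : ℝ) * Real.log n by norm_num,
        Real.exp_nat_mul, Real.exp_nat_mul, Real.exp_log hD, Real.exp_log hn]
    rw [e1]
    field_simp
  rw [hQe]
  calc ((2 * jj n k - 1 : ℕ) : ℝ) * (16 * n * Q) ≤ n * (16 * n * Q) :=
        mul_le_mul_of_nonneg_right hcard (by positivity)
    _ = 16 * (n : ℝ) ^ 2 * Q := by ring
    _ ≤ (n : ℝ) ^ 4 / 2 * Q := by
        refine mul_le_mul_of_nonneg_right ?_ hQ0.le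
        have e1 : (32 : ℝ) ≤ (n : ℝ) ^ 2 := by nlinarith
        have e2 : (n : ℝ) ^ 4 = (n : ℝ) ^ 2 * (n : ℝ) ^ 2 := by ring
        rw [e2]
        nlinarith [sq_nonneg (n : ℝ)]

end Pool.Agent.H70.KP
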