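import Pool.Agent.H70.KP.XB
import Pool.Agent.H70.KP.XC

/-!
# [H70 KP XD] the parameters

j = jj, tau = xt, del = 1/n^2, d1 = 1/(3 n^3), a = 3 n^3, a1 = 9 n^4, rho = 1/n^10, e = xe, nu = D/n^156.
The simple fields: n >= 10^6, e <= 1/n^20, e tau <= n. E.g. cc: 81 n^8 (64 e + 8/n^10) (e tau) <=
81 n^8 (64/n^20 + 8/n^10) n <= n since 81 * 72 <= n^2. hsz: 3 k <= n and 12 j <= n give 2k + 3j <= n.
-/

namespace Pool.Agent.H70.KP

open Pool.Agent.H70.KG (DD)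

variable {n k : ℕ}

private theorem n_ge (h : Hyp n k) : (1000000 : ℝ) ≤ n := by
  have := h.hn
  exact_mod_cast this

private theorem inv_le {x c : ℝ} (hx : 1 ≤ x) {m : ℕ} (hm : 1 ≤ m) (hc : 0 < c) (h : 1 / c ≤ x) :
    1 / x ^ m ≤ c := by
  have h1 : x ≤ x ^ m := by
    calc x = x ^ 1 := (pow_one x).symm
      _ ≤ x ^ m := pow_le_pow_right₀ hx hm
  rw [div_le_iff₀ (by positivity)]
  rw [div_le_iff₀ hc] at h
  nlinarith

private theorem f_hsz (h : Hyp n k) : 2 * k + 3 * jj n k ≤ n := by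
  have h1 := h.h3
  have h2 := h.j_le
  omega

private theorem f_del1 (h : Hyp n k) : 1 / (n : ℝ) ^ 2 ≤ 1 / 2 :=
  inv_le (by linarith [n_ge h]) (by norm_num) (by norm_num) (le_trans (by norm_num) (n_ge h))

private theorem f_d1le (h : Hyp n k) : 2 * (1 / (3 * (n : ℝ) ^ 3)) ≤ 1 / (n : ℝ) ^ 2 := by
  have hn := n_ge h
  rw [mul_one_div, div_le_div_iff₀ (by positivity) (by positivity)]
  have : (0 : ℝ) < (n : ℝ) ^ 2 := by positivity
  nlinarith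

private theorem f_e1 (h : Hyp n k) : 16 * xe n k ≤ 1 / (n : ℝ) ^ 2 := by
  have hn := n_ge h
  have h1 := h.e_small
  have h2 : 1 / (n : ℝ) ^ 20 = 1 / (n : ℝ) ^ 2 * (1 / (n : ℝ) ^ 18) := by field_simp
  have h3 : 1 / (n : ℝ) ^ 18 ≤ 1 / 16 :=
    inv_le (by linarith) (by norm_num) (by norm_num) (le_trans (by norm_num) (n_ge h))
  have h4 : 0 < 1 / (n : ℝ) ^ 2 := by positivity
  rw [h2] at h1
  nlinarith

private theorem f_e2 (h : Hyp n k) : 4 * n * xe n k ≤ 1 := by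
  have hn := n_ge h
  have h1 := h.e_small
  have h2 := mul_le_mul_of_nonneg_left h1 (by positivity : (0 : ℝ) ≤ 4 * n)
  have h3 : 4 * (n : ℝ) * (1 / (n : ℝ) ^ 20) = 4 * (1 / (n : ℝ) ^ 19) := by field_simp
  have h4 : 1 / (n : ℝ) ^ 19 ≤ 1 / 4 :=
    inv_le (by linarith) (by norm_num) (by norm_num) (le_trans (by norm_num) (n_ge h))
  linarith

private theorem f_rho1 (h : Hyp n k) : 1 / (n : ℝ) ^ 10 ≤ 1 :=
  inv_le (by linarith [n_ge h]) (by norm_num) (by norm_num) (le_trans (by norm_num) (n_ge h))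

private theorem f_aa (h : Hyp n k) : 3 * (n : ℝ) ^ 3 * (1 / (n : ℝ) ^ 2) = 3 * n := by
  have hn : (n : ℝ) ≠ 0 := by
    have := n_ge h
    intro h0
    rw [h0] at this
    norm_num at this
  field_simp

private theorem f_aa1 (h : Hyp n k) : 9 * (n : ℝ) ^ 4 * (1 / (3 * (n : ℝ) ^ 3)) = 3 * n := by
  have hn : (n : ℝ) ≠ 0 := by
    have := n_ge h
    intro h0
    rw [h0] at this
    norm_num at this
  field_simp
  norm_num

private theorem f_ad (h : Hyp n k) : 3 * (n : ℝ) ^ 3 * (1 / (3 * (n : ℝ) ^ 3)) ≤ 1 := by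
  have hn := n_ge h
  have h0 : 3 * (n : ℝ) ^ 3 ≠ 0 := by positivity
  exact (mul_one_div_cancel h0).le

private theorem f_arho (h : Hyp n k) : 3 * (n : ℝ) ^ 3 * (1 / (n : ℝ) ^ 10) ≤ 1 := by
  have hn := n_ge h
  have h3 : 3 * (n : ℝ) ^ 3 * (1 / (n : ℝ) ^ 10) = 3 * (1 / (n : ℝ) ^ 7) := by field_simp
  have h4 : 1 / (n : ℝ) ^ 7 ≤ 1 / 3 :=
    inv_le (by linarith) (by norm_num) (by norm_num) (le_trans (by norm_num) (n_ge h))
  rw [h3]
  linarith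

private theorem f_a1e (h : Hyp n k) : 8 * (9 * (n : ℝ) ^ 4) * xe n k ≤ 1 := by
  have hn := n_ge h
  have h2 := mul_le_mul_of_nonneg_left h.e_small (by positivity : (0 : ℝ) ≤ 8 * (9 * (n : ℝ) ^ 4))
  have h3 : 8 * (9 * (n : ℝ) ^ 4) * (1 / (n : ℝ) ^ 20) = 72 * (1 / (n : ℝ) ^ 16) := by
    field_simp
    norm_num
  have h4 : 1 / (n : ℝ) ^ 16 ≤ 1 / 72 :=
    inv_le (by linarith) (by norm_num) (by norm_num) (le_trans (by norm_num) (n_ge h))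
  rw [h3] at h2
  linarith

private theorem et0 (h : Hyp n k) : 0 ≤ xe n k * xt n k :=
  mul_nonneg h.e_pos.le (Nat.cast_nonneg _)

private theorem f_cc (h : Hyp n k) : (9 * (n : ℝ) ^ 4) ^ 2 * (64 * xe n k +
    8 * (1 / (n : ℝ) ^ 10)) * (xe n k * xt n k) ≤ n := by
  have hn := n_ge h
  have he := h.e_pos
  have h1 : 64 * xe n k + 8 * (1 / (n : ℝ) ^ 10) ≤ 72 * (1 / (n : ℝ) ^ 10) := by
    have h2 : 1 / (n : ℝ) ^ 20 = 1 / (n : ℝ) ^ 10 * (1 / (n : ℝ) ^ 10) := by field_simp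
    have h3 := h.e_small
    have h4 := f_rho1 h
    have h5 : 0 < 1 / (n : ℝ) ^ 10 := by positivity
    rw [h2] at h3
    nlinarith
  have h2 : (9 * (n : ℝ) ^ 4) ^ 2 * (64 * xe n k + 8 * (1 / (n : ℝ) ^ 10)) ≤
      (9 * (n : ℝ) ^ 4) ^ 2 * (72 * (1 / (n : ℝ) ^ 10)) :=
    mul_le_mul_of_nonneg_left h1 (by positivity)
  have h3 : (9 * (n : ℝ) ^ 4) ^ 2 * (72 * (1 / (n : ℝ) ^ 10)) = 5832 * (1 / (n : ℝ) ^ 2) := by
    field_simp
    norm_num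
  have h4 : 5832 * (1 / (n : ℝ) ^ 2) ≤ 1 := by
    rw [mul_one_div, div_le_one (by positivity)]
    nlinarith
  have h5 : (9 * (n : ℝ) ^ 4) ^ 2 * (64 * xe n k + 8 * (1 / (n : ℝ) ^ 10)) ≤ 1 := by linarith
  calc (9 * (n : ℝ) ^ 4) ^ 2 * (64 * xe n k + 8 * (1 / (n : ℝ) ^ 10)) * (xe n k * xt n k)
      ≤ 1 * n := mul_le_mul h5 h.et_n (et0 h) zero_le_one
    _ = n := one_mul _

private theorem f_c4 (h : Hyp n k) :
    (n : ℝ) ^ 2 * (1 / (n : ℝ) ^ 10) * (xe n k * xt n k) ≤ 1 / 2 := by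
  have hn := n_ge h
  have h1 := mul_le_mul_of_nonneg_left h.et_n
    (by positivity : 0 ≤ (n : ℝ) ^ 2 * (1 / (n : ℝ) ^ 10))
  have h2 : (n : ℝ) ^ 2 * (1 / (n : ℝ) ^ 10) * n = 1 / (n : ℝ) ^ 7 := by field_simp
  have h3 : 1 / (n : ℝ) ^ 7 ≤ 1 / 2 :=
    inv_le (by linarith) (by norm_num) (by norm_num) (le_trans (by norm_num) (n_ge h))
  linarith

private theorem f_dtau (h : Hyp n k) :
    3 * (1 / (n : ℝ) ^ 2) * (xe n k * xt n k) ≤ 1 / 2 := by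
  have hn := n_ge h
  have h1 := mul_le_mul_of_nonneg_left h.et_n (by positivity : 0 ≤ 3 * (1 / (n : ℝ) ^ 2))
  have h2 : 3 * (1 / (n : ℝ) ^ 2) * n = 3 * (1 / (n : ℝ) ^ 1) := by field_simp
  have h3 : 1 / (n : ℝ) ^ 1 ≤ 1 / 6 :=
    inv_le (by linarith) (by norm_num) (by norm_num) (le_trans (by norm_num) (n_ge h))
  linarith

private theorem f_pos (h : Hyp n k) : (0 : ℝ) < n := by linarith [n_ge h]

/-- The parameters. -/
noncomputable def mkPar (h : Hyp n k) : Par n k where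
  j := jj n k
  tau := xt n k
  del := 1 / (n : ℝ) ^ 2
  d1 := 1 / (3 * (n : ℝ) ^ 3)
  a := 3 * (n : ℝ) ^ 3
  a1 := 9 * (n : ℝ) ^ 4
  rho := 1 / (n : ℝ) ^ 10
  e := xe n k
  nu := DD n k / (n : ℝ) ^ 156
  hn := by have := h.hn; omega
  hk := h.k_pos
  hj := h.j_pos
  hsz := f_hsz h
  htau := h.tau_pos
  del0 := div_pos one_pos (pow_pos (f_pos h) 2)
  del1 := f_del1 h
  d10 := div_pos one_pos (mul_pos (by norm_num) (pow_pos (f_pos h) 3))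
  d1le := f_d1le h
  e0 := h.e_pos
  e1 := f_e1 h
  e2 := f_e2 h
  eN := h.eN
  rho0 := div_pos one_pos (pow_pos (f_pos h) 10)
  rho1 := f_rho1 h
  nu0 := div_pos h.D_pos (pow_pos (f_pos h) 156)
  aa := f_aa h
  aa1 := f_aa1 h
  ad := f_ad h
  arho := f_arho h
  a1e := f_a1e h
  cc := f_cc h
  c4 := f_c4 h
  dtau := f_dtau h
  H1 := h.H1
  H2 := h.H2
  H3 := h.H3
  H4 := h.H4

end Pool.Agent.H70.KP
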